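import Pool.Agent.MP_ee8c61_ag.M3.Mod

/-!
Small lemmas on units of valuation rings, local rings and pull-backs.
-/

namespace Pool.Agent.MP_ee8c61_ag.M3

open H59 Finset

section Un

variable {K : Type} [Field K] {V V' : ValuationSubring K} {g h : K}

theorem un_iff : Un V g ↔ V.valuation g = 1 := by
  refine ⟨fun ⟨h0, h1, h2⟩ => le_antisymm ((V.valuation_le_one_iff g).2 h1) ?_, fun e => ?_⟩
  · have := (V.valuation_le_one_iff _).2 h2
    rwa [map_inv₀, inv_le_one₀ (zero_lt_iff.2 ((Valuation.ne_zero_iff _).2 h0))] at this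
  · refine ⟨fun h0 => by simp [h0] at e, (V.valuation_le_one_iff g).1 e.le,
      (V.valuation_le_one_iff _).1 (by rw [map_inv₀, e, inv_one])⟩

theorem not_un_iff (hg : g ∈ V) : ¬Un V g ↔ V.valuation g < 1 := by
  rw [un_iff, lt_iff_le_and_ne]
  exact ⟨fun h => ⟨(V.valuation_le_one_iff g).2 hg, h⟩, fun h => h.2⟩

theorem un_one : Un V 1 := un_iff.2 (map_one _)

theorem Un.mul (h1 : Un V g) (h2 : Un V h) : Un V (g * h) :=
  un_iff.2 (by rw [map_mul, un_iff.1 h1, un_iff.1 h2, one_mul])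

theorem Un.inv (h1 : Un V g) : Un V g⁻¹ := un_iff.2 (by rw [map_inv₀, un_iff.1 h1, inv_one])

theorem Un.div (h1 : Un V g) (h2 : Un V h) : Un V (g / h) := by
  rw [div_eq_mul_inv]; exact h1.mul h2.inv

theorem Un.neg (h1 : Un V g) : Un V (-g) := un_iff.2 (by rw [Valuation.map_neg, un_iff.1 h1])

theorem Un.pow (h1 : Un V g) (e : ℕ) : Un V (g ^ e) :=
  un_iff.2 (by rw [map_pow, un_iff.1 h1, one_pow])

theorem Un.zpow (h1 : Un V g) (e : ℤ) : Un V (g ^ e) :=
  un_iff.2 (by rw [map_zpow₀, un_iff.1 h1, one_zpow])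

theorem Un.prod {ι : Type} (s : Finset ι) {f : ι → K} (hf : ∀ i ∈ s, Un V (f i)) :
    Un V (∏ i ∈ s, f i) :=
  Finset.prod_induction f (Un V) (fun _ _ => Un.mul) un_one hf

theorem Un.mono (h1 : Un V g) (h2 : V ≤ V') : Un V' g := ⟨h1.1, h2 h1.2.1, h2 h1.2.2⟩

/-- A factor of a unit is a unit. -/
theorem Un.of_mul (h1 : Un V (g * h)) (hg : g ∈ V) (hh : h ∈ V) : Un V g := by
  have h0 : h ≠ 0 := right_ne_zero_of_mul h1.1
  refine ⟨left_ne_zero_of_mul h1.1, hg, ?_⟩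
  have : g⁻¹ = (g * h)⁻¹ * h := by field_simp
  rw [this]; exact mul_mem h1.2.2 hh

theorem Un.cancel (h1 : Un V (g * h)) (h2 : Un V h) : Un V g := by
  have := h1.div h2
  rwa [mul_div_cancel_right₀ _ h2.1] at this

theorem Un.mem_iff (h1 : Un V h) : g * h ∈ V ↔ g ∈ V := by
  refine ⟨fun e => ?_, fun e => mul_mem e h1.2.1⟩
  have := mul_mem e h1.2.2
  rwa [mul_inv_cancel_right₀ h1.1] at this

theorem mem_of_pow {r : ℕ} (hr : 0 < r) (h1 : g ^ r ∈ V) : g ∈ V := by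
  rw [← V.valuation_le_one_iff, map_pow] at h1
  exact (V.valuation_le_one_iff g).1 ((pow_le_one_iff hr.ne').1 h1)

theorem Un.of_pow {r : ℕ} (hr : 0 < r) (h1 : Un V (g ^ r)) : Un V g :=
  ⟨fun e => h1.1 (by rw [e, zero_pow hr.ne']), mem_of_pow hr h1.2.1,
    mem_of_pow hr (by rw [inv_pow]; exact h1.2.2)⟩

/-- A unit plus a non-unit is a unit. -/
theorem Un.add (h1 : Un V g) (hh : h ∈ V) (h2 : ¬Un V h) : Un V (g + h) := by
  rw [un_iff] at h1 ⊢
  rw [Valuation.map_add_eq_of_lt_left _ (h1 ▸ (not_un_iff hh).1 h2), h1]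

theorem not_un_add (hg : g ∈ V) (hh : h ∈ V) (h1 : ¬Un V g) (h2 : ¬Un V h) : ¬Un V (g + h) :=
  (not_un_iff (add_mem hg hh)).2
    (Valuation.map_add_lt _ ((not_un_iff hg).1 h1) ((not_un_iff hh).1 h2))

theorem not_un_mul (hg : g ∈ V) (hh : h ∈ V) (h2 : ¬Un V h) : ¬Un V (g * h) :=
  fun e => h2 ((mul_comm g h ▸ e).of_mul hh hg)

theorem not_un_zero : ¬Un V 0 := fun e => e.1 rfl

theorem not_un_sum {ι : Type} (s : Finset ι) {f : ι → K} (h1 : ∀ i ∈ s, f i ∈ V)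
    (h2 : ∀ i ∈ s, ¬Un V (f i)) : ¬Un V (∑ i ∈ s, f i) :=
  (Finset.sum_induction f (fun g => g ∈ V ∧ ¬Un V g)
    (fun _ _ a b => ⟨add_mem a.1 b.1, not_un_add a.1 b.1 a.2 b.2⟩) ⟨zero_mem _, not_un_zero⟩
    fun i hi => ⟨h1 i hi, h2 i hi⟩).2

/-- Powers of a non-unit. -/
theorem zpow_mem_iff (h0 : g ≠ 0) (hg : g ∈ V) (h1 : ¬Un V g) (e : ℤ) : g ^ e ∈ V ↔ 0 ≤ e := by
  rw [← V.valuation_le_one_iff, map_zpow₀]
  exact zpow_le_one_iff_right_of_lt_one₀ (zero_lt_iff.2 ((Valuation.ne_zero_iff _).2 h0))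
    ((not_un_iff hg).1 h1)

theorem un_zpow_iff (h0 : g ≠ 0) (hg : g ∈ V) (h1 : ¬Un V g) (e : ℤ) : Un V (g ^ e) ↔ e = 0 := by
  refine ⟨fun h => le_antisymm ?_ ((zpow_mem_iff h0 hg h1 e).1 h.2.1), fun h => ?_⟩
  · have := h.2.2
    rw [← zpow_neg, zpow_mem_iff h0 hg h1] at this
    omega
  · rw [h, zpow_zero]; exact un_one

namespace DV

variable (d : DV K)

theorem un_O : Un d.O g ↔ g ≠ 0 ∧ d.v g = 0 := by
  refine ⟨fun ⟨h0, h1, h2⟩ => ⟨h0, ?_⟩, fun ⟨h0, h1⟩ =>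
    ⟨h0, Or.inr h1.ge, Or.inr (by rw [d.inv, h1]; rfl)⟩⟩
  have a := h1.resolve_left h0
  have b := h2.resolve_left (inv_ne_zero h0)
  rw [d.inv] at b
  omega

theorem pow (g : K) (r : ℕ) : d.v (g ^ r) = r * d.v g := by
  by_cases h0 : g = 0
  · rcases r with _ | r <;> simp [h0, d.one, d.zero]
  induction r with
  | zero => simp [d.one]
  | succ r ih => rw [pow_succ, d.mul _ _ (pow_ne_zero _ h0) h0, ih]; push_cast; ring

theorem zpow (g : K) (r : ℤ) : d.v (g ^ r) = r * d.v g := by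
  rcases r with r | r
  · simpa using d.pow g r
  · rw [zpow_negSucc, d.inv, d.pow, Int.negSucc_eq]; push_cast; ring

theorem div (h0 : g ≠ 0) (h1 : h ≠ 0) : d.v (g / h) = d.v g - d.v h := by
  rw [div_eq_mul_inv, d.mul _ _ h0 (inv_ne_zero h1), d.inv]; ring

theorem prod {ι : Type} (s : Finset ι) {f : ι → K} (hf : ∀ i ∈ s, f i ≠ 0) :
    d.v (∏ i ∈ s, f i) = ∑ i ∈ s, d.v (f i) := by
  classical
  induction s using Finset.induction_on with
  | empty => simp [d.one]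
  | insert i s hi ih =>
    have h2 := fun j hj => hf j (mem_insert_of_mem hj)
    rw [prod_insert hi, sum_insert hi, d.mul _ _ (hf i (mem_insert_self _ _))
      (prod_ne_zero_iff.2 h2), ih h2]

theorem F_pow {m : ℤ} (hg : g ∈ d.F m) (r : ℕ) : g ^ r ∈ d.F (r * m) := by
  induction r with
  | zero => exact Or.inr (by simp [d.one])
  | succ r ih =>
    have := d.F_mul ih hg
    rwa [← pow_succ, show (r : ℤ) * m + m = ((r + 1 : ℕ) : ℤ) * m by push_cast; ring] at this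

/-- Adding an element of larger value does not change the value. -/
theorem eq_of_sub {m : ℤ} (h0 : g ≠ 0) (h1 : d.v g = m) (h2 : h - g ∈ d.F (m + 1)) :
    h ≠ 0 ∧ d.v h = m := by
  have a : h ∈ d.F m := by
    have := add_mem (d.F_anti (by omega : m ≤ m + 1) h2) (h1 ▸ d.mem_F_self g)
    rwa [sub_add_cancel] at this
  have b : h ∉ d.F (m + 1) := fun e => by
    have := sub_mem e h2
    rw [sub_sub_cancel] at this
    have := this.resolve_left h0
    omega
  have c : h ≠ 0 := fun e => b (Or.inl e)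
  have a' := a.resolve_left c
  exact ⟨c, by_contra fun e => b (Or.inr (by omega))⟩

end DV

variable [Algebra ℂ K] {A : Subalgebra ℂ K}

theorem Lc.of_mem (hg : g ∈ A) : Lc A V g := ⟨1, one_mem _, un_one, by simpa using hg⟩

theorem Lc.mul (h1 : Lc A V g) (h2 : Lc A V h) : Lc A V (g * h) := by
  obtain ⟨s, a, b, c⟩ := h1
  obtain ⟨s', a', b', c'⟩ := h2
  exact ⟨s * s', mul_mem a a', b.mul b', by rw [mul_mul_mul_comm]; exact mul_mem c c'⟩

theorem Lc.add (h1 : Lc A V g) (h2 : Lc A V h) : Lc A V (g + h) := by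
  obtain ⟨s, a, b, c⟩ := h1
  obtain ⟨s', a', b', c'⟩ := h2
  refine ⟨s * s', mul_mem a a', b.mul b', ?_⟩
  rw [show s * s' * (g + h) = s' * (s * g) + s * (s' * h) by ring]
  exact add_mem (mul_mem a' c) (mul_mem a c')

theorem Lc.inv (h1 : Lc A V g) (h2 : Un V g) : Lc A V g⁻¹ := by
  obtain ⟨s, a, b, c⟩ := h1
  exact ⟨s * g, c, b.mul h2, by rwa [mul_inv_cancel_right₀ h2.1]⟩

theorem Lc.mem (h1 : Lc A V g) (hA : ∀ x ∈ A, x ∈ V') (hu : ∀ s ∈ A, Un V s → Un V' s) :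
    g ∈ V' := by
  obtain ⟨s, a, b, c⟩ := h1
  exact (hu s a b).mem_iff.1 (mul_comm s g ▸ hA _ c)

theorem Lc.mem' (h1 : Lc A V g) (hA : ∀ x ∈ A, x ∈ V) : g ∈ V := h1.mem hA fun _ _ h => h

/-- The local ring of `A` at the centre of `V`. -/
def LA (A : Subalgebra ℂ K) (V : ValuationSubring K) : Subalgebra ℂ K where
  carrier := {g | Lc A V g}
  mul_mem' := Lc.mul
  add_mem' := Lc.add
  algebraMap_mem' c := Lc.of_mem (A.algebraMap_mem c)

theorem mem_LA : g ∈ LA A V ↔ Lc A V g := Iff.rfl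

theorem le_LA : A ≤ LA A V := fun _ => Lc.of_mem

/-- A valuation ring that contains the constants, as an algebra. -/
def VA (V : ValuationSubring K) (hV : ∀ c : ℂ, algebraMap ℂ K c ∈ V) : Subalgebra ℂ K :=
  { V.toSubring with algebraMap_mem' := hV }

theorem mem_VA (hV : ∀ c : ℂ, algebraMap ℂ K c ∈ V) : g ∈ VA V hV ↔ g ∈ V := Iff.rfl

theorem sup_mem {B : Subalgebra ℂ K} (hA : ∀ x ∈ A, x ∈ V) (hB : ∀ x ∈ B, x ∈ V)
    (hg : g ∈ A ⊔ B) : g ∈ V :=
  (sup_le hA hB : A ⊔ B ≤ VA V fun c => hA _ (A.algebraMap_mem c)) hg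

end Un

variable {N : ℕ}

namespace Mod

variable (M : Mod N)

theorem η_ne (b : M.ι) (j : M.J) : M.η b j ≠ 0 := Units.ne_zero _

theorem mon_ne (b : M.ι) (c : M.J → ℤ) : M.mon b c ≠ 0 := Units.ne_zero _

theorem mon_eq (b : M.ι) (c : M.J → ℤ) : M.mon b c = ∏ j, M.η b j ^ c j := by
  simp [mon, η, Sys.mon]

@[simp] theorem q_apply (c : M.J → ℤ) (j : M.J) : M.q c j = c j := rfl

theorem q_inj : Function.Injective M.q := fun _ _ h =>
  funext fun j => Int.cast_injective (α := ℚ) (congrFun h j)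

theorem q_add (c c' : M.J → ℤ) : M.q (c + c') = M.q c + M.q c' := funext fun _ => by simp

theorem q_sub (c c' : M.J → ℤ) : M.q (c - c') = M.q c - M.q c' := funext fun _ => by simp

theorem q_neg (c : M.J → ℤ) : M.q (-c) = -M.q c := funext fun _ => by simp

theorem q_zero : M.q 0 = 0 := funext fun _ => by simp

theorem q_nsmul (r : ℕ) (c : M.J → ℤ) : M.q (r • c) = r • M.q c := funext fun _ => by simp

theorem q_zsmul (r : ℤ) (c : M.J → ℤ) : M.q (r • c) = (r : ℚ) • M.q c := funext fun _ => by simp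

theorem up_q (c : M.J → ℤ) : M.up (M.q c) = c := funext fun _ => by simp [up]

theorem e_apply (i j : M.J) : M.e i j = if j = i then 1 else 0 := Pi.single_apply _ _ _

end Mod

namespace Dom

variable {W M : Mod N} (D : Dom W M) {R : Type} [CommRing R]

theorem pb_add (c c' : M.J → R) : D.pb (c + c') = D.pb c + D.pb c' :=
  funext fun _ => by simp [pb, mul_add, sum_add_distrib]

theorem pb_sub (c c' : M.J → R) : D.pb (c - c') = D.pb c - D.pb c' :=
  funext fun _ => by simp [pb, mul_sub, sum_sub_distrib]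

theorem pb_neg (c : M.J → R) : D.pb (-c) = -D.pb c := funext fun _ => by simp [pb]

theorem pb_zero : D.pb (0 : M.J → R) = 0 := funext fun _ => by simp [pb]

theorem pb_smul (t : R) (c : M.J → R) : D.pb (t • c) = t • D.pb c :=
  funext fun _ => by simp [pb, mul_sum, mul_left_comm]

theorem pb_nsmul (t : ℕ) (c : M.J → R) : D.pb (t • c) = t • D.pb c :=
  funext fun _ => by simp [pb, mul_sum, mul_left_comm]

theorem pb_mono [LinearOrder R] [IsStrictOrderedRing R] {c c' : M.J → R} (h : c ≤ c') :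
    D.pb c ≤ D.pb c' := fun _ =>
  sum_le_sum fun j _ => mul_le_mul_of_nonneg_left (h j) (Nat.cast_nonneg _)

theorem q_pb (c : M.J → ℤ) : W.q (D.pb c) = D.pb (M.q c) := funext fun _ => by simp [pb]

theorem pb_e (j : M.J) (i : W.J) : D.pb (M.e j) i = D.m i j := by
  simp [pb, Mod.e_apply]

end Dom

end Pool.Agent.MP_ee8c61_ag.M3
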