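import Pool.Agent.MP_ee8c61_ag.M3E.Spec

/-!
Assembly of the tasks.
-/

namespace Pool.Agent.MP_ee8c61_ag.M3E

structure ERows : Prop where
  Nrm : SNrm
  Unr : SUnr
  Gd : SGd
  Jac : SJac
  Bas1 : SBas1
  Bas : OfBas
  Der : OfDer
  Nb : OfNb
  Ns : OfNs
  H : OfH
  Mono : OfMono
  Cv : OfCv
  Ce : OfCe
  Clr : OfClr
  Ref : OfRef
  A1 : OfA1
  A3 : OfA3
  Aq : OfAq
  KV : OfKV
  L0 : OfL0
  Dc : OfDc
  Mk1 : OfMk1
  Mk2 : OfMk2
  B1 : OfB1
  A4 : OfA4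
  Jd : OfJd
  Plt : OfPlt
  Adj : OfAdj
  Mn : OfMn
  L : OfL
  T : OfT
  E : OfE
  Bd : OfBd
  E2 : OfE2
  Can : OfCan

/-- Everything that the block exports. -/
structure EOut : Prop where
  bas : SBas
  der : SDer
  nb : SNb
  ns : SNs
  h : SH
  mono : SMono
  cv : SCv
  ce : SCe
  clr : SClr
  ref : SRef
  a1 : SA1
  a3 : SA3
  aq : SAq
  kv : SKV
  l0 : SL0
  dc : SDc
  mk1 : SMk1
  mk2 : SMk2
  b1 : SB1
  a4 : SA4
  jd : SJd
  plt : SPlt
  adj : SAdj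
  mn : SMn
  l : SL
  t : ST
  e : SE
  bd : SBd
  e2 : SE2
  can : SCan

theorem eout_of (r : ERows) (hV : SKVF) (hB : SB1raw) : EOut := by
  have bas := r.Bas r.Bas1
  have der := r.Der bas
  have nb := r.Nb r.Nrm bas
  have ns := r.Ns r.Nrm bas
  have h := r.H bas
  have mono := r.Mono bas
  have cv := r.Cv bas nb
  have cx := r.Ce r.Gd bas nb
  have clr := r.Clr bas nb
  have ref := r.Ref bas nb clr
  have a1 := r.A1 bas clr
  have a3 := r.A3 bas nb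
  have aq := r.Aq bas a1 a3
  have kv := r.KV hV bas nb ref
  have l0 := r.L0 bas nb ns kv
  have dc := r.Dc bas h
  have mk1 := r.Mk1 bas nb
  have mk2 := r.Mk2 bas mono
  have b1 := r.B1 hB bas nb h mono mk1 mk2
  have a4 := r.A4 bas aq dc
  have jd := r.Jd bas der dc
  have plt := r.Plt r.Unr r.Jac bas der dc jd
  have adj := r.Adj bas der dc jd
  have lm := r.Mn bas cv cx dc
  have l := r.L bas aq l0 dc b1 a4 jd plt lm
  have t := r.T bas a1 aq l0 l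
  have e := r.E bas aq dc a4 jd plt l t
  have bd := r.Bd r.Unr bas der cv dc adj
  exact ⟨bas, der, nb, ns, h, mono, cv, cx, clr, ref, a1, a3, aq, kv, l0, dc, mk1, mk2, b1, a4, jd,
    plt, adj, lm, l, t, e, bd, r.E2 bas cv cx a1 aq l0 dc b1 lm e bd,
    r.Can bas der nb cv cx a1 dc b1 adj⟩

end Pool.Agent.MP_ee8c61_ag.M3E
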