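import Pool.Agent.MP_ee8c61_ag.M3E.Spec

/-! The maximal ideal at the centre of a valuation ring in etale coordinates. -/

namespace Pool.Agent.MP_ee8c61_ag.M3E

open H59 M3

namespace RUnr

theorem loc {R A : Type} [CommRing R] [CommRing A] [Algebra R A] [Algebra.Etale R A] (P : Ideal A)
    [P.IsPrime] {g : A} (hg : g ∈ P) :
    ∃ s, s ∉ P ∧ s * g ∈ (P.under R).map (algebraMap R A) := by
  let _ := Localization.AtPrime.algebraOfLiesOver (P.under R) P
  have h := ((Algebra.isUnramifiedAt_iff_map_eq R (P.under R) P).1 inferInstance).2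
  have h1 : algebraMap A (Localization.AtPrime P) g ∈
      ((P.under R).map (algebraMap R A)).map (algebraMap A (Localization.AtPrime P)) := by
    rw [Ideal.map_map, ← IsScalarTower.algebraMap_eq, h, ← Localization.AtPrime.map_eq_maximalIdeal]
    exact Ideal.mem_map_of_mem _ hg
  obtain ⟨s, hs, h2⟩ := (IsLocalization.algebraMap_mem_map_algebraMap_iff P.primeCompl _ _ _).1 h1
  exact ⟨s, hs, h2⟩

end RUnr

theorem rowUnr : SUnr := by
  intro K _ _ n A z V het hV g hg hu
  let P : Ideal A :=
    { carrier := {x | ¬Un V x}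
      add_mem' := fun {x y} hx hy => not_un_add (hV _ x.2) (hV _ y.2) hx hy
      zero_mem' := not_un_zero
      smul_mem' := fun c x hx => not_un_mul (hV _ c.2) (hV _ x.2) hx }
  have hP : P.IsPrime := ⟨(Ideal.ne_top_iff_one P).2 fun h => h un_one, fun {x y} h => by
    by_contra hn
    rw [not_or] at hn
    exact h (Un.mul (not_not.1 hn.1) (not_not.1 hn.2))⟩
  let _ : Algebra (MvPolynomial (Fin n) ℂ) A := (MvPolynomial.aeval (R := ℂ) z).toRingHom.toAlgebra
  have : Algebra.Etale (MvPolynomial (Fin n) ℂ) A := het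
  obtain ⟨s, hs, h⟩ := RUnr.loc (R := MvPolynomial (Fin n) ℂ) P (g := ⟨g, hg⟩) hu
  obtain ⟨r, c, q, hq⟩ := Submodule.mem_span_set'.1 h
  choose p hp hpq using fun i => (q i).2
  have e : ∀ i, MvPolynomial.aeval (fun l => (z l : K)) (p i) = ((q i : A) : K) := fun i => by
    rw [← hpq]
    exact (MvPolynomial.comp_aeval_apply z A.val (p i)).symm
  refine ⟨s, s.2, not_not.1 hs, r, fun i => c i, p, fun i => (c i).2, fun i => ?_, ?_⟩
  · rw [e, ← hpq]
    exact hp i
  · simp only [e]
    simpa using (congrArg Subtype.val hq).symm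

end Pool.Agent.MP_ee8c61_ag.M3E
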