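import Pool.Agent.MP_ee8c61_ag.M3E.Spec

/-!
Basic properties of a model.
-/

namespace Pool.Agent.MP_ee8c61_ag.M3E

open H59 M3 Finset

namespace B1x

variable {N : ℕ} {f : Po N} {M : Mod N}

theorem η_mem (b : M.ι) (j : M.J) : M.η b j ∈ M.S.A b := by
  rcases e : M.S.lab b j with _ | l
  · rw [Mod.η, M.S.η_none b j e]; exact one_mem _
  · rw [Mod.η, M.S.η_some b j l e]; exact M.S.z_mem b l

theorem mon_add (b : M.ι) (c c' : M.J → ℤ) : M.mon b (c + c') = M.mon b c * M.mon b c' := by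
  simp only [Mod.mon_eq, Pi.add_apply, zpow_add₀ (M.η_ne b _), prod_mul_distrib]

theorem mon_zero (b : M.ι) : M.mon b 0 = 1 := by simp [Mod.mon_eq]

theorem mon_neg (b : M.ι) (c : M.J → ℤ) : M.mon b (-c) = (M.mon b c)⁻¹ := by
  simp only [Mod.mon_eq, Pi.neg_apply, zpow_neg, prod_inv_distrib]

theorem mon_nsmul (b : M.ι) (r : ℕ) (c : M.J → ℤ) : M.mon b (r • c) = M.mon b c ^ r := by
  induction r with
  | zero => rw [zero_smul, mon_zero, pow_zero]
  | succ r ih => rw [succ_nsmul, mon_add, ih, pow_succ]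

theorem mon_e (b : M.ι) (j : M.J) (r : ℤ) : M.mon b (r • M.e j) = M.η b j ^ r := by
  rw [Mod.mon_eq, prod_eq_single j (fun i _ hi => by simp [Mod.e_apply, hi]) (by simp)]
  simp [Mod.e_apply]

theorem zpow_mem {S K : Type} [Field K] [SetLike S K] [SubmonoidClass S K] {A : S} {g : K}
    (hg : g ∈ A) {e : ℤ} (he : 0 ≤ e) : g ^ e ∈ A := by
  obtain ⟨n, rfl⟩ := Int.eq_ofNat_of_zero_le he
  rw [zpow_natCast]; exact pow_mem hg n

theorem un_η {a b : M.ι} {V : Vl N} (j : M.J) (ha : M.In a V) (hb : M.In b V) :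
    Un V (M.η a j / M.η b j) := by
  have k : ∀ a b, M.In a V → M.In b V → M.η a j / M.η b j ∈ V := fun a b ha hb => by
    have := sup_mem ha hb (M.S.η_mem a b j)
    rwa [Units.val_div_eq_div_val] at this
  exact ⟨div_ne_zero (M.η_ne _ _) (M.η_ne _ _), k a b ha hb, by rw [inv_div]; exact k b a hb ha⟩

theorem un_mon {a b : M.ι} {V : Vl N} (c : M.J → ℤ) (ha : M.In a V) (hb : M.In b V) :
    Un V (M.mon a c / M.mon b c) := by
  rw [Mod.mon_eq, Mod.mon_eq, ← prod_div_distrib]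
  exact Un.prod _ fun j _ => by rw [← div_zpow]; exact (un_η j ha hb).zpow _

theorem thru_iff {b : M.ι} {V : Vl N} (j : M.J) (hb : M.In b V) :
    M.Thru V j ↔ ¬Un V (M.η b j) :=
  ⟨fun h => h b hb, fun h a ha u => h (by
    have := (un_η j hb ha).mul u
    rwa [div_mul_cancel₀ _ (M.η_ne _ _)] at this)⟩

theorem tr (g : KK N) (a b : M.ι) (c : M.J → ℤ) :
    g * M.mon a c = g * M.mon b c * (M.mon a c / M.mon b c) := by
  rw [mul_assoc, mul_div_cancel₀ _ (M.mon_ne b c)]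

theorem oc_iff {b : M.ι} {V : Vl N} (c : M.J → ℤ) (g : KK N) (hb : M.In b V) :
    M.Oc V c g ↔ g * M.mon b c ∈ V :=
  ⟨fun h => h b hb, fun h a ha => by rw [tr g a b]; exact mul_mem h (un_mon c ha hb).2.1⟩

theorem gen_iff {b : M.ι} {V : Vl N} (c : M.J → ℤ) (g : KK N) (hb : M.In b V) :
    M.Gen V c g ↔ Un V (g * M.mon b c) :=
  ⟨fun h => h b hb, fun h a ha => by rw [tr g a b]; exact h.mul (un_mon c ha hb)⟩

theorem inv_not {b : M.ι} {V : Vl N} {j : M.J} (hb : M.In b V) (hj : M.Thru V j) :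
    (M.η b j)⁻¹ ∉ M.S.A b := fun e => hj b hb ⟨M.η_ne _ _, hb _ (η_mem b j), hb _ e⟩

theorem lab {b : M.ι} {j : M.J} (h : (M.η b j)⁻¹ ∉ M.S.A b) : ∃ l, M.S.lab b j = some l := by
  rcases e : M.S.lab b j with _ | l
  · exact absurd (by rw [Mod.η, M.S.η_none b j e]; simp) h
  · exact ⟨l, rfl⟩

theorem F_one {K : Type} [Field K] (d : DV K) {g : K} (h : g ∈ d.O) (hu : ¬Un d.O g) :
    g ∈ d.F 1 := by
  by_cases h0 : g = 0
  · exact Or.inl h0
  have a := h.resolve_left h0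
  have b : d.v g ≠ 0 := fun e => hu (d.un_O.2 ⟨h0, e⟩)
  exact Or.inr (by omega)

variable (h : M.OK f)
include h

theorem ov {b : M.ι} {V : Vl N} (hb : M.In b V) : Ov V := fun p => hb _ (h.pol b p)

theorem ov_v (j : M.J) : Ov (M.v j).O := (h.ne j).elim fun b hb => ov h (h.dv b j hb).1

theorem v_un {b : M.ι} {V : Vl N} {j : M.J} (hb : M.In b V) (hj : M.Thru V j) :
    ∀ s ∈ M.S.A b, Un V s → (M.v j).v s = 0 := fun s hs u => by
  obtain ⟨h1, -, h3⟩ := h.dv b j (inv_not hb hj)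
  by_contra e
  have := h3 s hs (F_one _ (h1 s hs) fun u' => e ((M.v j).un_O.1 u').2)
  refine not_un_mul (hb _ this) (hb _ (η_mem b j)) (hj b hb) ?_
  rwa [inv_mul_cancel_right₀ (M.η_ne _ _)]

theorem thru_le {V : Vl N} {o : M.J} (hV : V ≤ (M.v o).O) : M.Thru V o := fun b hb u => by
  obtain ⟨a, ha⟩ := h.ne o
  obtain ⟨h1, h2, -⟩ := h.dv a o ha
  have h3 := ((M.v o).un_O.1 (un_η o h1 fun g hg => hV (hb g hg))).2
  have h4 := ((M.v o).un_O.1 (u.mono hV)).2
  rw [DV.div _ (M.η_ne _ _) (M.η_ne _ _)] at h3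
  omega

theorem thru_v (i j : M.J) : M.Thru (M.v i).O j ↔ j = i := by
  refine ⟨fun hj => ?_, fun e => e ▸ thru_le h le_rfl⟩
  by_contra e
  obtain ⟨b, hb⟩ := h.ne i
  obtain ⟨h1, -, h3⟩ := h.dv b i hb
  have h4 := h3 _ (η_mem b j) (F_one _ (h1 _ (η_mem b j)) (hj b h1))
  obtain ⟨l, hl⟩ := lab hb
  obtain ⟨l', hl'⟩ := lab (inv_not h1 hj)
  have ne : l' ≠ l := fun e' => e (M.S.lab_inj b j i l (e' ▸ hl') hl)
  have e1 : M.η b i = M.S.z b l := M.S.η_some b i l hl
  have e2 : M.η b j = M.S.z b l' := M.S.η_some b j l' hl'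
  have e3 : M.S.D b l' (M.η b j * (M.η b i)⁻¹ * M.η b i) = 1 := by
    rw [inv_mul_cancel_right₀ (M.η_ne _ _), e2, M.S.D_z, if_pos rfl]
  have e4 : M.S.D b l' (M.η b i) = 0 := by rw [e1, M.S.D_z, if_neg ne]
  rw [Derivation.leibniz, e4, smul_zero, zero_add, smul_eq_mul] at e3
  exact hb (eq_inv_of_mul_eq_one_right e3 ▸ M.S.D_mem b l' _ h4)

theorem v_mon {b : M.ι} {j : M.J} (c : M.J → ℤ) (hb : M.In b (M.v j).O) :
    (M.v j).v (M.mon b c) = c j := by
  rw [Mod.mon_eq, DV.prod _ _ fun i _ => zpow_ne_zero _ (M.η_ne b i), sum_eq_single j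
    (fun i _ hi => ?_) (by simp), DV.zpow, (h.dv b j (inv_not hb (thru_le h le_rfl))).2.1, mul_one]
  have : Un (M.v j).O (M.η b i) := by
    by_contra e
    exact hi ((thru_v h j i).1 ((thru_iff i hb).2 e))
  rw [DV.zpow, ((M.v j).un_O.1 this).2, mul_zero]

theorem div_pow {b : M.ι} {j : M.J} (hb : M.In b (M.v j).O) (m : ℕ) :
    ∀ g ∈ M.S.A b, g ∈ (M.v j).F m → g * (M.η b j)⁻¹ ^ m ∈ M.S.A b := by
  obtain ⟨-, h2, h3⟩ := h.dv b j (inv_not hb (thru_le h le_rfl))
  induction m with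
  | zero => intro g hg _; simpa using hg
  | succ m ih =>
    intro g hg hF
    rw [pow_succ, ← mul_assoc]
    refine h3 _ (ih g hg ((M.v j).F_anti (by push_cast; omega) hF)) ?_
    have := (M.v j).F_mul hF ((M.v j).mem_F_self ((M.η b j)⁻¹ ^ m))
    rw [DV.pow, DV.inv, h2] at this
    exact (M.v j).F_anti (by push_cast; omega) this

theorem frac {b : M.ι} {j : M.J} (hb : M.In b (M.v j).O) :
    ∀ g ∈ (M.v j).O, Lc (M.S.A b) (M.v j).O g := fun g hg => by
  obtain ⟨q, p, hp, rfl⟩ := IsFractionRing.div_surjective (A := Po N) g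
  have h0 : ip N p ≠ 0 := IsFractionRing.to_map_ne_zero_of_mem_nonZeroDivisors hp
  obtain ⟨m, hm⟩ := Int.eq_ofNat_of_zero_le ((hb _ (h.pol b p)).resolve_left h0)
  have h2 := (h.dv b j (inv_not hb (thru_le h le_rfl))).2.1
  have h1 : (M.η b j)⁻¹ ^ m ≠ 0 := pow_ne_zero _ (inv_ne_zero (M.η_ne _ _))
  have e : ip N p * (ip N q / ip N p) = ip N q := mul_div_cancel₀ _ h0
  refine ⟨_, div_pow h hb m _ (h.pol b p) (Or.inr hm.ge), (M.v j).un_O.2
    ⟨mul_ne_zero h0 h1, by rw [DV.mul _ _ _ h0 h1, DV.pow, DV.inv, h2, hm]; omega⟩, ?_⟩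
  have := (M.v j).F_mul (Or.inr hm.ge : ip N p ∈ (M.v j).F m) hg
  rw [add_zero] at this
  rw [mul_right_comm]
  exact div_pow h hb m _ (e.symm ▸ h.pol b q : ip N p * (ip N q / ip N p) ∈ _) this

end B1x

open B1x

theorem rowBas1 : SBas1 := fun _ _ M h =>
  { ov := fun _ _ => ov h
    ov_v := ov_v h
    η_mem := η_mem
    mon_add := mon_add
    mon_zero := mon_zero
    mon_neg := mon_neg
    mon_nsmul := mon_nsmul
    mon_e := mon_e
    mon_mem := fun b c hc => by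
      rw [Mod.mon_eq]; exact prod_mem fun j _ => zpow_mem (η_mem b j) (hc j)
    un_η := fun _ _ _ => un_η
    un_mon := fun _ _ _ => un_mon
    un_of := fun b V c hb hc => by
      rw [Mod.mon_eq]
      refine Un.prod _ fun j _ => ?_
      by_cases u : Un V (M.η b j)
      · exact u.zpow _
      · rw [hc j ((thru_iff j hb).2 u), zpow_zero]; exact un_one
    mem_of := fun b V c hb hc => by
      rw [Mod.mon_eq]
      refine prod_mem fun j _ => ?_
      by_cases u : Un V (M.η b j)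
      · exact (u.zpow _).2.1
      · exact zpow_mem (hb _ (η_mem b j)) (hc j ((thru_iff j hb).2 u))
    lc := fun a b V ha hb g hg => by
      obtain ⟨u, u1, u2, u3⟩ := M.S.loc b a g hg
      exact ⟨u, u1, ⟨u.ne_zero, hb _ u1, Units.val_inv_eq_inv_val u ▸ sup_mem hb ha u2⟩, u3⟩
    oc_iff := fun _ _ => oc_iff
    gen_iff := fun _ _ => gen_iff
    thru_iff := fun _ _ => thru_iff
    in_v := fun b _ j hb hj =>
      ⟨(h.dv b j (inv_not hb hj)).1, inv_not hb hj, lab (inv_not hb hj), v_un h hb hj⟩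
    thru_le := fun _ _ _ => thru_le h
    thru_v := thru_v h
    v_mon := fun _ _ => v_mon h
    oc_v := fun j c g => by
      obtain ⟨b, hb⟩ := h.cov _ (ov_v h j)
      rw [oc_iff c g hb, DV.mem_O, DV.mem_F, DV.mem_F]
      by_cases h0 : g = 0
      · simp [h0]
      rw [DV.mul _ _ _ h0 (M.mon_ne b c), v_mon h c hb]
      simp only [h0, mul_ne_zero h0 (M.mon_ne b c), false_or]
      omega
    gen_v := fun j c g => by
      obtain ⟨b, hb⟩ := h.cov _ (ov_v h j)
      rw [gen_iff c g hb, DV.un_O]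
      by_cases h0 : g = 0
      · simp [h0]
      rw [DV.mul _ _ _ h0 (M.mon_ne b c), v_mon h c hb]
      simp only [ne_eq, h0, mul_ne_zero h0 (M.mon_ne b c), not_false_iff, true_and]
      omega
    frac := fun _ _ => frac h
    small := fun V o hV g hg => by
      by_cases h0 : g = 0
      · rw [h0]; exact ⟨zero_mem _, not_un_zero⟩
      have : g⁻¹ ∉ V := fun e => by
        have a := (hV e).resolve_left (inv_ne_zero h0)
        have b := hg.resolve_left h0
        rw [DV.inv] at a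
        omega
      exact ⟨(V.mem_or_inv_mem g).resolve_right this, fun u => this u.2.2⟩ }

end Pool.Agent.MP_ee8c61_ag.M3E
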