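import Pool.Agent.MP_ee8c61_ag.M3E.RBda

/-! Row Bd: a curve with positive coefficient is a curve of the lower model. -/

namespace Pool.Agent.MP_ee8c61_ag.M3E

open H59 M3 Finset

namespace RBd

/-- The standing hypotheses. -/
structure Ctx {W M : Mod 3} (D : Dom W M) (o : M.J) (i : W.J) (V : Vl 3) (b : W.ι)
    (i0 i1 i2 : Fin 3) : Prop where
  BW : Bas1 W
  BM : Bas1 M
  RW : Der W
  RM : Der M
  CW : Cv W
  DC : Dc D
  cv : W.IsCv (D.e o) i V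
  hb : W.In b V
  l0 : W.S.lab b (D.e o) = some i0
  l1 : W.S.lab b i = some i1
  n01 : i0 ≠ i1
  n02 : i0 ≠ i2
  n12 : i1 ≠ i2
  adj : ∀ a (l0 l1 l2 : Fin 3), M.In a V → M.S.lab a o = some l0 → l0 ≠ l1 → l0 ≠ l2 → l1 ≠ l2 →
    Un V ((W.S.D b i1 (M.S.z a l1) * W.S.D b i2 (M.S.z a l2) -
      W.S.D b i2 (M.S.z a l1) * W.S.D b i1 (M.S.z a l2)) * M.mon a (M.kk + M.e o) /
        W.mon b (W.kk + W.e (D.e o)))

/-- The relative canonical divisor. -/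
noncomputable def rc {W M : Mod 3} (D : Dom W M) (o : M.J) : W.J → ℤ :=
  W.kk + W.e (D.e o) - D.pb (M.kk + M.e o)

theorem bd_eq {W M : Mod 3} (D : Dom W M) (o : M.J) (B : M.J → ℚ) (i : W.J) :
    D.bd o B i = ∑ j, (D.m i j : ℚ) * B j - (rc D o i : ℚ) := by
  rw [Dom.bd, D.pb_add, ← D.q_pb, rc]
  simp only [Pi.sub_apply, Pi.add_apply, Mod.q_apply, Dom.pb]
  push_cast
  ring

namespace Ctx

variable {W M : Mod 3} {D : Dom W M} {o : M.J} {i : W.J} {V : Vl 3} {b : W.ι} {i0 i1 i2 : Fin 3}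
  (X : Ctx D o i V b i0 i1 i2)

include X

theorem le : V ≤ (M.v o).O := D.v o ▸ X.cv.2.2.1

theorem uV : W.η b i ∈ V := X.hb _ (X.BW.η_mem b i)

theorem uN : ¬Un V (W.η b i) := X.cv.2.2.2.1 b X.hb

theorem inO : W.In b (W.v (D.e o)).O := fun g hg => X.cv.2.2.1 (X.hb g hg)

theorem uO : Un (M.v o).O (W.η b i) := by
  rw [← D.v o]
  by_contra h
  exact X.cv.1 ((X.BW.thru_v _ _).1 ((X.BW.thru_iff b _ i X.inO).2 h))

theorem small : ∀ x ∈ (M.v o).F 1, x ∈ V ∧ ¬Un V x := X.BM.small V o X.le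

theorem od_mon (c : W.J → ℤ) (hc : c (D.e o) = 0) : Od V (W.η b i) (W.mon b c) (c i) := by
  have a := X.BW.un_of b V (c - c i • W.e i) X.hb fun j hj => by
    rcases X.CW.thru _ _ _ j X.cv hj with rfl | rfl
    · simp [Mod.e_apply, hc, X.cv.1.symm]
    · simp [Mod.e_apply]
  rwa [sub_eq_add_neg, X.BW.mon_add, X.BW.mon_neg, X.BW.mon_e, ← div_eq_mul_inv] at a

theorem od_η {a : M.ι} (ha : M.In a V) {j : M.J} (hj : j ≠ o) :
    Od V (W.η b i) (M.η a j) (D.m i j) := by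
  refine (X.od_mon (fun i' => D.m i' j) ?_).of_div (D.mon a b V ha X.hb j)
  have e := X.DC.pb_e ℤ (M.e j) o
  rw [D.pb_e, Mod.e_apply, if_neg hj.symm] at e
  exact e

theorem thru_iff {j : M.J} (hj : j ≠ o) {a : M.ι} (ha : M.In a V) :
    M.Thru V j ↔ D.m i j ≠ 0 := by
  rw [X.BM.thru_iff a V j ha, (X.od_η ha hj).un_iff (W.η_ne b i) X.uV X.uN]
  simp

theorem dF {l : Fin 3} (hl : l ≠ i0) : ∀ x ∈ (M.v o).F 1, W.S.D b l x ∈ (M.v o).F 1 := by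
  intro x hx
  rw [← D.v o] at hx ⊢
  have a := X.RW.ord b _ i0 X.inO X.l0 l 1 x hx
  rwa [if_neg hl, sub_zero] at a

theorem ex_od {g : KK 3} (h : Un (M.v o).O g) : ∃ e, Od V (W.η b i) g e ∧
    W.S.D b i1 g / W.η b i ^ (e - 1) ∈ V ∧ W.S.D b i2 g / W.η b i ^ e ∈ V := by
  obtain ⟨h0, h1⟩ := (M.v o).un_O.1 h
  obtain ⟨e, s, hs, s', hs', us, us', h3⟩ :=
    X.CW.dvr _ _ V b X.cv X.hb g h0 (by rw [D.v o]; exact h1)
  rw [D.v o] at h3
  have hu : W.η b i = W.S.z b i1 := W.S.η_some b i i1 X.l1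
  refine ⟨e, od_of _ X.small X.uO us us' h3, ?_, ?_⟩
  · refine (der_bound _ X.small X.uO X.uV us us' h3 _ (X.dF X.n01.symm)
      (X.hb _ (W.S.D_mem b i1 s hs)) (X.hb _ (W.S.D_mem b i1 s' hs'))).1 ?_
    exact X.hb _ (W.S.D_mem b i1 _ (X.BW.η_mem b i))
  · refine (der_bound _ X.small X.uO X.uV us us' h3 _ (X.dF X.n02.symm)
      (X.hb _ (W.S.D_mem b i2 s hs)) (X.hb _ (W.S.D_mem b i2 s' hs'))).2 ?_
    rw [hu, W.S.D_z, if_neg X.n12.symm]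

theorem der {g : KK 3} {e : ℤ} (h : Od V (W.η b i) g e) :
    W.S.D b i1 g / W.η b i ^ (e - 1) ∈ V ∧ W.S.D b i2 g / W.η b i ^ e ∈ V := by
  obtain ⟨e', h1, h2⟩ := X.ex_od (h.un_of X.le X.uO)
  rwa [h.uniq (W.η_ne b i) X.uV X.uN h1]

theorem qV {a : M.ι} (ha : M.In a V) (k l : Fin 3) : W.S.D b k (M.S.z a l) ∈ V :=
  (X.RW.lc b V k _ (X.DC.lc a b V ha X.hb _ (M.S.z_mem a l))).mem' X.hb

theorem od_J {a : M.ι} {l0 l1 l2 : Fin 3} (ha : M.In a V) (h0 : M.S.lab a o = some l0)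
    (m1 : l0 ≠ l1) (m2 : l0 ≠ l2) (m3 : l1 ≠ l2) :
    Od V (W.η b i) (W.S.D b i1 (M.S.z a l1) * W.S.D b i2 (M.S.z a l2) -
      W.S.D b i2 (M.S.z a l1) * W.S.D b i1 (M.S.z a l2)) (rc D o i) := by
  have haO : M.In a (M.v o).O := fun g hg => X.le (ha g hg)
  have u1 : Un V ((W.S.D b i1 (M.S.z a l1) * W.S.D b i2 (M.S.z a l2) -
      W.S.D b i2 (M.S.z a l1) * W.S.D b i1 (M.S.z a l2)) / W.mon b (rc D o)) := by
    have c := (X.adj a l0 l1 l2 ha h0 m1 m2 m3).div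
      (X.DC.un_mon a b V (M.kk + M.e o) ha X.hb)
    refine (congrArg (Un V) ?_).mp c
    have n1 := M.mon_ne a (M.kk + M.e o)
    have n2 := W.mon_ne b (W.kk + W.e (D.e o))
    have n3 := W.mon_ne b (D.pb (M.kk + M.e o))
    rw [rc, sub_eq_add_neg (W.kk + W.e (D.e o)), X.BW.mon_add b _ (-_), X.BW.mon_neg]
    field_simp
  have p : ∀ l, l ≠ l0 → ∀ m, ∀ g ∈ (M.v o).F m, M.S.D a l g ∈ (M.v o).F m := fun l hl m g hg => by
    have c := X.RM.ord a o l0 haO h0 l m g hg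
    rwa [if_neg hl, sub_zero] at c
  have pO : ∀ l, l ≠ l0 → ∀ k, M.S.D a l (W.S.z b k) ∈ (M.v o).O := fun l hl k =>
    p l hl 0 _ (X.le (X.hb _ (W.S.z_mem b k)))
  have z0 : W.S.z b i0 ∈ (M.v o).F 1 := by
    have c := X.BW.v_mon b (D.e o) ((1 : ℤ) • W.e (D.e o)) X.inO
    rw [X.BW.mon_e, zpow_one, D.v o] at c
    rw [← W.S.η_some b _ i0 X.l0]
    exact Or.inr (c.trans (by simp [Mod.e_apply])).ge
  have ch : ∀ l l', M.S.D a l (M.S.z a l') = _ := fun l l' =>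
    (X.RW.chain (M.S.D a l) b (M.S.z a l')).trans (sum3 X.n01 X.n02 X.n12 _)
  have c11 := ch l1 l1
  have c12 := ch l1 l2
  have c21 := ch l2 l1
  have c22 := ch l2 l2
  rw [M.S.D_z] at c11 c12 c21 c22
  rw [if_pos rfl] at c11 c22
  rw [if_neg m3] at c12
  rw [if_neg m3.symm] at c21
  have s1 := (M.v o).F_mul (p l1 m1.symm 1 _ z0) (X.le (X.qV ha i0 l1))
  have s2 := (M.v o).F_mul (p l2 m2.symm 1 _ z0) (X.le (X.qV ha i0 l2))
  obtain ⟨t1, t2⟩ := X.BM.small _ o le_rfl _ (neg_mem (add_mem s1 s2))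
  have u2 := un_one.add t1 t2
  have e1 : 1 + -(M.S.D a l1 (W.S.z b i0) * W.S.D b i0 (M.S.z a l1) +
      M.S.D a l2 (W.S.z b i0) * W.S.D b i0 (M.S.z a l2)) =
      (W.S.D b i1 (M.S.z a l1) * W.S.D b i2 (M.S.z a l2) -
        W.S.D b i2 (M.S.z a l1) * W.S.D b i1 (M.S.z a l2)) *
      (M.S.D a l1 (W.S.z b i1) * M.S.D a l2 (W.S.z b i2) -
        M.S.D a l1 (W.S.z b i2) * M.S.D a l2 (W.S.z b i1)) := by
    linear_combination (1 - M.S.D a l2 (W.S.z b i0) * W.S.D b i0 (M.S.z a l2)) * c11 +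
      (M.S.D a l1 (W.S.z b i1) * W.S.D b i1 (M.S.z a l1) +
        M.S.D a l1 (W.S.z b i2) * W.S.D b i2 (M.S.z a l1)) * c22 +
      (M.S.D a l2 (W.S.z b i0) * W.S.D b i0 (M.S.z a l1)) * c12 -
      (M.S.D a l1 (W.S.z b i1) * W.S.D b i1 (M.S.z a l2) +
        M.S.D a l1 (W.S.z b i2) * W.S.D b i2 (M.S.z a l2)) * c21
  rw [e1] at u2
  have u3 := u2.of_mul
    (X.le (sub_mem (mul_mem (X.qV ha _ _) (X.qV ha _ _)) (mul_mem (X.qV ha _ _) (X.qV ha _ _))))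
    (sub_mem (mul_mem (pO _ m1.symm _) (pO _ m2.symm _)) (mul_mem (pO _ m1.symm _) (pO _ m2.symm _)))
  have u4 := u3.div (u1.mono X.le)
  rw [div_div_cancel₀ u3.1, ← D.v o] at u4
  have u5 := ((W.v (D.e o)).un_O.1 u4).2
  rw [X.BW.v_mon b _ _ X.inO] at u5
  exact (X.od_mon _ u5).of_div u1

theorem bound {a : M.ι} {l0 l1 l2 : Fin 3} (ha : M.In a V) (h0 : M.S.lab a o = some l0)
    (m1 : l0 ≠ l1) (m2 : l0 ≠ l2) (m3 : l1 ≠ l2) {o1 o2 : ℤ} (c : ℂ)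
    (h1 : Od V (W.η b i) (M.S.z a l1) o1)
    (h2 : Od V (W.η b i) (M.S.z a l2 - algebraMap ℂ _ c) o2) : o1 + o2 - 1 ≤ rc D o i := by
  refine (X.od_J ha h0 m1 m2 m3).le (W.η_ne b i) X.uV X.uN ?_
  obtain ⟨a1, a2⟩ := X.der h1
  obtain ⟨a3, a4⟩ := X.der h2
  rw [map_sub, Derivation.map_algebraMap, sub_zero] at a3 a4
  have n := W.η_ne b i
  refine (congrArg (fun x => x ∈ V) ?_).mp (sub_mem (mul_mem a1 a4) (mul_mem a2 a3))
  rw [div_mul_div_comm, div_mul_div_comm, ← zpow_add₀ n, ← zpow_add₀ n, sub_div,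
    show o1 - 1 + o2 = o1 + o2 - 1 by ring, show o1 + (o2 - 1) = o1 + o2 - 1 by ring]

theorem labo {a : M.ι} (ha : M.In a V) {j : M.J} (hj : M.Thru V j) :
    ∃ l, M.S.lab a j = some l := (X.BM.in_v a V j ha hj).2.2.1

theorem thru_o : M.Thru V o := X.BM.thru_le V o X.cv.2.1 X.le

theorem od_y {a : M.ι} {l0 l2 : Fin 3} (ha : M.In a V) (h0 : M.S.lab a o = some l0)
    (m2 : l0 ≠ l2) (c : ℂ) (hn : ¬Un V (M.S.z a l2 - algebraMap ℂ _ c)) :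
    ∃ e, 1 ≤ e ∧ Od V (W.η b i) (M.S.z a l2 - algebraMap ℂ _ c) e := by
  have haO : M.In a (M.v o).O := fun g hg => X.le (ha g hg)
  have yV := ha _ (sub_mem (M.S.z_mem a l2) ((M.S.A a).algebraMap_mem c))
  have nF : M.S.z a l2 - algebraMap ℂ _ c ∉ (M.v o).F 1 := fun hF => by
    have c1 := X.RM.ord a o l0 haO h0 l2 1 _ hF
    rw [if_neg m2.symm, sub_zero, map_sub, Derivation.map_algebraMap, sub_zero, M.S.D_z,
      if_pos rfl] at c1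
    exact (X.small _ c1).2 un_one
  have y0 : M.S.z a l2 - algebraMap ℂ _ c ≠ 0 := fun e => nF (Or.inl e)
  have v0 := ((M.v o).mem_O.1 (X.le yV)).resolve_left y0
  obtain ⟨e, he, -⟩ := X.ex_od ((M.v o).un_O.2
    ⟨y0, by_contra fun e => nF (Or.inr (by omega))⟩)
  have e0 := he.nonneg (W.η_ne b i) X.uV X.uN yV
  have e1 := mt (he.un_iff (W.η_ne b i) X.uV X.uN).2 hn
  exact ⟨e, by omega, he⟩

end Ctx

end RBd

open RBd in
theorem rowBd : OfBd := by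
  intro hU hB hD hC hDc hA f W M D hW hM o B i V B0 B1 Bo can cv pos
  have BW := hB 3 f W hW
  have BM := hB 3 f M hM
  have CM := hC 3 f M hM
  obtain ⟨b, hb⟩ := hW.cov V cv.2.1
  obtain ⟨i0, k0⟩ := (BW.in_v b V _ hb (BW.thru_le V _ cv.2.1 cv.2.2.1)).2.2.1
  obtain ⟨i1, k1⟩ := (BW.in_v b V _ hb cv.2.2.2.1).2.2.1
  have n01 : i0 ≠ i1 := fun e => cv.1 (W.S.lab_inj b _ _ i1 k1 (e ▸ k0))
  obtain ⟨i2, n02, n12⟩ := third i0 i1 n01
  have X : Ctx D o i V b i0 i1 i2 :=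
    ⟨BW.toBas1, BM.toBas1, hD 3 f W hW, hD 3 f M hM, hC 3 f W hW, hDc 3 f W M D hW hM, cv, hb, k0,
      k1, n01, n02, n12, fun a l0 l1 l2 ha h0 m1 m2 m3 =>
        hA f W M D hW hM o a b V l0 l1 l2 i0 i1 i2 ha hb (D.v o ▸ cv.2.2.1) h0 k0 m1 m2 m3
          n01 n02 n12⟩
  have u0 := W.η_ne b i
  obtain ⟨a, ha⟩ := hM.cov V cv.2.1
  obtain ⟨l0, h0⟩ := X.labo ha X.thru_o
  have al0 : 0 ≤ rc D o i := by
    obtain ⟨l1, m1⟩ := exists_ne l0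
    obtain ⟨l2, m2, m3⟩ := third l0 l1 m1.symm
    exact (X.od_J ha h0 m1.symm m2 m3).nonneg u0 X.uV X.uN
      (sub_mem (mul_mem (X.qV ha _ _) (X.qV ha _ _)) (mul_mem (X.qV ha _ _) (X.qV ha _ _)))
  have al0' : (0 : ℚ) ≤ rc D o i := by exact_mod_cast al0
  rw [bd_eq] at pos ⊢
  obtain ⟨j, -, hj⟩ := exists_ne_zero_of_sum_ne_zero
    (show ∑ j, (D.m i j : ℚ) * B j ≠ 0 from fun e => by rw [e] at pos; linarith)
  have jo : j ≠ o := fun e => hj (by rw [e, Bo, mul_zero])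
  have mj : D.m i j ≠ 0 := fun e => hj (by rw [e, Nat.cast_zero, zero_mul])
  have tj : M.Thru V j := (X.thru_iff jo ha).2 mj
  have mj1 : (1 : ℚ) ≤ D.m i j := by exact_mod_cast Nat.one_le_iff_ne_zero.2 mj
  have only : ∀ j', j' ≠ o → j' ≠ j → D.m i j' = 0 := by
    intro j2 j2o j2j
    by_contra m2
    have t2 : M.Thru V j2 := (X.thru_iff j2o ha).2 m2
    obtain ⟨l1, h1⟩ := X.labo ha tj
    obtain ⟨l2, h2⟩ := X.labo ha t2
    have q1 : l0 ≠ l1 := fun e => jo (M.S.lab_inj a _ _ l1 h1 (e ▸ h0))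
    have q2 : l0 ≠ l2 := fun e => j2o (M.S.lab_inj a _ _ l2 h2 (e ▸ h0))
    have q3 : l1 ≠ l2 := fun e => j2j (M.S.lab_inj a _ _ l2 h2 (e ▸ h1))
    have o1 := X.od_η ha jo
    have o2 := X.od_η ha j2o
    rw [show M.η a j = M.S.z a l1 from M.S.η_some a j l1 h1] at o1
    rw [show M.η a j2 = M.S.z a l2 from M.S.η_some a j2 l2 h2] at o2
    have bd := X.bound ha h0 q1 q2 q3 0 o1 (by rwa [map_zero, sub_zero])
    have bd' : (D.m i j : ℚ) + D.m i j2 - 1 ≤ rc D o i := by exact_mod_cast bd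
    have e : ∑ j', (D.m i j' : ℚ) * B j' = D.m i j * B j + D.m i j2 * B j2 := by
      refine sum_eq_add_of_mem j j2 (mem_univ _) (mem_univ _) j2j.symm fun j' _ hj' => ?_
      by_cases c0 : j' = o
      · rw [c0, Bo, mul_zero]
      by_cases c1 : D.m i j' = 0
      · rw [c1, Nat.cast_zero, zero_mul]
      obtain ⟨l, hl⟩ := X.labo ha ((X.thru_iff c0 ha).2 c1)
      rcases all3 l0 l1 l2 q1 q2 q3 l with rfl | rfl | rfl
      · exact absurd (M.S.lab_inj a _ _ _ hl h0) c0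
      · exact absurd (M.S.lab_inj a _ _ _ hl h1) hj'.1
      · exact absurd (M.S.lab_inj a _ _ _ hl h2) hj'.2
    have c := can j j2 V cv.2.1 X.le j2j.symm jo j2o tj t2
    have m21 : (1 : ℚ) ≤ D.m i j2 := by exact_mod_cast Nat.one_le_iff_ne_zero.2 m2
    rw [e] at pos
    nlinarith [mul_nonneg (sub_nonneg.2 mj1) (sub_nonneg.2 (B1 j)),
      mul_nonneg (sub_nonneg.2 m21) (sub_nonneg.2 (B1 j2))]
  have e : ∑ j', (D.m i j' : ℚ) * B j' = D.m i j * B j := by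
    refine sum_eq_single j (fun j' _ hj' => ?_) fun h => absurd (mem_univ j) h
    by_cases c0 : j' = o
    · rw [c0, Bo, mul_zero]
    · rw [only j' c0 hj', Nat.cast_zero, zero_mul]
  rw [e] at pos ⊢
  have cm : M.IsCv o j V := by
    refine ⟨jo, cv.2.1, X.le, tj, fun a' ha' g hg hn => ?_⟩
    obtain ⟨l0', h0'⟩ := X.labo ha' X.thru_o
    obtain ⟨l1, h1⟩ := X.labo ha' tj
    have q1 : l0' ≠ l1 := fun e => jo (M.S.lab_inj a' _ _ l1 h1 (e ▸ h0'))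
    obtain ⟨l2, q2, q3⟩ := third l0' l1 q1
    have z0 : M.η a' o = M.S.z a' l0' := M.S.η_some a' o l0' h0'
    have z1 : M.η a' j = M.S.z a' l1 := M.S.η_some a' j l1 h1
    rw [z0, z1]
    rcases dich hU (M.S.A a') (M.S.z a') (M.S.z_mem a') (hM.et a') ha' (all3 l0' l1 l2 q1 q2 q3)
      (z0 ▸ X.thru_o a' ha') (z1 ▸ tj a' ha') hg hn with ⟨c, hc⟩ | h
    · obtain ⟨e2, e21, o2⟩ := X.od_y ha' h0' q2 c hc
      have bd := X.bound ha' h0' q1 q2 q3 c (z1 ▸ X.od_η ha' jo) o2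
      have bd' : (D.m i j : ℚ) ≤ rc D o i := by
        exact_mod_cast (by omega : (D.m i j : ℤ) ≤ rc D o i)
      nlinarith [mul_nonneg (zero_le_one.trans mj1) (sub_nonneg.2 (B1 j))]
    · exact h
  obtain ⟨e1, he1, -⟩ := CM.un o j V a cm ha _ u0 ((M.v o).un_O.1 X.uO).2
  have m1 : D.m i j = 1 := (X.od_η ha jo).one u0 X.uV X.uN he1
  refine ⟨j, cm, ?_, fun j' hj' => ?_⟩
  · rw [m1, Nat.cast_one, one_mul]
    linarith
  · by_cases c : j' = j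
    · rw [if_pos c, c, m1]
    · rw [if_neg c, only j' hj' c]

end Pool.Agent.MP_ee8c61_ag.M3E
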