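import Pool.Agent.MP_ee8c61_ag.M3E.Spec

/-! Adjunction in dimension three. -/

namespace Pool.Agent.MP_ee8c61_ag.M3E

open H59 M3

namespace RAdj

theorem perm3 {i0 i1 i2 : Fin 3} (h1 : i0 ≠ i1) (h2 : i0 ≠ i2) (h3 : i1 ≠ i2) :
    (i0 = 0 ∧ i1 = 1 ∧ i2 = 2) ∨ (i0 = 0 ∧ i1 = 2 ∧ i2 = 1) ∨ (i0 = 1 ∧ i1 = 0 ∧ i2 = 2) ∨
    (i0 = 1 ∧ i1 = 2 ∧ i2 = 0) ∨ (i0 = 2 ∧ i1 = 0 ∧ i2 = 1) ∨ (i0 = 2 ∧ i1 = 1 ∧ i2 = 0) := by
  revert i0 i1 i2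
  decide

theorem det_exp {K : Type} [CommRing K] (x : Fin 3 → Fin 3 → K) {i0 i1 i2 l0 l1 l2 : Fin 3}
    (h1 : i0 ≠ i1) (h2 : i0 ≠ i2) (h3 : i1 ≠ i2) (k1 : l0 ≠ l1) (k2 : l0 ≠ l2) (k3 : l1 ≠ l2) :
    ∃ ε : K, (ε = 1 ∨ ε = -1) ∧ ε * (Matrix.of x).det =
      x i0 l0 * (x i1 l1 * x i2 l2 - x i2 l1 * x i1 l2) -
      x i1 l0 * (x i0 l1 * x i2 l2 - x i2 l1 * x i0 l2) +
      x i2 l0 * (x i0 l1 * x i1 l2 - x i1 l1 * x i0 l2) := by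
  rw [Matrix.det_fin_three]
  simp only [Matrix.of_apply]
  rcases perm3 h1 h2 h3 with h | h | h | h | h | h <;> obtain ⟨rfl, rfl, rfl⟩ := h <;>
    rcases perm3 k1 k2 k3 with h | h | h | h | h | h <;> obtain ⟨rfl, rfl, rfl⟩ := h <;>
    first
      | exact ⟨1, Or.inl rfl, by ring1⟩
      | exact ⟨-1, Or.inr rfl, by ring1⟩

end RAdj

open RAdj

theorem rowAdj : OfAdj := by
  intro hB hD _ hJ f W M D hW hM o a b V l0 l1 l2 i0 i1 i2 ha hb hV hl hi k1 k2 k3 h1 h2 h3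
  have BM := hB 3 f M hM
  have BW := hB 3 f W hW
  have DW := hD 3 f W hW
  obtain ⟨J1, J2⟩ := hJ 3 f W M D hW hM
  have hv : W.v (D.e o) = M.v o := D.v o
  set d := M.v o with hd
  have ha' : M.In a d.O := fun g hg => hV (ha g hg)
  have hb' : W.In b d.O := fun g hg => hV (hb g hg)
  have hb'' : W.In b (W.v (D.e o)).O := hv ▸ hb'
  have mz : M.mon a (M.e o) = M.S.z a l0 := by
    have := BM.mon_e a o 1
    rw [one_smul, zpow_one] at this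
    exact this.trans (M.S.η_some a o l0 hl)
  have mu : W.mon b (W.e (D.e o)) = W.S.z b i0 := by
    have := BW.mon_e b (D.e o) 1
    rw [one_smul, zpow_one] at this
    exact this.trans (W.S.η_some b _ i0 hi)
  have vz : d.v (M.S.z a l0) = 1 := by
    rw [← mz, BM.v_mon a o _ ha', M.e_apply, if_pos rfl]
  have vu : d.v (W.S.z b i0) = 1 := by
    rw [← mu, ← hv, BW.v_mon b _ _ hb'', W.e_apply, if_pos rfl]
  have nz : M.S.z a l0 ≠ 0 := mz ▸ M.mon_ne a _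
  have nu : W.S.z b i0 ≠ 0 := mu ▸ W.mon_ne b _
  have keep : ∀ i, ∀ g ∈ d.F 0, W.S.D b i g ∈ d.F 0 := fun i g hg => by
    have := (DW.lc b _ i g (BW.frac b _ hb'' g (hv ▸ hg))).mem' hb''
    rwa [hv] at this
  have x0 : ∀ i l, W.S.D b i (M.S.z a l) ∈ d.F 0 := fun i l =>
    keep i _ (ha' _ (M.S.z_mem a l))
  have x1 : ∀ i, i0 ≠ i → W.S.D b i (M.S.z a l0) ∈ d.F 1 := fun i h => by
    have := DW.ord b _ i0 hb'' hi i 1 (M.S.z a l0) (hv ▸ Or.inr vz.ge)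
    rwa [if_neg (Ne.symm h), sub_zero, hv] at this
  have m00 : ∀ {g h}, g ∈ d.F 0 → h ∈ d.F 0 → g * h ∈ d.F 0 := fun hg hh => by
    simpa using d.F_mul hg hh
  have m10 : ∀ {g h}, g ∈ d.F 1 → h ∈ d.F 0 → g * h ∈ d.F 1 := fun hg hh => by
    simpa using d.F_mul hg hh
  have minor : ∀ i j, W.S.D b i (M.S.z a l1) * W.S.D b j (M.S.z a l2) -
      W.S.D b j (M.S.z a l1) * W.S.D b i (M.S.z a l2) ∈ d.F 0 := fun i j =>
    sub_mem (m00 (x0 _ _) (x0 _ _)) (m00 (x0 _ _) (x0 _ _))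
  set y := M.S.z a l0 / W.S.z b i0 with hy
  have y0 : y ∈ d.F 0 := Or.inr (by rw [hy, d.div nz nu, vz, vu]; rfl)
  have dz : W.S.D b i0 (M.S.z a l0) = y + W.S.z b i0 * W.S.D b i0 y := by
    have : M.S.z a l0 = W.S.z b i0 * y := by rw [hy, mul_div_cancel₀ _ nu]
    conv_lhs => rw [this]
    rw [Derivation.leibniz, W.S.D_z, if_pos rfl, smul_eq_mul, smul_eq_mul, mul_one, add_comm]
  obtain ⟨ε, hε, he⟩ := det_exp (fun i l => W.S.D b i (M.S.z a l)) h1 h2 h3 k1 k2 k3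
  set Q := M.mon a M.kk / W.mon b W.kk with hQ
  have Q0 : Q ∈ d.F 0 := Or.inr (by
    rw [hQ, d.div (M.mon_ne _ _) (W.mon_ne _ _), BM.v_mon a o _ ha', ← hv, BW.v_mon b _ _ hb'']
    simp [Mod.kk, J2])
  have U1 := J1 a b V ha hb
  rw [mul_div_assoc, ← hQ] at U1
  have U2 : Un V (ε * ((Matrix.of fun i l => W.S.D b i (M.S.z a l)).det * Q)) := by
    rcases hε with rfl | rfl
    · rwa [one_mul]
    · rw [neg_one_mul]; exact U1.neg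
  rw [← mul_assoc, he] at U2
  have r1 := m10 (neg_mem (add_mem (sub_mem
    (m10 (m10 (g := W.S.z b i0) (Or.inr vu.ge) (keep i0 y y0)) (minor i1 i2))
    (m10 (x1 i1 h1) (minor i0 i2))) (m10 (x1 i2 h2) (minor i0 i1)))) Q0
  obtain ⟨s1, s2⟩ := BM.small V o hV _ r1
  have U3 := U2.add s1 s2
  have e : (W.S.D b i1 (M.S.z a l1) * W.S.D b i2 (M.S.z a l2) -
      W.S.D b i2 (M.S.z a l1) * W.S.D b i1 (M.S.z a l2)) * M.mon a (M.kk + M.e o) /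
      W.mon b (W.kk + W.e (D.e o)) = y * (W.S.D b i1 (M.S.z a l1) * W.S.D b i2 (M.S.z a l2) -
      W.S.D b i2 (M.S.z a l1) * W.S.D b i1 (M.S.z a l2)) * Q := by
    rw [BM.mon_add, BW.mon_add, mz, mu, hy, hQ]
    have := W.mon_ne b W.kk
    field_simp
  rw [e]
  refine (congrArg (Un V) ?_).mp U3
  rw [dz]
  ring

end Pool.Agent.MP_ee8c61_ag.M3E
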