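import Pool.Agent.MP_ee8c61_ag.M3E.Spec

/-! A large multiple of an ample divisor plus any divisor is ample. -/

namespace Pool.Agent.MP_ee8c61_ag.M3E

open H59 M3

theorem rowA1 : OfA1 := by
  intro hB hC N f M hM w u ⟨κ, _, b, t, ρ, h⟩
  have B := hB N f M hM
  have hg : ∀ i V, Ov V → M.Gen V w (ρ i) → M.Gen V u (M.mon (b i) (-u)) := fun i V hV e => by
    rw [B.gen_iff _ _ _ _ ((h.gen i V hV).1 e).1, ← B.mon_add, neg_add_cancel, B.mon_zero]
    exact un_one
  choose e0 he using fun i => hC N f M hM κ w b t ρ h i u (M.mon (b i) (-u))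
    fun V hV e => B.gen_oc _ _ _ (hg i V hV e)
  refine ⟨Finset.univ.sup e0 + 1, fun r hr => ?_⟩
  obtain ⟨e, rfl⟩ : ∃ e, r = e + 1 := ⟨r - 1, by omega⟩
  have hle : ∀ i, e0 i ≤ e := fun i =>
    (Finset.le_sup (f := e0) (Finset.mem_univ i)).trans (by omega)
  have key : ∀ i V, Ov V → (M.Gen V ((e + 1) • w + u) (ρ i ^ (e + 1) * M.mon (b i) (-u)) ↔
      M.Gen V w (ρ i)) := fun i V hV => by
    refine ⟨fun H => B.gen_of_mul V w (e • w + u) _ _ (h.sec i V hV) (he i e (hle i) V hV) ?_,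
      fun H => B.gen_mul _ _ _ _ _ (B.gen_pow _ _ _ _ H) (hg i V hV H)⟩
    rwa [← mul_assoc, ← pow_succ', ← add_assoc, ← succ_nsmul']
  exact ⟨κ, inferInstance, b, t, fun i => ρ i ^ (e + 1) * M.mon (b i) (-u), h.mem, h.ne,
    fun i => he i _ ((hle i).trans e.le_succ),
    fun V hV => (h.cov V hV).imp fun i H => (key i V hV).2 H,
    fun i V hV => (key i V hV).trans (h.gen i V hV)⟩

end Pool.Agent.MP_ee8c61_ag.M3E
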