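import Pool.Agent.MP_ee8c61_ag.M3E.Spec

/-!
The sum of an ample divisor and a free divisor is ample.
-/

namespace Pool.Agent.MP_ee8c61_ag.M3E

open H59 M3

theorem rowA3 : OfA3 := by
  classical
  intro hB hN N f M hM w c ⟨κ, _, b, t, ρ, hA⟩ ⟨T, hT1, hT2⟩
  have B := hB N f M hM
  have Nn := hN N f M hM
  have hT : ∀ m : T.erase 0, (m : KK N) ≠ 0 ∧ (m : KK N) ∈ M.H c := fun m =>
    ⟨(Finset.mem_erase.1 m.2).1, hT1 _ (Finset.mem_erase.1 m.2).2⟩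
  refine ⟨κ × T.erase 0, inferInstance, fun p => b p.1,
    fun p => t p.1 * (p.2 * M.mon (b p.1) c), fun p => ρ p.1 * p.2, ?_, ?_, ?_, ?_, ?_⟩
  · exact fun p => mul_mem (hA.mem p.1) ((Nn.H c _).1 (hT p.2).2 _)
  · exact fun p => mul_ne_zero (hA.ne p.1) (mul_ne_zero (hT p.2).1 (M.mon_ne _ _))
  · exact fun p V hV => B.oc_mul V w c _ _ (hA.sec p.1 V hV) ((hT p.2).2 V hV)
  · intro V hV
    obtain ⟨i, hi⟩ := hA.cov V hV
    obtain ⟨g, hg, hg'⟩ := hT2 V hV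
    obtain ⟨a, ha⟩ := hM.cov V hV
    have h0 : g ≠ 0 := left_ne_zero_of_mul (hg' a ha).1
    exact ⟨(i, ⟨g, Finset.mem_erase.2 ⟨h0, hg⟩⟩), B.gen_mul V w c _ _ hi hg'⟩
  · rintro ⟨i, m⟩ V hV
    have h1 := hA.sec i V hV
    have h2 := (hT m).2 V hV
    constructor
    · intro h
      have h3 : M.Gen V w (ρ i) := B.gen_of_mul V w c _ _ h1 h2 h
      have h4 : M.Gen V c m := B.gen_of_mul V c w _ _ h2 h1 (by
        rw [add_comm, mul_comm]; exact h)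
      obtain ⟨h5, h6⟩ := (hA.gen i V hV).1 h3
      refine ⟨h5, ?_⟩
      show (t i * (m * M.mon (b i) c))⁻¹ ∈ V
      rw [mul_inv]
      exact mul_mem h6 (h4 _ h5).2.2
    · rintro ⟨h5, h6⟩
      have h7 : t i ∈ V := h5 _ (hA.mem i)
      have h8 : (m : KK N) * M.mon (b i) c ∈ V := h2 _ h5
      have h9 : Un V (t i * (m * M.mon (b i) c)) :=
        ⟨mul_ne_zero (hA.ne i) (mul_ne_zero (hT m).1 (M.mon_ne _ _)), mul_mem h7 h8, h6⟩
      have h10 : Un V ((m : KK N) * M.mon (b i) c) :=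
        Un.of_mul (by rw [mul_comm]; exact h9) h8 h7
      exact B.gen_mul V w c _ _ ((hA.gen i V hV).2 ⟨h5, (h9.of_mul h7 h8).2.2⟩)
        ((B.gen_iff (b i) V c m h5).2 h10)

end Pool.Agent.MP_ee8c61_ag.M3E
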