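import Pool.Agent.MP_ee8c61_ag.M3E.Spec

/-! Row Ce: a curve on a divisor through a given point. -/

namespace Pool.Agent.MP_ee8c61_ag.M3E

open H59 M3

namespace RCe

section Gen

variable {K : Type} [Field K] [Algebra ℂ K] {A : Subalgebra ℂ K}

/-- The centre of `V` in `A`. -/
def cen (V : ValuationSubring K) (hA : ∀ g ∈ A, g ∈ V) : Ideal A where
  carrier := {g | ¬Un V (g : K)}
  add_mem' := fun {a b} ha hb => not_un_add (hA _ a.2) (hA _ b.2) ha hb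
  zero_mem' := not_un_zero
  smul_mem' := fun c x hx => not_un_mul (hA _ c.2) (hA _ x.2) hx

theorem cen_prime (V : ValuationSubring K) (hA : ∀ g ∈ A, g ∈ V) : (cen V hA).IsPrime where
  ne_top' := fun e => ((Ideal.eq_top_iff_one _).1 e) un_one
  mem_or_mem' := fun {a b} h => by
    by_contra h2
    rw [not_or] at h2
    exact h (Un.mul (not_not.1 h2.1) (not_not.1 h2.2))

/-- `x` is congruent to a fraction with numerator in `J` and denominator outside `Q`. -/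
def Rel (d : DV K) (Q J : Ideal A) (x : K) : Prop :=
  ∃ s : A, s ∉ Q ∧ ∃ g ∈ J, (s : K) * x - g ∈ d.F 1

variable {d : DV K} {Q J : Ideal A} {x y : K}

theorem Rel.of_mem (hQ : Q.IsPrime) {g : A} (hg : g ∈ J) : Rel d Q J g :=
  ⟨1, (Ideal.ne_top_iff_one _).1 hQ.ne_top, g, hg, by simp⟩

theorem Rel.add (hQ : Q.IsPrime) (hA : ∀ g ∈ A, g ∈ d.F 0) (h1 : Rel d Q J x) (h2 : Rel d Q J y) :
    Rel d Q J (x + y) := by
  obtain ⟨s, hs, g, hg, e⟩ := h1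
  obtain ⟨s', hs', g', hg', e'⟩ := h2
  refine ⟨s * s', fun h => (hQ.mem_or_mem h).elim hs hs', s' * g + s * g',
    add_mem (J.mul_mem_left _ hg) (J.mul_mem_left _ hg'), ?_⟩
  have := add_mem (d.F_mul (hA _ s'.2) e) (d.F_mul (hA _ s.2) e')
  rw [zero_add] at this
  push_cast
  rwa [show (s : K) * s' * (x + y) - (s' * g + s * g') =
    s' * (s * x - g) + s * (s' * y - g') by ring]

theorem Rel.mul (hQ : Q.IsPrime) (hA : ∀ g ∈ A, g ∈ d.F 0) (h1 : Rel d Q ⊤ x) (h2 : Rel d Q J y) :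
    Rel d Q J (x * y) := by
  obtain ⟨s, hs, g, -, e⟩ := h1
  obtain ⟨s', hs', g', hg', e'⟩ := h2
  refine ⟨s * s', fun h => (hQ.mem_or_mem h).elim hs hs', g * g', J.mul_mem_left _ hg', ?_⟩
  have a : (s' : K) * y ∈ d.F 0 := by
    have := add_mem (d.F_anti zero_le_one e') (hA _ g'.2)
    rwa [sub_add_cancel] at this
  have := add_mem (d.F_mul e a) (d.F_mul (hA _ g.2) e' : _ ∈ d.F (0 + 1))
  push_cast
  rwa [show (s : K) * s' * (x * y) - g * g' =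
    (s * x - g) * (s' * y) + g * (s' * y - g') by ring]

/-- A valuation ring with centre `Q` that refines `d`. -/
theorem ex_val (hQ : Q.IsPrime) (hA : ∀ g ∈ A, g ∈ d.F 0) (hF : ∀ g : A, (g : K) ∈ d.F 1 → g ∈ Q) :
    ∃ V : ValuationSubring K, (∀ g ∈ A, g ∈ V) ∧ V ≤ d.O ∧ ∀ g : A, g ∈ Q ↔ ¬Un V (g : K) := by
  have top : ∀ g ∈ A, Rel d Q ⊤ g := fun g hg => Rel.of_mem hQ (g := ⟨g, hg⟩) Submodule.mem_top
  let L : Subring K :=
    { carrier := {x | Rel d Q ⊤ x}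
      mul_mem' := Rel.mul hQ hA
      one_mem' := top 1 (one_mem _)
      add_mem' := Rel.add hQ hA
      zero_mem' := top 0 (zero_mem _)
      neg_mem' := fun {x} hx => by
        have := Rel.mul hQ hA (top (-1) (neg_mem (one_mem _))) hx
        rwa [neg_one_mul] at this }
  let I : Ideal L :=
    { carrier := {x | Rel d Q Q (x : K)}
      add_mem' := Rel.add hQ hA
      zero_mem' := Rel.of_mem hQ (g := 0) (zero_mem _)
      smul_mem' := fun c _ hx => Rel.mul hQ hA c.2 hx }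
  have hI : I ≠ ⊤ := fun e => by
    obtain ⟨s, hs, g, hg, e⟩ : Rel d Q Q 1 := (Ideal.eq_top_iff_one _).1 e
    have := add_mem (hF (s - g) (by simpa using e)) hg
    rw [sub_add_cancel] at this
    exact hs this
  obtain ⟨V, h1, h2⟩ := I.image_subset_nonunits_valuationSubring hI
  have h3 : ∀ x, Rel d Q Q x → ¬Un V x := fun x hx hu => by
    obtain ⟨s, hs, g, hg, e⟩ := hx
    have : x ∈ V.nonunits := h2 ⟨⟨x, s, hs, g, Submodule.mem_top, e⟩, ⟨s, hs, g, hg, e⟩, rfl⟩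
    exact (V.mem_nonunits_iff.1 this).ne (un_iff.1 hu)
  refine ⟨V, fun g hg => h1 (top g hg), fun x hx => ?_,
    fun g => ⟨fun hg => h3 _ (Rel.of_mem hQ hg), fun hg => ?_⟩⟩
  · by_contra hn
    have h0 : x ≠ 0 := fun e => hn (e ▸ zero_mem _)
    have h4 : x⁻¹ ∈ d.F 1 := Or.inr (by
      have : ¬0 ≤ d.v x := fun e => hn (Or.inr e)
      rw [d.inv]; omega)
    have h5 : ∀ J : Ideal A, Rel d Q J x⁻¹ := fun J =>
      ⟨1, (Ideal.ne_top_iff_one _).1 hQ.ne_top, 0, zero_mem _, by simpa using h4⟩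
    exact h3 _ (h5 Q) ⟨inv_ne_zero h0, h1 (h5 ⊤), by rwa [inv_inv]⟩
  · by_contra hn
    have h0 : (g : K) ≠ 0 := fun e => hn ((Subtype.ext e : g = 0) ▸ zero_mem _)
    refine hg ⟨h0, h1 (top _ g.2), h1 (⟨g, hn, 1, Submodule.mem_top, ?_⟩ : Rel d Q ⊤ _)⟩
    rw [mul_inv_cancel₀ h0]
    simp

end Gen

end RCe

open RCe in
theorem rowCe : OfCe := by
  intro hG hB _ N f M hM o j V hV ho hj hne
  have B := hB N f M hM
  obtain ⟨b0, hb0⟩ := hM.cov V hV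
  obtain ⟨io, no, ⟨l, hl⟩, -⟩ := B.in_v b0 V o hb0 ho
  obtain ⟨-, -, ⟨l', hl'⟩, -⟩ := B.in_v b0 V j hb0 hj
  have el : M.η b0 o = M.S.z b0 l := M.S.η_some b0 o l hl
  have el' : M.η b0 j = M.S.z b0 l' := M.S.η_some b0 j l' hl'
  obtain ⟨Q, hQ, hQP, h1, h2, -, h3⟩ := hG (M.S.A b0) N (fun i => ⟨M.S.z b0 i, M.S.z_mem b0 i⟩)
    l l' (cen V hb0) (hM.et b0) (cen_prime V hb0)
    (show ¬Un V (M.S.z b0 l) from el ▸ (B.thru_iff b0 V o hb0).1 ho)
    (show ¬Un V (M.S.z b0 l') from el' ▸ (B.thru_iff b0 V j hb0).1 hj)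
  obtain ⟨V', hi, hle, hc⟩ := ex_val (d := M.v o) hQ io fun g hg => by
    have h4 := (hM.dv b0 o no).2.2 g g.2 hg
    have h5 := Q.mul_mem_left ⟨_, h4⟩ h1
    have h6 : (⟨_, h4⟩ * ⟨M.S.z b0 l, M.S.z_mem b0 l⟩ : M.S.A b0) = g := Subtype.ext (by
      show (g : KK N) * (M.η b0 o)⁻¹ * M.S.z b0 l = g
      rw [← el, inv_mul_cancel_right₀ (M.η_ne b0 o)])
    exact h6 ▸ h5
  have hu : ∀ s ∈ M.S.A b0, Un V s → Un V' s := fun s hs h =>
    not_not.1 fun h' => hQP ((hc ⟨s, hs⟩).2 h') h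
  refine ⟨V', ⟨hne, B.ov b0 V' hi, hle, (B.thru_iff b0 V' j hi).2 (el' ▸ (hc _).1 h2), ?_⟩, ?_⟩
  · intro b hb g hg hn
    obtain ⟨s1, a1, u1, m1⟩ := B.lc b b0 V' hb hi g hg
    obtain ⟨s2, n2, m2⟩ := h3 ⟨_, m1⟩ ((hc ⟨_, m1⟩).2 (not_un_mul (hi _ a1) (hb _ hg) hn))
    have u2 : Un V' (s2 : KK N) := not_not.1 fun h => n2 ((hc s2).2 h)
    obtain ⟨a, a', e⟩ := Ideal.mem_span_pair.1 m2
    have e' : (a : KK N) * M.η b0 o + a' * M.η b0 j = s2 * (s1 * g) := by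
      rw [el, el']; exact congrArg Subtype.val e
    have lc : ∀ x ∈ M.S.A b0, Lc (M.S.A b) V' x := B.lc b0 b V' hi hb
    have li : Lc (M.S.A b) V' ((s2 : KK N) * s1)⁻¹ := ((lc _ s2.2).mul (lc _ a1)).inv (u2.mul u1)
    have lη : ∀ i, Lc (M.S.A b) V' (M.η b0 i / M.η b i) := fun i => by
      have := (sup_le lc le_LA : M.S.A b0 ⊔ M.S.A b ≤ LA (M.S.A b) V') (M.S.η_mem b0 b i)
      rwa [Units.val_div_eq_div_val] at this
    obtain ⟨t, ta, tu, tm⟩ := (li.mul (lc _ a.2)).mul (lη o)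
    obtain ⟨t', ta', tu', tm'⟩ := (li.mul (lc _ a'.2)).mul (lη j)
    refine ⟨t * t', mul_mem ta ta', _, mul_mem ta' tm, _, mul_mem ta tm', tu.mul tu', ?_⟩
    have z1 := u1.1
    have z2 := u2.1
    have z3 := M.η_ne b o
    have z4 := M.η_ne b j
    have e2 : g = ((s2 : KK N) * s1)⁻¹ * (a * M.η b0 o + a' * M.η b0 j) := by
      rw [e']; field_simp
    rw [e2]
    field_simp
  · intro b hb
    have lc := B.lc b b0 V hb hb0
    refine ⟨fun g hg => (lc g hg).mem hi hu, fun g hg h => ?_⟩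
    obtain ⟨s, a, u, m⟩ := lc g hg
    exact (mul_comm s g ▸ hu _ m (u.mul h)).cancel (hu s a u)

end Pool.Agent.MP_ee8c61_ag.M3E
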