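import Pool.Agent.MP_ee8c61_ag.M3E.Spec

/-!
Clearing of poles along the complement of a chart of an ample cover.
-/

namespace Pool.Agent.MP_ee8c61_ag.M3E

open H59 M3

theorem rowClr : OfClr := by
  intro hB hN N f M hM κ w b t ρ hA _ i c g hg
  have B := hB N f M hM
  have L := hN N f M hM
  have h0 : ∀ j, ρ j ≠ 0 := fun j =>
    left_ne_zero_of_mul (((hA.gen j ⊤ fun _ => trivial).2 ⟨fun _ _ => trivial, trivial⟩) (b j)
      fun _ _ => trivial).1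
  have hτ : ∀ j V, Ov V → M.Gen V w (ρ j) → ρ i / ρ j ∈ V := fun j V hV h =>
    (B.oc_div V w _ _ hV h).1 (hA.sec i V hV)
  have key : ∀ j, ∃ e : ℕ, ∀ V, M.In (b j) V → (t j)⁻¹ ∈ V →
      (ρ i / ρ j) ^ e * (g * M.mon (b j) c) ∈ V := by
    intro j
    obtain ⟨a, ha⟩ := L.aw (b j) (t j) (hA.mem j) (hA.ne j) (ρ i / ρ j) fun V h1 h2 =>
      hτ j V (B.ov _ V h1) ((hA.gen j V (B.ov _ V h1)).2 ⟨h1, h2⟩)
    have hT := mul_mem (hA.mem j) ha
    have hT0 : t j * (t j ^ a * (ρ i / ρ j)) ≠ 0 :=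
      mul_ne_zero (hA.ne j) (mul_ne_zero (pow_ne_zero _ (hA.ne j)) (div_ne_zero (h0 i) (h0 j)))
    obtain ⟨e, he⟩ := L.aw (b j) _ hT hT0 (g * M.mon (b j) c) fun V h1 h2 => by
      have hV := B.ov _ V h1
      have u : Un V (t j * (t j ^ a * (ρ i / ρ j))) := ⟨hT0, h1 _ hT, h2⟩
      have u1 : Un V (t j) := u.of_mul (h1 _ (hA.mem j)) (h1 _ ha)
      have u2 : Un V (ρ i / ρ j) := by
        rw [← mul_assoc, mul_comm] at u
        exact u.cancel (u1.mul (u1.pow a))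
      have u3 := (B.gen_iff _ V w _ h1).1 ((hA.gen j V hV).2 ⟨h1, u1.2.2⟩)
      refine (B.oc_iff _ V c g h1).1 (hg V hV ((B.gen_iff _ V w _ h1).2 ?_))
      have u4 := u2.mul u3
      rwa [← mul_assoc, div_mul_cancel₀ _ (h0 j)] at u4
    refine ⟨e, fun V h1 h2 => ?_⟩
    have h3 := mul_mem (pow_mem (mul_mem h2 (pow_mem h2 a)) e) (h1 _ he)
    have h4 : (t j)⁻¹ * (t j)⁻¹ ^ a * (t j * (t j ^ a * (ρ i / ρ j))) = ρ i / ρ j := by
      rw [mul_mul_mul_comm, inv_mul_cancel₀ (hA.ne j), one_mul, inv_pow,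
        inv_mul_cancel_left₀ (pow_ne_zero _ (hA.ne j))]
    rwa [← mul_assoc, ← mul_pow, h4] at h3
  choose ee he using key
  refine ⟨Finset.univ.sup ee, fun e h V hV => ?_⟩
  obtain ⟨j, hj⟩ := hA.cov V hV
  obtain ⟨h1, h2⟩ := (hA.gen j V hV).1 hj
  obtain ⟨d, rfl⟩ := Nat.exists_eq_add_of_le ((Finset.le_sup (Finset.mem_univ j)).trans h)
  refine (B.oc_iff _ V _ _ h1).2 ?_
  have h3 := mul_mem (mul_mem (he j V h1 h2) (pow_mem (hτ j V hV hj) d))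
    (pow_mem (hj _ h1).2.1 (ee j + d))
  have h4 : ρ i ^ (ee j + d) * g * M.mon (b j) ((ee j + d) • w + c) =
      (ρ i / ρ j) ^ ee j * (g * M.mon (b j) c) * (ρ i / ρ j) ^ d *
        (ρ j * M.mon (b j) w) ^ (ee j + d) := by
    have h5 : ρ i ^ (ee j + d) = (ρ i / ρ j) ^ (ee j + d) * ρ j ^ (ee j + d) := by
      rw [← mul_pow, div_mul_cancel₀ _ (h0 j)]
    rw [B.mon_add, B.mon_nsmul, h5, mul_pow, pow_add (ρ i / ρ j)]
    ring
  rw [h4]
  exact h3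

end Pool.Agent.MP_ee8c61_ag.M3E
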