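import Pool.Agent.MP_ee8c61_ag.M3E.Spec

/-!
Curves on a divisor.
-/

namespace Pool.Agent.MP_ee8c61_ag.M3E

open H59 M3

namespace RCv

section Abs

variable {K : Type} [Field K] {V : ValuationSubring K} {d : DV K}

theorem mulF {a g : K} (ha : a ∈ d.F 0) (hg : g ∈ d.F 1) : a * g ∈ d.F 1 := by
  simpa using d.F_mul ha hg

theorem nF {a : K} (h0 : a ≠ 0) (h1 : d.v a = 0) : a ∉ d.F 1 := fun h => by
  have := h.resolve_left h0
  omega

theorem of_nF {a : K} (ha : a ∈ d.F 0) (h : a ∉ d.F 1) : Un d.O a := by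
  have h0 : a ≠ 0 := fun e => h (Or.inl e)
  have h1 := ha.resolve_left h0
  have h2 : ¬1 ≤ d.v a := fun e => h (Or.inr e)
  exact d.un_O.2 ⟨h0, by omega⟩

theorem un_nF {a : K} (h : Un d.O a) : a ∉ d.F 1 := nF h.1 (d.un_O.1 h).2

theorem un_of (hs : ∀ g ∈ d.F 1, g ∈ V ∧ ¬Un V g) {y g s s' : K} {e : ℤ} (hy : Un d.O y)
    (hy1 : y ∈ V) (hy2 : ¬Un V y) (h1 : Un V s) (h2 : Un V s') (h : s * g - s' * y ^ e ∈ d.F 1) :
    Un V (g / y ^ e) ∧ (g ∈ V ↔ 0 ≤ e) := by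
  have h0 : y ^ e ≠ 0 := zpow_ne_zero _ hy.1
  have h3 := hs _ (mulF (hy.zpow e).2.2 h)
  have h4 := h2.add h3.1 h3.2
  have h5 : Un V (g / y ^ e) := by
    refine Un.cancel (h := s) ?_ h1
    rwa [show g / y ^ e * s = s' + (y ^ e)⁻¹ * (s * g - s' * y ^ e) by field_simp; ring]
  refine ⟨h5, ?_⟩
  rw [← zpow_mem_iff hy.1 hy1 hy2 e, ← h5.mem_iff (g := y ^ e), mul_div_cancel₀ _ h0]

variable [Algebra ℂ K] {A : Subalgebra ℂ K}

/-- The multiples of `p` in the local ring, modulo elements of positive value. -/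
def mI (A : Subalgebra ℂ K) (V : ValuationSubring K) (d : DV K) (hA : ∀ g ∈ A, g ∈ d.F 0)
    (p : K) : Ideal A where
  carrier := {a | ∃ s ∈ A, Un V s ∧ ∃ c ∈ A, s * a - c * p ∈ d.F 1}
  zero_mem' := ⟨1, one_mem _, un_one, 0, zero_mem _, by simp⟩
  add_mem' := fun {a a'} ⟨s, h1, h2, c, h3, h4⟩ ⟨s', h5, h6, c', h7, h8⟩ =>
    ⟨s * s', mul_mem h1 h5, h2.mul h6, s' * c + s * c', add_mem (mul_mem h5 h3) (mul_mem h1 h7), by
      have := add_mem (mulF (hA _ h5) h4) (mulF (hA _ h1) h8)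
      rwa [show s' * (s * a - c * p) + s * (s' * a' - c' * p) =
        s * s' * (a + a') - (s' * c + s * c') * p by ring] at this⟩
  smul_mem' := fun r a ⟨s, h1, h2, c, h3, h4⟩ => ⟨s, h1, h2, r * c, mul_mem r.2 h3, by
    have := mulF (hA _ r.2) h4
    rwa [show (r : K) * (s * a - c * p) = s * (r * a) - r * c * p by ring] at this⟩

theorem key [IsNoetherianRing A] (hA : ∀ g ∈ A, g ∈ V) (hV : V ≤ d.O) {x y : K}
    (hx : x ∈ d.F 1) (hyA : y ∈ A) (hy : ¬Un V y)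
    (hc : ∀ g ∈ A, ¬Un V g → ∃ s ∈ A, ∃ h ∈ A, ∃ h' ∈ A, Un V s ∧ s * g = h * x + h' * y)
    {p : K} (hp : p ∈ A) (hp1 : p ∉ d.F 1) :
    ∃ e : ℕ, ∃ s ∈ A, ∃ s' ∈ A, Un V s ∧ Un V s' ∧ s * p - s' * y ^ e ∈ d.F 1 := by
  have hO : ∀ g ∈ A, g ∈ d.F 0 := fun g hg => hV (hA g hg)
  generalize hI : mI A V d hO p = I
  induction I using WellFoundedGT.induction generalizing p with
  | ind I ih =>
    by_cases hu : Un V p
    · exact ⟨0, 1, one_mem _, p, hp, un_one, hu, by simp⟩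
    obtain ⟨s, hs, h, hh, h', hh', hsu, e1⟩ := hc p hp hu
    have e2 : s * p - h' * y ∈ d.F 1 := by
      rw [e1, add_sub_cancel_right]
      exact mulF (hO _ hh) hx
    have h1 : h' ∉ d.F 1 := fun h1 => by
      have := add_mem e2 (mulF (hO _ hyA) h1)
      rw [mul_comm y, sub_add_cancel] at this
      exact un_nF ((hsu.mono hV).mul (of_nF (hO _ hp) hp1)) this
    have tr : ∀ a s1 c : K, c ∈ A → s1 * a - c * p ∈ d.F 1 →
        s * s1 * a - c * y * h' ∈ d.F 1 := fun a s1 c h3 h4 => by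
      have := add_mem (mulF (hO _ hs) h4) (mulF (hO _ h3) e2)
      rwa [show s * (s1 * a - c * p) + c * (s * p - h' * y) = s * s1 * a - c * y * h' by ring]
        at this
    have lt : I < mI A V d hO h' := by
      rw [← hI]
      refine lt_of_le_not_ge ?_ fun hle => ?_
      · rintro a ⟨s1, h2, h3, c, h4, h5⟩
        exact ⟨s * s1, mul_mem hs h2, hsu.mul h3, c * y, mul_mem h4 hyA, tr _ _ _ h4 h5⟩
      · obtain ⟨s1, h2, h3, c, h4, h5⟩ := hle (show (⟨h', hh'⟩ : A) ∈ mI A V d hO h' from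
          ⟨1, one_mem _, un_one, 1, one_mem _, by simp⟩)
        have h6 := tr _ _ _ h4 h5
        have h7 := (hsu.mul h3).add (hA _ (mul_mem (neg_mem h4) hyA))
          (not_un_mul (hA _ (neg_mem h4)) (hA _ hyA) hy)
        refine un_nF ((h7.mono hV).mul (of_nF (hO _ hh') h1)) ?_
        rwa [show (s * s1 + -c * y) * h' = s * s1 * h' - c * y * h' by ring]
    obtain ⟨e, s2, h2, s3, h3, h4, h5, h6⟩ := ih _ lt hh' h1 rfl
    refine ⟨e + 1, s2 * s, mul_mem h2 hs, s3, h3, h4.mul hsu, h5, ?_⟩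
    have := add_mem (mulF (hO _ h2) e2) (mulF (hO _ hyA) h6)
    rwa [show s2 * (s * p - h' * y) + y * (s2 * h' - s3 * y ^ e) =
      s2 * s * p - s3 * y ^ (e + 1) by ring] at this

theorem dvr [IsNoetherianRing A] (hA : ∀ g ∈ A, g ∈ V) (hV : V ≤ d.O) {x y : K}
    (hx : x ∈ d.F 1) (hyA : y ∈ A) (hy : ¬Un V y) (hy0 : Un d.O y)
    (hc : ∀ g ∈ A, ¬Un V g → ∃ s ∈ A, ∃ h ∈ A, ∃ h' ∈ A, Un V s ∧ s * g = h * x + h' * y)
    {g : K} (hg : Un d.O g) (hl : Lc A d.O g) :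
    ∃ e : ℤ, ∃ s ∈ A, ∃ s' ∈ A, Un V s ∧ Un V s' ∧ s * g - s' * y ^ e ∈ d.F 1 := by
  have hO : ∀ g ∈ A, g ∈ d.F 0 := fun g hg => hV (hA g hg)
  obtain ⟨s, h1, h2, h3⟩ := hl
  obtain ⟨a, s1, a1, s1', a2, a3, a4, a5⟩ := key hA hV hx hyA hy hc h1 (un_nF h2)
  obtain ⟨b, s2, b1, s2', b2, b3, b4, b5⟩ := key hA hV hx hyA hy hc h3 (un_nF (h2.mul hg))
  refine ⟨b - a, s1' * s2, mul_mem a2 b1, s1 * s2', mul_mem a1 b2, a4.mul b3, a3.mul b4, ?_⟩
  have h0 := hy0.1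
  have := mulF (hy0.pow a).2.2 (sub_mem (mulF (hO _ a1) b5)
    (mulF (mul_mem (s := d.O) (hO _ b1) hg.2.1) a5))
  rwa [show (y ^ a)⁻¹ * (s1 * (s2 * (s * g) - s2' * y ^ b) - s2 * g * (s1 * s - s1' * y ^ a)) =
    s1' * s2 * g - s1 * s2' * y ^ ((b : ℤ) - a) by
      rw [zpow_sub₀ h0, zpow_natCast, zpow_natCast]; field_simp; ring] at this

/-- The centre of `V`. -/
def cen (A : Subalgebra ℂ K) (V : ValuationSubring K) (hA : ∀ g ∈ A, g ∈ V) : Ideal A where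
  carrier := {a | ¬Un V a}
  zero_mem' := not_un_zero
  add_mem' := fun {a b} ha hb => not_un_add (hA _ a.2) (hA _ b.2) ha hb
  smul_mem' := fun r a ha => not_un_mul (hA _ r.2) (hA _ a.2) ha

theorem cen_min (hA : ∀ g ∈ A, g ∈ V) {x y : A} (hx : ¬Un V x) (hy : ¬Un V y)
    (hc : ∀ g ∈ A, ¬Un V g → ∃ s ∈ A, ∃ h ∈ A, ∃ h' ∈ A, Un V s ∧ s * g = h * x + h' * y) :
    cen A V hA ∈ (Ideal.span {x, y}).minimalPrimes := by
  refine ⟨⟨⟨(Ideal.ne_top_iff_one _).2 fun h => h un_one, fun {a b} h => ?_⟩, ?_⟩, ?_⟩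
  · by_contra hn
    rw [not_or] at hn
    exact h (Un.mul (not_not.1 hn.1) (not_not.1 hn.2))
  · rw [Ideal.span_le]
    rintro _ (rfl | rfl)
    · exact hx
    · exact hy
  · rintro q ⟨hq, hle⟩ hqP g hg
    obtain ⟨s, h1, h, h2, h', h3, h4, h5⟩ := hc g g.2 hg
    have e : (⟨s, h1⟩ : A) * g = ⟨h, h2⟩ * x + ⟨h', h3⟩ * y := Subtype.ext h5
    have : (⟨s, h1⟩ : A) * g ∈ q := by
      rw [e]
      exact add_mem (q.mul_mem_left _ (hle (Ideal.subset_span (by simp))))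
        (q.mul_mem_left _ (hle (Ideal.subset_span (by simp))))
    exact (hq.mem_or_mem this).resolve_left fun h => hqP h h4

end Abs

variable {N : ℕ} {M : Mod N}

theorem v_η (B : Bas1 M) {b : M.ι} {o : M.J} (h : M.In b (M.v o).O) (j : M.J) :
    (M.v o).v (M.η b j) = if o = j then 1 else 0 := by
  have := B.v_mon b o ((1 : ℤ) • M.e j) h
  rwa [B.mon_e, zpow_one, one_smul, M.e_apply] at this

theorem η_un (B : Bas1 M) {b : M.ι} {o j : M.J} {V : Vl N} (h : M.IsCv o j V) (hb : M.In b V) :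
    Un (M.v o).O (M.η b j) :=
  (M.v o).un_O.2 ⟨M.η_ne b j, by rw [v_η B fun g hg => h.2.2.1 (hb g hg), if_neg h.1.symm]⟩

theorem dvr' (B : Bas1 M) (C : Nb M) (o j : M.J) (V : Vl N) (b : M.ι) (h : M.IsCv o j V)
    (hb : M.In b V) (g : KK N) (h0 : g ≠ 0) (h1 : (M.v o).v g = 0) : ∃ e : ℤ,
    ∃ s ∈ M.S.A b, ∃ s' ∈ M.S.A b, Un V s ∧ Un V s' ∧ s * g - s' * M.η b j ^ e ∈ (M.v o).F 1 := by
  have := C.noeth b
  have hi : M.In b (M.v o).O := fun g hg => h.2.2.1 (hb g hg)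
  have hg := (M.v o).un_O.2 ⟨h0, h1⟩
  exact dvr hb h.2.2.1 (Or.inr (by rw [v_η B hi, if_pos rfl])) (B.η_mem b j) (h.2.2.2.1 b hb)
    (η_un B h hb) (h.2.2.2.2 b hb) hg (B.frac b o hi g hg.2.1)

theorem thru {f : Po N} (hM : M.OK f) (B : Bas1 M) (o j : M.J) (V : Vl N) (i : M.J)
    (h : M.IsCv o j V) (hi : M.Thru V i) : i = o ∨ i = j := by
  by_contra hn
  rw [not_or] at hn
  obtain ⟨b, hb⟩ := hM.cov V h.2.1
  have ho := B.thru_le V o h.2.1 h.2.2.1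
  have hj := h.2.2.2.1
  obtain ⟨-, -, ⟨l, hl⟩, -⟩ := B.in_v b V i hb hi
  obtain ⟨-, -, ⟨lo, hlo⟩, -⟩ := B.in_v b V o hb ho
  obtain ⟨-, -, ⟨lj, hlj⟩, -⟩ := B.in_v b V j hb hj
  obtain ⟨s, h1, c, h2, c', h3, h4, h5⟩ := h.2.2.2.2 b hb _ (B.η_mem b i) (hi b hb)
  have d1 : M.S.D b l (M.η b i) = 1 := by
    rw [Mod.η, M.S.η_some b i l hl, M.S.D_z, if_pos rfl]
  have d2 : M.S.D b l (M.η b o) = 0 := by
    rw [Mod.η, M.S.η_some b o lo hlo, M.S.D_z, if_neg]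
    rintro rfl
    exact hn.1 (M.S.lab_inj b i o l hl hlo)
  have d3 : M.S.D b l (M.η b j) = 0 := by
    rw [Mod.η, M.S.η_some b j lj hlj, M.S.D_z, if_neg]
    rintro rfl
    exact hn.2 (M.S.lab_inj b i j l hl hlj)
  have h6 := congrArg (M.S.D b l) h5
  rw [map_add, Derivation.leibniz, Derivation.leibniz, Derivation.leibniz, d1, d2, d3] at h6
  simp only [smul_eq_mul] at h6
  have h7 : s = M.S.D b l c * M.η b o + M.S.D b l c' * M.η b j + -M.S.D b l s * M.η b i := by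
    linear_combination h6
  have m1 := hb _ (M.S.D_mem b l c h2)
  have m2 := hb _ (M.S.D_mem b l c' h3)
  have m3 := hb _ (neg_mem (M.S.D_mem b l s h1))
  have mo := hb _ (B.η_mem b o)
  have mj := hb _ (B.η_mem b j)
  have mi := hb _ (B.η_mem b i)
  rw [h7] at h4
  exact not_un_add (add_mem (mul_mem m1 mo) (mul_mem m2 mj)) (mul_mem m3 mi)
    (not_un_add (mul_mem m1 mo) (mul_mem m2 mj) (not_un_mul m1 mo (ho b hb))
      (not_un_mul m2 mj (hj b hb))) (not_un_mul m3 mi (hi b hb)) h4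

theorem ext (B : Bas1 M) (C : Nb M) (o j : M.J) (V V' : Vl N) (b : M.ι) (h : M.IsCv o j V)
    (hb : M.In b V) (hb' : M.In b V') (hV' : V' ≤ (M.v o).O)
    (hu : ∀ s ∈ M.S.A b, Un V s ↔ Un V' s) : V' = V := by
  ext g
  by_cases h0 : g = 0
  · simp [h0]
  rcases lt_trichotomy ((M.v o).v g) 0 with h1 | h1 | h1
  · have : g ∉ (M.v o).O := fun e => by
      have := Or.resolve_left e h0
      omega
    exact iff_of_false (fun e => this (hV' e)) fun e => this (h.2.2.1 e)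
  · obtain ⟨e, s, h2, s', h3, h4, h5, h6⟩ := dvr' B C o j V b h hb g h0 h1
    have hy := B.η_mem b j
    exact (un_of (B.small V' o hV') (η_un B h hb) (hb' _ hy)
      (fun e => h.2.2.2.1 b hb ((hu _ hy).2 e)) ((hu _ h2).1 h4) ((hu _ h3).1 h5) h6).2.trans
      (un_of (B.small V o h.2.2.1) (η_un B h hb) (hb _ hy) (h.2.2.2.1 b hb) h4 h5 h6).2.symm
  · exact iff_of_true (B.small V' o hV' g (Or.inr h1)).1 (B.small V o h.2.2.1 g (Or.inr h1)).1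

theorem fin {f : Po N} (hM : M.OK f) (B : Bas1 M) (C : Nb M) (o : M.J) :
    {V | ∃ j, M.IsCv o j V}.Finite := by
  have h1 : ∀ b j, {V | M.IsCv o j V ∧ M.In b V}.Finite := fun b j => by
    have := C.noeth b
    have h2 := (Ideal.finite_minimalPrimes_of_isNoetherianRing (M.S.A b)
      (Ideal.span {⟨_, B.η_mem b o⟩, ⟨_, B.η_mem b j⟩})).biUnion
      (t := fun P => {V | M.IsCv o j V ∧ M.In b V ∧ ∀ g : M.S.A b, g ∈ P ↔ ¬Un V (g : KK N)})
      fun P _ => Set.Subsingleton.finite fun V ⟨a1, a2, a3⟩ V' ⟨b1, b2, b3⟩ =>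
        (ext B C o j V V' b a1 a2 b2 b1.2.2.1 fun s hs =>
          not_iff_not.1 ((a3 ⟨s, hs⟩).symm.trans (b3 ⟨s, hs⟩))).symm
    refine h2.subset fun V ⟨h, hb⟩ => Set.mem_iUnion₂.2 ⟨cen _ V hb, cen_min hb
      (B.thru_le V o h.2.1 h.2.2.1 b hb) (h.2.2.2.1 b hb) (h.2.2.2.2 b hb), h, hb, fun _ => Iff.rfl⟩
  refine (Set.finite_iUnion fun b => Set.finite_iUnion fun j => h1 b j).subset fun V ⟨j, h⟩ => ?_
  obtain ⟨b, hb⟩ := hM.cov V h.2.1
  exact Set.mem_iUnion.2 ⟨b, Set.mem_iUnion.2 ⟨j, h, hb⟩⟩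

end RCv

theorem rowCv : OfCv := by
  intro hB hN N f M hM
  have B := (hB N f M hM).toBas1
  have C := hN N f M hM
  refine ⟨RCv.dvr' B C, fun o j V b h hb g h0 h1 => ?_, RCv.thru hM B, RCv.ext B C,
    RCv.fin hM B C⟩
  obtain ⟨e, s, -, s', -, h4, h5, h6⟩ := RCv.dvr' B C o j V b h hb g h0 h1
  exact ⟨e, RCv.un_of (B.small V o h.2.2.1) (RCv.η_un B h hb) (hb _ (B.η_mem b j))
    (h.2.2.2.1 b hb) h4 h5 h6⟩

end Pool.Agent.MP_ee8c61_ag.M3E
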