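import Pool.Agent.MP_ee8c61_ag.M3E.Spec

/-! Row Dc: rules for a domination of models. -/

namespace Pool.Agent.MP_ee8c61_ag.M3E

open H59 M3 Finset

namespace RDc

variable {N : ℕ} {f : Po N} {W M : Mod N} (D : Dom W M)

theorem mon_pb (b : W.ι) (c : M.J → ℤ) :
    W.mon b (D.pb c) = ∏ j, W.mon b (fun i => D.m i j) ^ c j := by
  simp only [Mod.mon_eq, Dom.pb, ← Finset.prod_zpow, ← zpow_mul]
  rw [Finset.prod_comm]
  refine Finset.prod_congr rfl fun i _ => ?_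
  have h := W.η_ne b i
  induction (Finset.univ : Finset M.J) using Finset.induction_on with
  | empty => simp
  | insert j s hj ih => rw [sum_insert hj, prod_insert hj, zpow_add₀ h, ih]

theorem un_mon (a : M.ι) (b : W.ι) (V : Vl N) (c : M.J → ℤ) (ha : M.In a V) (hb : W.In b V) :
    Un V (M.mon a c / W.mon b (D.pb c)) := by
  rw [mon_pb, M.mon_eq, ← Finset.prod_div_distrib]
  refine Un.prod _ fun j _ => ?_
  rw [← div_zpow]
  exact (D.mon a b V ha hb j).zpow _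

theorem split (a : M.ι) (b : W.ι) (c : M.J → ℤ) (g : KK N) :
    g * M.mon a c = g * W.mon b (D.pb c) * (M.mon a c / W.mon b (D.pb c)) := by
  rw [mul_assoc, mul_div_cancel₀ _ (W.mon_ne b _)]

variable (hW : W.OK f) (hM : M.OK f) (BW : Bas f W) (BM : Bas f M)

include hW hM BW BM

theorem oc (V : Vl N) (c : M.J → ℤ) (g : KK N) (hV : Ov V) : M.Oc V c g ↔ W.Oc V (D.pb c) g := by
  obtain ⟨a, ha⟩ := hM.cov V hV
  obtain ⟨b, hb⟩ := hW.cov V hV
  rw [BM.oc_iff a V c g ha, BW.oc_iff b V _ g hb, split D a b, (un_mon D a b V c ha hb).mem_iff]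

theorem gen (V : Vl N) (c : M.J → ℤ) (g : KK N) (hV : Ov V) :
    M.Gen V c g ↔ W.Gen V (D.pb c) g := by
  obtain ⟨a, ha⟩ := hM.cov V hV
  obtain ⟨b, hb⟩ := hW.cov V hV
  rw [BM.gen_iff a V c g ha, BW.gen_iff b V _ g hb, split D a b]
  exact ⟨fun h => h.cancel (un_mon D a b V c ha hb), fun h => h.mul (un_mon D a b V c ha hb)⟩

theorem hH (c : M.J → ℤ) : W.H (D.pb c) = M.H c :=
  Set.ext fun g => forall₂_congr fun V hV => (oc D hW hM BW BM V c g hV).symm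

theorem hR (o : M.J) (c : M.J → ℤ) : W.R (D.e o) (D.pb c) = M.R o c := by
  refine Set.ext fun g => forall₂_congr fun V hV => ?_
  rw [D.v o, oc D hW hM BW BM V c g hV]

theorem gens (c : M.J → ℤ) (T : Finset (KK N)) (h : M.Gens c T) : W.Gens (D.pb c) T := by
  refine ⟨fun g hg => hH D hW hM BW BM c ▸ h.1 g hg, fun V hV => ?_⟩
  obtain ⟨g, hg, e⟩ := h.2 V hV
  exact ⟨g, hg, (gen D hW hM BW BM V c g hV).1 e⟩

omit hM BM in
theorem m_eq (a : M.ι) (i : W.J) (j : M.J) (ha : M.In a (W.v i).O) :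
    (D.m i j : ℤ) = (W.v i).v (M.η a j) := by
  obtain ⟨b, hb⟩ := hW.cov _ (BW.ov_v i)
  have h := ((W.v i).un_O.1 (D.mon a b _ ha hb j)).2
  rw [(W.v i).div (M.η_ne a j) (W.mon_ne b _), BW.v_mon b i _ hb] at h
  omega

theorem m_e (j j' : M.J) : D.m (D.e j) j' = if j = j' then 1 else 0 := by
  obtain ⟨a, ha⟩ := hM.cov _ (BM.ov_v j)
  have h := m_eq D hW BW a (D.e j) j' (by rw [D.v j]; exact ha)
  have h1 := BM.v_mon a j ((1 : ℤ) • M.e j') ha
  rw [BM.mon_e, zpow_one, one_smul, M.e_apply] at h1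
  rw [D.v j, h1] at h
  split_ifs at h ⊢ <;> omega

end RDc

open RDc in
theorem rowDc : OfDc := by
  intro hB hS N f W M D hW hM
  have BW : Bas f W := hB N f W hW
  have BM : Bas f M := hB N f M hM
  have push : ∀ c, W.H c ⊆ M.H (D.pf c) := fun c g hg => by
    obtain ⟨h1, h2⟩ := (hS N f W hW c g).1 hg
    exact (hS N f M hM _ g).2 ⟨h1, fun j => D.v j ▸ h2 (D.e j)⟩
  refine ⟨un_mon D, oc D hW hM BW BM, gen D hW hM BW BM, hH D hW hM BW BM, hR D hW hM BW BM,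
    gens D hW hM BW BM, fun o c U h => ⟨fun u hu => ?_, fun V hV hle => ?_⟩, ?_, m_eq D hW BW,
    fun j j' e => hM.inj j j' (by rw [← D.v j, ← D.v j', e]), fun R _ c j => ?_,
    funext fun i => ?_, push, ?_, fun a b V ha hb g hg => ?_⟩
  · rw [hR D hW hM BW BM]
    exact h.1 u hu
  · obtain ⟨u, hu, e⟩ := h.2 V hV (D.v o ▸ hle)
    exact ⟨u, hu, (gen D hW hM BW BM V c u hV).1 e⟩
  · rintro P ⟨μ, w, hμ, ⟨T, hT⟩, e⟩
    exact ⟨μ, D.pb w, hμ, ⟨T, gens D hW hM BW BM w T hT⟩, by rw [D.q_pb, e, D.pb_nsmul]⟩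
  · simp [Dom.pb, m_e D hW hM BW BM]
  · have h1 := ((BW.gen_v i _ _).1 ((gen D hW hM BW BM _ _ _ (BW.ov_v i)).1 (BM.gen_f _))).2
    have h2 := ((BW.gen_v i _ _).1 (BW.gen_f _)).2
    rw [D.pb_neg] at h1
    simp only [Pi.neg_apply, neg_neg] at h1 h2
    exact h1.symm.trans h2
  · rintro o c s ⟨g, hg, e⟩
    exact ⟨g, push c hg, D.v o ▸ e⟩
  · obtain ⟨a', h'⟩ := D.loc b V hb
    obtain ⟨s, hs, hu, e⟩ := BM.lc a a' V ha (fun x hx => (h' x hx).mem' hb) g hg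
    have := ((h' s hs).inv hu).mul (h' _ e)
    rwa [inv_mul_cancel_left₀ hu.1] at this

end Pool.Agent.MP_ee8c61_ag.M3E
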