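import Pool.Agent.MP_ee8c61_ag.M3E.Spec

/-! Derivations on a model: chain rule, local rings, orders. -/

namespace Pool.Agent.MP_ee8c61_ag.M3E

open H59 M3 Finset

namespace RDer

variable {N : ℕ}

theorem der_zero {D : Derivation ℂ (KK N) (KK N)} (h : ∀ l, D (ip N (MvPolynomial.X l)) = 0)
    (x : KK N) : D x = 0 := by
  have h1 : ∀ p, D (ip N p) = 0 := fun p => by
    induction p using MvPolynomial.induction_on with
    | C c => exact (congrArg D ((ip N).commutes c)).trans (D.map_algebraMap c)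
    | add p q hp hq => rw [map_add, map_add, hp, hq, add_zero]
    | mul_X p i hp => rw [map_mul, D.leibniz, hp, h, smul_zero, smul_zero, add_zero]
  obtain ⟨p, q, hq, rfl⟩ := IsFractionRing.div_surjective (A := Po N) x
  change D (ip N p / ip N q) = 0
  rw [D.leibniz_div, h1, h1, smul_zero, smul_zero, sub_zero, smul_zero]

theorem sum_apply {ι : Type} (s : Finset ι) (c : ι → KK N) (R : ι → Derivation ℂ (KK N) (KK N))
    (y : KK N) : (∑ l ∈ s, c l • R l) y = ∑ l ∈ s, c l * R l y := by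
  classical
  induction s using Finset.induction_on with
  | empty => simp
  | insert i s hi ih =>
    rw [sum_insert hi, sum_insert hi, Derivation.add_apply, ih, Derivation.smul_apply, smul_eq_mul]

theorem chain0 {f : Po N} {M : Mod N} (h : M.OK f) (δ : Derivation ℂ (KK N) (KK N)) (g : KK N) :
    δ g = ∑ l, δ (M.S.r l) * M.S.R l g := by
  rw [← sum_apply]
  refine sub_eq_zero.1 (der_zero (D := δ - ∑ l, δ (M.S.r l) • M.S.R l) (fun l => ?_) g)
  have e : ip N (MvPolynomial.X l) = M.S.r l := (congrFun h.r l).symm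
  rw [e, Derivation.sub_apply, sum_apply]
  simp only [M.S.R_r, mul_ite, mul_one, mul_zero, sum_ite_eq', mem_univ, if_true, sub_self]

theorem chain {f : Po N} {M : Mod N} (h : M.OK f) (δ : Derivation ℂ (KK N) (KK N)) (a : M.ι)
    (g : KK N) : δ g = ∑ l, δ (M.S.z a l) * M.S.D a l g := by
  let P : Matrix (Fin N) (Fin N) (KK N) := Matrix.of fun i l => M.S.D a i (M.S.r l)
  let Q : Matrix (Fin N) (Fin N) (KK N) := Matrix.of fun l j => M.S.R l (M.S.z a j)
  have h1 : P * Q = 1 := by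
    ext i j
    rw [Matrix.mul_apply, Matrix.one_apply, ← M.S.D_z a i j, M.S.D_R]
    rfl
  have h2 : Q * P = 1 := mul_eq_one_comm.1 h1
  have h3 : ∀ l m, ∑ j, M.S.R l (M.S.z a j) * M.S.D a j (M.S.r m) = if l = m then 1 else 0 :=
    fun l m => by
      rw [← Matrix.one_apply, ← h2, Matrix.mul_apply]
      rfl
  have h4 : ∀ l, ∑ j, M.S.R l (M.S.z a j) * M.S.D a j g = M.S.R l g := fun l => by
    simp only [M.S.D_R a _ g, mul_sum, ← mul_assoc]
    rw [sum_comm]
    simp only [← sum_mul, h3, ite_mul, one_mul, zero_mul, sum_ite_eq, mem_univ, if_true]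
  rw [chain0 h δ g]
  simp only [chain0 h δ (M.S.z a _), sum_mul, mul_assoc]
  rw [sum_comm]
  simp only [← mul_sum, h4]

theorem lc (M : Mod N) (b : M.ι) (V : Vl N) (l : Fin N) (g : KK N) (h : Lc (M.S.A b) V g) :
    Lc (M.S.A b) V (M.S.D b l g) := by
  obtain ⟨s, h1, h2, h3⟩ := h
  refine ⟨s * s, mul_mem h1 h1, h2.mul h2, ?_⟩
  have e : s * s * M.S.D b l g = s * M.S.D b l (s * g) - s * g * M.S.D b l s := by
    rw [Derivation.leibniz, smul_eq_mul, smul_eq_mul]
    ring
  rw [e]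
  exact sub_mem (mul_mem h1 (M.S.D_mem b l _ h3)) (mul_mem h3 (M.S.D_mem b l _ h1))

theorem zp {K : Type} [Field K] [Algebra ℂ K] (D : Derivation ℂ K K) (a : K) (e : ℤ) :
    D (a ^ e) = (e : K) * (a ^ (e - 1) * D a) := by
  rw [Derivation.leibniz_zpow, smul_eq_mul, zsmul_eq_mul]

theorem int_mem {K : Type} [Field K] (d : DV K) (e : ℤ) : (e : K) ∈ d.F 0 :=
  d.mem_O.1 (intCast_mem d.O e)

end RDer

theorem rowDer : OfDer := by
  intro hB N f M h
  have B := hB N f M h
  refine ⟨RDer.chain h, RDer.lc M, fun b j l0 hb hl l m g hg => ?_⟩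
  by_cases h0 : g = 0
  · rw [h0, map_zero]
    exact zero_mem _
  have hm : m ≤ (M.v j).v g := hg.resolve_left h0
  have hη : (M.v j).v (M.η b j) = 1 := by
    have := B.v_mon b j ((1 : ℤ) • M.e j) hb
    rw [B.mon_e, zpow_one] at this
    rw [this]
    simp [M.e_apply]
  have hz : M.η b j = M.S.z b l0 := M.S.η_some b j l0 hl
  have hne := M.η_ne b j
  have hp : ∀ e : ℤ, M.η b j ^ e ∈ (M.v j).F e := fun e =>
    Or.inr (by rw [DV.zpow, hη, mul_one])
  obtain ⟨e, he⟩ : ∃ e, e = (M.v j).v g := ⟨_, rfl⟩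
  have hu : g * M.η b j ^ (-e) ∈ (M.v j).F 0 := by
    have := (M.v j).F_mul ((M.v j).mem_F_self g) (hp (-e))
    rwa [← he, add_neg_cancel] at this
  obtain ⟨u, hu'⟩ : ∃ u, u = g * M.η b j ^ (-e) := ⟨_, rfl⟩
  rw [← hu'] at hu
  have hg' : g = u * M.η b j ^ e := by
    rw [hu', mul_assoc, ← zpow_add₀ hne, neg_add_cancel, zpow_zero, mul_one]
  have hD : M.S.D b l u ∈ (M.v j).F 0 := (RDer.lc M b _ l u (B.frac b j hb u hu)).mem' hb
  have h1 : M.η b j ^ e * M.S.D b l u ∈ (M.v j).F e := by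
    simpa using (M.v j).F_mul (hp e) hD
  have h2 : M.S.D b l (M.η b j) = if l = l0 then 1 else 0 := by rw [hz, M.S.D_z]
  rw [← he] at hm
  rw [hg', Derivation.leibniz, RDer.zp, h2, smul_eq_mul, smul_eq_mul]
  split_ifs with hl0
  · refine add_mem ?_ ((M.v j).F_anti (by omega) h1)
    rw [mul_one]
    refine (M.v j).F_anti (m' := 0 + (0 + (e - 1))) (by omega) ?_
    exact (M.v j).F_mul hu ((M.v j).F_mul (RDer.int_mem _ e) (hp _))
  · rw [mul_zero, mul_zero, mul_zero, zero_add]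
    exact (M.v j).F_anti (by omega) h1

end Pool.Agent.MP_ee8c61_ag.M3E
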