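import Pool.Agent.MP_ee8c61_ag.M3E.Spec

/-!
The extension theorem from the two lifting lemmas.
-/

namespace Pool.Agent.MP_ee8c61_ag.M3E

open H59 M3 Finset

namespace RE

theorem small {ι : Type} [Fintype ι] (f g : ι → ℚ) (hf : ∀ i, f i < 1) {ε0 : ℚ} (h0 : 0 < ε0) :
    ∃ ε, 0 < ε ∧ ε ≤ ε0 ∧ ∀ i, f i + ε * g i < 1 := by
  classical
  have key : ∀ s : Finset ι, ∃ δ, 0 < δ ∧ δ ≤ ε0 ∧
      ∀ i ∈ s, ∀ ε, 0 < ε → ε ≤ δ → f i + ε * g i < 1 := by
    intro s
    induction s using Finset.induction_on with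
    | empty => exact ⟨ε0, h0, le_rfl, by simp⟩
    | insert a s _ ih =>
      obtain ⟨δ, h1, h2, h3⟩ := ih
      have ha : 0 < |g a| + 1 := by positivity
      have hb : 0 < (1 - f a) / (|g a| + 1) := div_pos (sub_pos.2 (hf a)) ha
      refine ⟨min δ ((1 - f a) / (|g a| + 1)), lt_min h1 hb, (min_le_left _ _).trans h2, ?_⟩
      intro i hi ε e1 e2
      rcases mem_insert.1 hi with rfl | hi
      · have e3 := (le_div_iff₀ ha).1 (e2.trans (min_le_right _ _))
        have e4 := mul_le_mul_of_nonneg_left (le_abs_self (g i)) e1.le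
        nlinarith
      · exact h3 i hi ε e1 (e2.trans (min_le_left _ _))
  obtain ⟨δ, h1, h2, h3⟩ := key univ
  exact ⟨δ, h1, h2, fun i => h3 i (mem_univ i) δ h1 le_rfl⟩

theorem one_R {N : ℕ} (M : Mod N) (o : M.J) (c : M.J → ℤ) : (1 : KK N) ∈ M.R o (c - c) := by
  intro V _ _ b _
  rw [sub_self, M.mon_eq]
  simp

end RE

theorem rowE : OfE := by
  intro hBas hAq hDc hA4 _ hPlt hL hT N f W M D hW hM o A B η m q mL aQ aE P nb X s hm hq hA hB
    hBo hη hBη hmL haQ haE fE fQ fP hP hPo hnb hX hs hsq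
  have bW := hBas N f W hW
  have dc := hDc N f W M D hW hM
  have hm' : (0 : ℚ) < m := by exact_mod_cast hm
  have hq' : (0 : ℚ) < q := by exact_mod_cast hq
  have hm1 : (0 : ℚ) ≤ (m : ℚ) - 1 := by
    have : (1 : ℚ) ≤ m := by exact_mod_cast hm
    linarith
  have hB1 : ∀ j, B j < 1 := fun j => by linarith [hBη j]
  obtain ⟨p1, p2, p3⟩ := hPlt N f W M D hW hM o B hBo hB1
  -- integral vectors and their rational values
  set a : W.J → ℤ := D.pb mL with ha
  set c : W.J → ℤ := D.pb aQ with hc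
  set e : W.J → ℤ := D.pb aE with he
  set kW : W.J → ℤ := W.kk + W.e (D.e o) with hkW
  set pk : W.J → ℚ := D.pb (M.q (M.kk + M.e o)) with hpk
  have vb : ∀ (β : M.J → ℚ) i, D.bd o β i = pk i + D.pb β i - kW i := fun β i => by
    simp only [Dom.bd, D.pb_add, Pi.sub_apply, Pi.add_apply, Mod.q_apply, hpk, hkW]
  have va : ∀ i, (a i : ℚ) = m * (pk i + D.pb A i + D.pb B i) := fun i => by
    have := congrFun (D.q_pb mL) i
    rw [hmL, D.pb_nsmul, D.pb_add, D.pb_add] at this
    simpa [nsmul_eq_mul, mul_add] using this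
  have vc : ∀ i, (c i : ℚ) = q * D.pb A i := fun i => by
    have := congrFun (D.q_pb aQ) i
    rw [haQ, D.pb_nsmul] at this
    simpa [nsmul_eq_mul] using this
  have ve : ∀ i, (e i : ℚ) = q * (D.pb A i - η * D.pb (M.dd o) i) := fun i => by
    have := congrFun (D.q_pb aE) i
    rw [haE, D.pb_nsmul, D.pb_sub, D.pb_smul] at this
    simpa [nsmul_eq_mul] using this
  have vn : ∀ i, (nb i : ℚ) = q * m * D.bd o B i := fun i => by
    have := congrFun hnb i
    simpa [nsmul_eq_mul] using this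
  have vV : ∀ i, D.pb (q • mL + aQ) i = q * a i + c i := fun i => by
    rw [D.pb_add, D.pb_nsmul]
    simp [ha, hc]
  have I1 : ∀ i, (q * m : ℤ) * kW i + nb i + m * c i = q * a i := fun i => by
    have : ((q * m : ℤ) * kW i + nb i + m * c i : ℚ) = q * a i := by
      rw [vn, vb, vc, va]
      push_cast
      ring
    exact_mod_cast this
  have nbT : nb (D.e o) = 0 := by
    have := vn (D.e o)
    rw [p1, mul_zero] at this
    exact_mod_cast this
  have nblt : ∀ i, nb i < q * m := fun i => by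
    have h1 : (nb i : ℚ) < q * m := by
      rw [vn]
      have := mul_pos hq' hm'
      nlinarith [p3 i]
    exact_mod_cast h1
  have hqm : (0 : ℤ) < q * m := by positivity
  let F : W.J → ℤ := fun i => q * a i + c i - P i
  let np : W.J → ℤ := fun i => max (nb i) 0
  let nm : W.J → ℤ := fun i => max (-nb i) 0
  let mn : W.J → ℤ := fun i => min (np i) (F i)
  have F0 : ∀ i, 0 ≤ F i := fun i => by
    have : P i ≤ D.pb (q • mL + aQ) i := hP i
    rw [vV] at this
    simp only [F]
    omega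
  have FT : F (D.e o) = 0 := by
    have := dc.pb_e ℤ (q • mL + aQ) o
    rw [vV, ← hPo] at this
    simp only [F]
    omega
  have nmT : nm (D.e o) = 0 := by simp only [nm, nbT]; rfl
  have mnT : mn (D.e o) = 0 := by simp only [mn, np, nbT, FT]; rfl
  have mn0 : ∀ i, 0 ≤ mn i := fun i => le_min (le_max_right _ _) (F0 i)
  have hXe : X + e = P + (F + nm - mn) := by
    funext i
    have h1 := hX i
    rw [D.pb_sub, Pi.sub_apply, vV] at h1
    simp only [Pi.add_apply, Pi.sub_apply, F, nm, mn, np, h1, he]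
    ring
  obtain ⟨TQ, gQ⟩ := fQ
  obtain ⟨TE, gE⟩ := fE
  obtain ⟨h, U, hU, hlift⟩ := hT N f W hW (D.e o)
    (fun i => ((np i - mn i : ℤ) : ℚ) / (q * m : ℕ)) (q * m) (np - mn) (D.pb ((m + 1) • aQ)) P
    (F + nm - mn) (Nat.mul_pos hq hm)
    (fun i => div_nonneg (by
      have : mn i ≤ np i := min_le_left _ _
      exact Int.cast_nonneg (sub_nonneg.2 this)) (Nat.cast_nonneg _))
    (fun i => by
      rw [div_lt_one (by positivity)]
      have h1 := nblt i
      have h2 := mn0 i
      have h3 : np i - mn i < q * m := by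
        simp only [np] at *
        omega
      exact_mod_cast h3)
    (by
      have : np (D.e o) = 0 := by simp only [np, nbT]; rfl
      simp [this, mnT])
    (by
      funext i
      have : ((q * m : ℕ) : ℚ) ≠ 0 := by positivity
      simp only [Mod.q_apply, Pi.sub_apply, Pi.smul_apply, nsmul_eq_mul]
      rw [mul_div_cancel₀ _ this])
    ⟨TQ, dc.gens _ _ gQ⟩ fP
    (fun i => by
      have h1 : mn i ≤ F i := min_le_right _ _
      have h2 : 0 ≤ nm i := le_max_right _ _
      simp only [Pi.add_apply, Pi.sub_apply, Pi.zero_apply]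
      omega)
    (by simp only [Pi.add_apply, Pi.sub_apply, FT, nmT, mnT]; rfl)
    (fun i => by
      have h0 := F0 i
      by_cases h1 : np i ≤ F i
      · right
        have : mn i = np i := min_eq_left h1
        simp [this]
      · left
        simp only [Pi.add_apply, Pi.sub_apply, nm, mn, np] at h1 ⊢
        omega)
    (by
      funext i
      have h1 := I1 i
      rw [D.pb_nsmul]
      simp only [Pi.add_apply, Pi.sub_apply, nsmul_eq_mul, Pi.mul_apply, Pi.natCast_apply, F, nm,
        np, ← hc] at h1 ⊢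
      have h2 : max (nb i) 0 = nb i + max (-nb i) 0 := by omega
      have h3 : kW i = W.kk i + W.e (D.e o) i := rfl
      rw [h2, ← h3]
      push_cast
      linarith)
  have bE : W.Bpf (D.e o) e TE := bW.gens_bpf _ _ _ (dc.gens _ _ gE)
  -- the ample part
  obtain ⟨Ξ, -, x2, ε0, x3, x4⟩ := hA4 N f W M D hW hM ((m : ℚ)⁻¹ • A)
    ((hAq N f M hM).smul A _ (inv_pos.2 hm') hA)
  have xT : ∀ j, Ξ (D.e j) = 0 := fun j => congrFun x2 j
  have hfr : ((m : ℚ) - 1) / m ≤ 1 := by
    rw [div_le_one hm']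
    linarith
  obtain ⟨-, -, p4⟩ := hPlt N f W M D hW hM o (B + (((m : ℚ) - 1) / m * η) • M.dd o)
    (by simp [hBo, Mod.dd]) fun j => by
      have h1 := hBη j
      have h2 : ((m : ℚ) - 1) / m * η ≤ η := mul_le_of_le_one_left hη hfr
      simp only [Pi.add_apply, Pi.smul_apply, smul_eq_mul, Mod.dd]
      split_ifs <;> linarith
  obtain ⟨ε, e1, e2, e3⟩ := RE.small _ (W.q Ξ) p4 x3
  obtain ⟨ε1, y1, y2⟩ := (hAq N f W hW).opn _ (-W.q h) (x4 ε e1 e2)
  obtain ⟨k, hk⟩ := exists_nat_one_div_lt y1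
  set l : ℕ := k + 1 with hl
  have hl0 : (0 : ℚ) < l := by positivity
  have hq1 : (1 : ℚ) ≤ q := by exact_mod_cast hq
  have ht0 : 0 ≤ ((m : ℚ) - 1) / (q * m * l) := by positivity
  have ht1 : ((m : ℚ) - 1) / (q * m * l) ≤ ε1 := by
    refine le_trans ?_ hk.le
    have : (k : ℚ) + 1 = l := by rw [hl]; push_cast; rfl
    rw [this, div_le_div_iff₀ (by positivity) hl0]
    have : (m : ℚ) ≤ q * m := le_mul_of_one_le_left hm'.le hq1
    nlinarith
  obtain ⟨U1, hU1, hU1'⟩ := bW.bpf_pow _ _ _ l bE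
  obtain ⟨U2, hU2, hU2'⟩ := bW.bpf_mul _ _ _ _ _ hU1 hU
  let β : W.J → ℚ := fun i => D.bd o B i - ((m : ℚ) - 1) / (q * m) * nm i + ε * Ξ i
  have res := hL N f W hW (D.e o) a (l • (P + (F + nm - mn)) + h + l • mn) a
    (l • nm + l • (c - e)) _ β _ (q * l) s U2
    (by
      have h1 : (c (D.e o) : ℚ) = e (D.e o) := by
        rw [vc, ve, dc.pb_e ℚ (M.dd o) o]
        simp [Mod.dd]
      have h2 : c (D.e o) = e (D.e o) := by exact_mod_cast h1
      simp [nmT, h2])
    (y2 _ ht0 ht1) (by simp [β, p1, nmT, xT]) ht0 (Nat.mul_pos hq (Nat.succ_pos k))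
    (by
      refine le_trans (le_of_eq ?_) hfr
      push_cast
      field_simp)
    (fun i => by
      refine lt_of_eq_of_lt ?_ (e3 i)
      rw [vb, D.pb_add, D.pb_smul]
      simp only [β, vb, Pi.add_apply, Pi.sub_apply, Pi.smul_apply, nsmul_eq_mul, smul_eq_mul,
        Mod.q_apply, Pi.mul_apply, Pi.natCast_apply]
      push_cast
      rw [vc, ve]
      field_simp
      ring)
    (by
      funext i
      rw [D.pb_smul]
      simp only [β, vb, F, ← hkW, Pi.add_apply, Pi.sub_apply, Pi.smul_apply, Pi.neg_apply,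
        nsmul_eq_mul, smul_eq_mul, Mod.q_apply, Pi.mul_apply, Pi.natCast_apply]
      push_cast
      rw [vc, va]
      field_simp
      ring)
    (by rw [ha, dc.R]; exact hs)
    (by
      have : l • (P + (F + nm - mn)) + h + l • mn - (q * l) • a - (l • nm + l • (c - e)) =
          l • e + h := by
        funext i
        simp only [F, Pi.add_apply, Pi.sub_apply, nsmul_eq_mul, Pi.mul_apply, Pi.natCast_apply]
        push_cast
        ring
      rw [this]
      exact hU2)
    (fun u hu => by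
      obtain ⟨u1, h1, u2, h2, rfl⟩ := hU2' u hu
      obtain ⟨w, h3, rfl⟩ := hU1' u1 h1
      have h4 : s ^ q * w ∈ W.R (D.e o) (P + (F + nm - mn)) := by
        rw [← hXe]
        exact fun V v1 v2 => bW.oc_mul V _ _ _ _ (hsq V v1 v2) (bE.1 w h3 V v1 v2)
      have h5 := hlift _ h4 l u2 (hU.1 u2 h2)
      rw [show s ^ (q * l) * (w ^ l * u2) = (s ^ q * w) ^ l * u2 by rw [pow_mul]; ring]
      refine bW.lf_mono _ _ _ _ (fun i => ?_) (by simp [mnT]) h5
      have := mul_nonneg (Int.natCast_nonneg l) (mn0 i)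
      simp only [Pi.add_apply, nsmul_eq_mul, Pi.mul_apply, Pi.natCast_apply]
      omega)
    1 (RE.one_R W _ _)
  have fin := dc.lf o _ _ res
  have hpf : D.pf (a + W.up (-β)) = mL := by
    funext j
    have h1 : 0 ≤ nb (D.e j) := by
      have : (0 : ℚ) ≤ nb (D.e j) := by
        rw [vn, p2]
        exact mul_nonneg (mul_pos hq' hm').le (hB j)
      exact_mod_cast this
    have h2 : nm (D.e j) = 0 := by
      simp only [nm]
      omega
    have h3 : β (D.e j) = B j := by simp [β, p2, h2, xT]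
    have h4 : ⌈-B j⌉ = 0 := by
      rw [Int.ceil_eq_iff]
      have := hB1 j
      have : (0 : ℚ) ≤ B j := hB j
      constructor <;> push_cast <;> linarith
    simp only [Dom.pf, Mod.up, Pi.add_apply, Pi.neg_apply, h3, h4, ha, dc.pb_e, add_zero]
  rwa [hpf, mul_one] at fin

end Pool.Agent.MP_ee8c61_ag.M3E
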