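import Pool.Agent.MP_ee8c61_ag.M3E.Spec

/-!
The extension theorem in dimension three, in terms of orders along curves.
-/

namespace Pool.Agent.MP_ee8c61_ag.M3E

open H59 M3 Finset

namespace RE2

variable {N : ℕ} {f : Po N} {M : Mod N}

theorem cmp (hM : M.OK f) (hb : Bas f M) (hc : Cv M) {o j : M.J} {V : Vl N} (hV : M.IsCv o j V)
    {c c' : M.J → ℤ} {g : KK N} (h1 : M.Gen V c g) (h2 : M.Oc V c' g) (h3 : c o = c' o) :
    c j ≤ c' j := by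
  obtain ⟨b, hbV⟩ := hM.cov V hV.2.1
  have a1 := h1 b hbV
  have a2 := h2 b hbV
  have a3 : Un V (M.mon b (c' - c - (c' j - c j) • M.e j)) := hb.un_of b V _ hbV fun i hi => by
    rcases hc.thru o j V i hV hi with rfl | rfl
    · simp [Mod.e_apply, h3, hV.1.symm]
    · simp [Mod.e_apply]
  have a4 : c' = c + (c' - c - (c' j - c j) • M.e j) + (c' j - c j) • M.e j := by abel
  rw [a4, hb.mon_add, hb.mon_add, hb.mon_e, ← mul_assoc, ← mul_assoc, mul_comm,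
    (a1.mul a3).mem_iff,
    zpow_mem_iff (M.η_ne b j) (hbV _ (hb.η_mem b j)) (hV.2.2.2.1 b hbV)] at a2
  omega

theorem lifts (hM : M.OK f) (hb : Bas f M) (hq : Aq M) (h1 : SA1) (h0 : SL0) (o : M.J)
    (c : M.J → ℤ) (s : KK N) (hs : s ∈ M.R o c) :
    ∃ (V : M.J → ℤ) (U T : Finset (KK N)), M.Bpf o (V - 1 • c - 0) U ∧ (∀ g ∈ T, g ∈ M.H V) ∧
      (∃ r : ℕ, ip N f ^ r ∈ T) ∧
      (∀ u ∈ U, ∃ g ∈ T, s ^ 1 * u - g ∈ (M.v o).F (1 - V o)) ∧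
      ∀ g ∈ T, g ∈ (M.v o).F (1 - V o) ∨ ∃ u ∈ U, s ^ 1 * u - g ∈ (M.v o).F (1 - V o) := by
  classical
  obtain ⟨w, hw⟩ := hM.amp
  obtain ⟨r, hr⟩ := h1 N f M hM w (c - (M.kk + M.e o)) hw
  obtain ⟨U, hU⟩ := hb.free_nsmul w r (hb.amp_free w hw)
  have hL := h0 N f M hM o _ (hq.of_amp _ (hr r le_rfl))
  rw [M.up_q, show M.kk + M.e o + (r • w + (c - (M.kk + M.e o))) = c + r • w by abel] at hL
  have hl : ∀ u : KK N, ∃ g : KK N, u ∈ U →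
      g ∈ M.H (c + r • w) ∧ s ^ 1 * u - g ∈ (M.v o).F (1 - (c + r • w) o) := fun u => by
    by_cases hu : u ∈ U
    · obtain ⟨g, hg⟩ := hL (s * u) fun V a b => hb.oc_mul V _ _ _ _ (hs V a b) (hU.1 u hu V a)
      exact ⟨g, fun _ => by rwa [pow_one]⟩
    · exact ⟨0, fun h => absurd h hu⟩
  choose g hg using hl
  obtain ⟨r', hr'⟩ := hb.f_pow (c + r • w)
  refine ⟨c + r • w, U, insert (ip N f ^ r') (U.image g), ?_, ?_, ⟨r', mem_insert_self _ _⟩,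
    fun u hu => ⟨g u, mem_insert_of_mem (mem_image_of_mem _ hu), (hg u hu).2⟩, ?_⟩
  · rw [show c + r • w - 1 • c - 0 = r • w by abel]
    exact hb.gens_bpf o _ _ hU
  · intro x hx
    rcases mem_insert.1 hx with rfl | hx
    · exact (hr' r' le_rfl).1
    · obtain ⟨u, hu, rfl⟩ := mem_image.1 hx
      exact (hg u hu).1
  · intro x hx
    rcases mem_insert.1 hx with rfl | hx
    · exact Or.inl ((hr' r' le_rfl).2 o)
    · obtain ⟨u, hu, rfl⟩ := mem_image.1 hx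
      exact Or.inr ⟨u, hu, (hg u hu).2⟩

theorem mult (hq : Aq M) {P : M.J → ℚ} (hP : M.SemiQ P) :
    ∃ μ : ℕ, 0 < μ ∧ ∀ n : ℕ, μ ∣ n → ∃ w, M.Free w ∧ M.q w = n • P := by
  obtain ⟨μ, h0, h⟩ := hq.mult P hP
  refine ⟨μ, h0, ?_⟩
  rintro _ ⟨r, rfl⟩
  exact h r

theorem le_pb {W : Mod N} (hb : Bas f W) {D : Dom W M} (hD : Dc D) {c : M.J → ℤ} {P : W.J → ℤ}
    {T : Finset (KK N)} (hP : W.Gens P T) (hT : ∀ g ∈ T, g ∈ M.H c) : P ≤ D.pb c := fun i => by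
  obtain ⟨g, hg, h1⟩ := hP.2 _ (hb.ov_v i)
  have h2 : g ∈ W.H (D.pb c) := hD.H c ▸ hT g hg
  have h3 := (hb.oc_v i _ _).1 (h2 _ (hb.ov_v i))
  rw [hb.gen_v] at h1
  have h4 := h3.resolve_left h1.1
  have h5 := h1.2
  change P i ≤ D.pb c i
  omega

theorem pb_dd {W : Mod N} (D : Dom W M) {o j : M.J} {i : W.J} (hj : j ≠ o)
    (hm : ∀ j', j' ≠ o → D.m i j' = if j' = j then 1 else 0) : D.pb (M.dd o) i = 1 := by
  unfold Dom.pb
  rw [sum_eq_single j]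
  · simp [hm j hj, Mod.dd, hj]
  · intro j' _ hj'
    by_cases h : j' = o
    · simp [Mod.dd, h]
    · simp [hm j' h, hj']
  · simp

theorem pb_dd_nonneg {W : Mod N} (D : Dom W M) (o : M.J) (i : W.J) : 0 ≤ D.pb (M.dd o) i :=
  sum_nonneg fun j _ => mul_nonneg (Nat.cast_nonneg _) (by unfold Mod.dd; split_ifs <;> norm_num)

end RE2

open RE2 in
theorem rowE2 : OfE2 := by
  intro hBas hCv hCe hA1 hAq hL0 hDc hB1 hMn hE hBd f M hM o A B X η m mL mB s hm hA hB0 hBo hη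
    hB1' hCan hAE hmL hmB hX h0 hs hcv
  classical
  have hb := hBas 3 f M hM
  have hq := hAq 3 f M hM
  have hc := hCv 3 f M hM
  by_cases hs0 : s ∈ (M.v o).F (1 - mL o)
  · exact ⟨0, fun V _ b _ => by rw [zero_mul]; exact zero_mem _, by rwa [sub_zero]⟩
  obtain ⟨r0, Y0, g0, hr0, hY0, hg0, hG0⟩ := h0
  have hch : ∀ p : M.J × Vl 3, ∃ (e r e' : ℕ) (Y : M.J → ℤ) (g : KK 3), 0 < r ∧ M.q Y = r • X ∧
      g ∈ M.H Y ∧ (M.IsCv o p.1 p.2 → M.Oc p.2 (mL - (e : ℤ) • M.e p.1) s ∧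
        (m * B p.1 ≤ e + η ∨
          M.Gen p.2 (Y - (e' : ℤ) • M.e p.1) g ∧ (m : ℚ) * e' ≤ r * (e + η))) := fun p => by
    by_cases hp : M.IsCv o p.1 p.2
    · obtain ⟨e, h1, h2 | ⟨r, e', Y, g, a1, a2, a3, a4⟩⟩ := hcv _ _ hp
      · exact ⟨e, r0, 0, Y0, g0, hr0, hY0, hg0, fun _ => ⟨h1, Or.inl h2⟩⟩
      · exact ⟨e, r, e', Y, g, a1, a2, a3, fun _ => ⟨h1, Or.inr a4⟩⟩
    · exact ⟨0, r0, 0, Y0, g0, hr0, hY0, hg0, fun h => absurd h hp⟩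
  choose e0 r e' Y g hr hY hg hp using hch
  have hΓ : {p : M.J × Vl 3 | M.IsCv o p.1 p.2}.Finite :=
    (Set.finite_univ.prod (hc.fin o)).subset fun p hp => ⟨trivial, p.1, hp⟩
  obtain ⟨μ1, hμ1, h1⟩ := mult hq (hq.semi A hA)
  obtain ⟨μ2, hμ2, h2⟩ := mult hq hAE
  obtain ⟨μ3, hμ3, h3⟩ := mult hq hX
  obtain ⟨q, hq0, d1, d2, d3, d0, dr⟩ : ∃ q : ℕ, 0 < q ∧ μ1 ∣ q ∧ μ2 ∣ q ∧ μ3 ∣ q ∧ r0 ∣ q ∧
      ∀ p ∈ hΓ.toFinset, r p ∣ q := by
    refine ⟨μ1 * μ2 * μ3 * r0 * ∏ p ∈ hΓ.toFinset, r p, ?_, ?_, ?_, ?_, ?_, fun p hp => ?_⟩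
    · have := prod_pos (s := hΓ.toFinset) fun p _ => hr p
      positivity
    · exact ⟨μ2 * μ3 * r0 * ∏ p ∈ hΓ.toFinset, r p, by ring⟩
    · exact ⟨μ1 * μ3 * r0 * ∏ p ∈ hΓ.toFinset, r p, by ring⟩
    · exact ⟨μ1 * μ2 * r0 * ∏ p ∈ hΓ.toFinset, r p, by ring⟩
    · exact ⟨μ1 * μ2 * μ3 * ∏ p ∈ hΓ.toFinset, r p, by ring⟩
    · exact (dvd_prod_of_mem r hp).mul_left _
  obtain ⟨aQ, fQ, haQ⟩ := h1 q d1
  obtain ⟨aE, fE, haE⟩ := h2 q d2
  obtain ⟨w, ⟨Hh, hH⟩, hw⟩ := h3 (q * m) (d3.mul_right m)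
  have hm' : (m : ℚ) ≠ 0 := Nat.cast_ne_zero.2 hm.ne'
  have key : ∀ (r : ℕ) (Y : M.J → ℤ), r ∣ q → M.q Y = r • X →
      (q * m / r) • Y + w = q • mL + aQ := fun r Y hd hY => M.q_inj (by
    rw [M.q_add, M.q_add, M.q_nsmul, M.q_nsmul, hY, hw, hmL, haQ, smul_smul,
      Nat.div_mul_cancel (hd.mul_right m)]
    funext j
    simp only [Pi.add_apply, Pi.sub_apply, Pi.smul_apply]
    simp only [smul_eq_mul, nsmul_eq_mul]
    push_cast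
    field_simp
    ring)
  have keyH : ∀ (r : ℕ) (Y : M.J → ℤ) (g h : KK 3), r ∣ q → M.q Y = r • X → g ∈ M.H Y → h ∈ Hh →
      g ^ (q * m / r) * h ∈ M.H (q • mL + aQ) := fun r Y g h hd hY hg hh V hV =>
    key r Y hd hY ▸ hb.oc_mul V _ _ _ _ (hb.oc_pow V _ _ _ (hg V hV)) (hH.1 h hh V hV)
  obtain ⟨rf, hrf⟩ := hb.f_pow (q • mL + aQ)
  obtain ⟨T1, t1, t2, t3, t4⟩ : ∃ T : Finset (KK 3), (∀ x ∈ T, x ∈ M.H (q • mL + aQ)) ∧
      ip 3 f ^ rf ∈ T ∧ (∀ h ∈ Hh, g0 ^ (q * m / r0) * h ∈ T) ∧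
      ∀ p ∈ hΓ.toFinset, ∀ h ∈ Hh, g p ^ (q * m / r p) * h ∈ T := by
    refine ⟨insert (ip 3 f ^ rf) ((Hh.image fun h => g0 ^ (q * m / r0) * h) ∪
      (hΓ.toFinset ×ˢ Hh).image fun x => g x.1 ^ (q * m / r x.1) * x.2), fun x hx => ?_,
      mem_insert_self _ _,
      fun h hh => mem_insert_of_mem (mem_union_left _ (mem_image_of_mem _ hh)),
      fun p hp h hh => mem_insert_of_mem (mem_union_right _
        (mem_image.2 ⟨(p, h), mem_product.2 ⟨hp, hh⟩, rfl⟩))⟩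
    rcases mem_insert.1 hx with rfl | hx
    · exact (hrf rf le_rfl).1
    rcases mem_union.1 hx with hx | hx
    · obtain ⟨h, hh, rfl⟩ := mem_image.1 hx
      exact keyH r0 Y0 g0 h d0 hY0 hg0 hh
    · obtain ⟨y, hy, rfl⟩ := mem_image.1 hx
      exact keyH _ _ _ _ (dr _ (mem_product.1 hy).1) (hY _) (hg _) (mem_product.1 hy).2
  obtain ⟨V2, U, T2, u1, u2, u3, u4, u5⟩ := lifts hM hb hq hA1 hL0 o mL s hs
  obtain ⟨W, hW, ⟨D⟩, hWT⟩ := hB1 3 f M hM Bool (fun i => cond i T1 T2)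
    (fun i => by cases i; exacts [⟨V2, u2⟩, ⟨_, t1⟩])
    (fun i => by cases i; exacts [u3, ⟨rf, t2⟩])
  obtain ⟨P, hP⟩ : ∃ c, W.Gens c T1 := hWT true
  obtain ⟨P2, hP2⟩ : ∃ c, W.Gens c T2 := hWT false
  have hbW := hBas 3 f W hW
  have hcW := hCv 3 f W hW
  have hD := hDc 3 f W M D hW hM
  obtain ⟨-, -, e, he0, heT, he⟩ := hMn 3 f W M D hW hM o V2 mL 0 1 s U T2 P2 rfl one_pos hs hs0
    u1 u2 hP2 u4 u5
  have hPle : P ≤ D.pb (q • mL + aQ) := le_pb hbW hD hP t1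
  have hPT : P (D.e o) = (q • mL + aQ) o := by
    refine le_antisymm ((hPle _).trans (hD.pb_e ℤ _ o).le) ?_
    obtain ⟨h, hh, hG⟩ := hH.2 _ (hb.ov_v o)
    have a1 := hb.gen_mul _ _ _ _ _ (hb.gen_pow _ _ _ (q * m / r0) hG0) hG
    rw [key r0 Y0 d0 hY0, hb.gen_v] at a1
    have a2 := (hbW.oc_v _ _ _).1 (hP.1 _ (t3 h hh) _ (hbW.ov_v (D.e o)))
    rw [D.v] at a2
    have a3 := a2.resolve_left a1.1
    have a4 := a1.2
    omega
  obtain ⟨nb, hnb⟩ : ∃ nb : W.J → ℤ, W.q nb = (q * m) • D.bd o B := by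
    refine ⟨D.pb ((q * m) • (M.kk + M.e o) + q • mB) - (q * m) • (W.kk + W.e (D.e o)), ?_⟩
    rw [W.q_sub, D.q_pb, M.q_add, M.q_nsmul, M.q_nsmul, W.q_nsmul, hmB, smul_smul, ← smul_add,
      D.pb_nsmul, Dom.bd, smul_sub]
  refine hE 3 f W M D hW hM o A B η m q mL aQ aE P nb _ s hm hq0 hA hB0 hBo hη hB1' hmL haQ haE fE
    (hb.free_nsmul _ _ fQ) ⟨T1, hP⟩ hPle hPT hnb (fun _ => rfl) hs fun V' hV' hVo => ?_
  have hvT : (W.v (D.e o)).O = (M.v o).O := by rw [D.v]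
  refine hbW.oc_mono V' _ _ _ (fun i hi => ?_)
    (hbW.oc_pow V' _ _ q (hbW.gen_oc _ _ _ (he V' hV' (hvT ▸ hVo)).1))
  have hQE : ((D.pb (aQ - aE) i : ℤ) : ℚ) = q * η * D.pb (M.dd o) i := by
    have a1 := congrFun (D.q_pb (aQ - aE)) i
    rw [M.q_sub, haQ, haE, ← smul_sub, sub_sub_cancel, D.pb_nsmul, D.pb_smul] at a1
    simpa [mul_assoc] using a1
  have hX1 : D.pb (q • mL + aQ - aE) i = q * D.pb mL i + D.pb (aQ - aE) i := by
    rw [add_sub_assoc, D.pb_add, D.pb_nsmul]; simp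
  have hq' : (0 : ℚ) < q := Nat.cast_pos.2 hq0
  have b1 : 0 ≤ D.pb (aQ - aE) i := by
    have := mul_nonneg (mul_nonneg hq'.le hη) (pb_dd_nonneg D o i)
    rw [← hQE] at this
    exact_mod_cast this
  have b2 : 0 ≤ (q : ℤ) * e i := mul_nonneg (Int.natCast_nonneg _) (he0 i)
  suffices hh : min (max (nb i) 0) (D.pb (q • mL + aQ) i - P i) ≤ q * e i + D.pb (aQ - aE) i by
    have a1 := le_max_right (-nb i) 0
    rw [hX1, Pi.smul_apply, Pi.sub_apply, nsmul_eq_mul, mul_sub]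
    omega
  by_cases hiT : i = D.e o
  · refine (min_le_right _ _).trans ?_
    rw [hiT, hD.pb_e, hPT, sub_self, ← hiT]
    omega
  by_cases hn : nb i ≤ 0
  · refine (min_le_left _ _).trans ?_
    rw [max_eq_right hn]
    omega
  have hnbi : (nb i : ℚ) = q * m * D.bd o B i := by simpa using congrFun hnb i
  have hpos : 0 < D.bd o B i := by
    have a1 : (0 : ℚ) < nb i := by exact_mod_cast not_le.1 hn
    rw [hnbi] at a1
    exact (pos_iff_pos_of_mul_pos a1).1 (by positivity)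
  obtain ⟨V, hV, -⟩ := hCe 3 f W hW (D.e o) i V' hV' (hbW.thru_le V' _ hV' hVo) hi hiT
  obtain ⟨j, hj, hbd, hmj⟩ := hBd f W M D hW hM o B i V hB0
    (fun j => by have := hB1' j; linarith) hBo hCan hV hpos
  have hjo : j ≠ o := hj.1
  have hpe : ∀ (c : M.J → ℤ) (t : ℤ), D.pb (c - t • M.e j) i = D.pb c i - t ∧
      D.pb (c - t • M.e j) (D.e o) = c o := fun c t => by
    constructor
    · rw [D.pb_sub, D.pb_smul, Pi.sub_apply, Pi.smul_apply, D.pb_e, hmj j hjo]; simp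
    · rw [hD.pb_e]; simp [Mod.e_apply, hjo.symm]
  rw [pb_dd D hjo hmj, mul_one] at hQE
  obtain ⟨c1, c2⟩ := hp (j, V) hj
  have c3 : (e0 (j, V) : ℤ) ≤ e i := by
    have a1 := cmp hW hbW hcW hV (he V hj.2.1 hj.2.2.1).1 ((hD.oc V _ _ hj.2.1).1 c1)
      (by rw [(hpe _ _).2, Pi.sub_apply, heT, hD.pb_e, sub_zero])
    rw [(hpe _ _).1, Pi.sub_apply] at a1
    omega
  have c4 : (e0 (j, V) : ℚ) ≤ e i := by exact_mod_cast c3
  rcases c2 with c2 | ⟨c2, c5⟩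
  · refine (min_le_left _ _).trans ?_
    rw [max_eq_left (not_le.1 hn).le]
    have a1 : (nb i : ℚ) ≤ q * e i + (D.pb (aQ - aE) i : ℤ) := by
      rw [hQE, hnbi, mul_assoc, ← mul_add]
      refine mul_le_mul_of_nonneg_left ?_ hq'.le
      have := mul_le_mul_of_nonneg_left hbd (Nat.cast_nonneg (α := ℚ) m)
      simp only at c2
      linarith
    exact_mod_cast a1
  · refine (min_le_right _ _).trans ?_
    have hmem : (j, V) ∈ hΓ.toFinset := hΓ.mem_toFinset.2 hj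
    obtain ⟨h, hh, hG⟩ := hH.2 V hj.2.1
    have a1 := hb.gen_mul _ _ _ _ _ (hb.gen_pow _ _ _ (q * m / r (j, V)) c2) hG
    have a2 : (q * m / r (j, V)) • (Y (j, V) - (e' (j, V) : ℤ) • M.e j) + w =
        q • mL + aQ - (((q * m / r (j, V) : ℕ) : ℤ) * e' (j, V)) • M.e j := by
      rw [← key _ _ (dr _ hmem) (hY (j, V)), smul_sub, mul_smul, natCast_zsmul (M.e j),
        natCast_zsmul]
      abel
    simp only at a1
    rw [a2] at a1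
    have a3 := cmp hW hbW hcW hV ((hD.gen V _ _ hj.2.1).1 a1) (hP.1 _ (t4 _ hmem h hh) V hj.2.1)
      (by rw [(hpe _ _).2, hPT])
    rw [(hpe _ _).1] at a3
    have a4 : ((q * m / r (j, V) : ℕ) : ℚ) * r (j, V) = q * m := by
      exact_mod_cast Nat.div_mul_cancel ((dr _ hmem).mul_right m)
    have hr' : (0 : ℚ) < r (j, V) := Nat.cast_pos.2 (hr _)
    have a5 : ((q * m / r (j, V) : ℕ) : ℚ) * e' (j, V) ≤ q * e i + (D.pb (aQ - aE) i : ℤ) := by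
      rw [hQE]
      refine le_of_mul_le_mul_left ?_ hr'
      have a6 := mul_le_mul_of_nonneg_left c5 hq'.le
      have a7 := mul_le_mul_of_nonneg_left c4 (mul_pos hq' hr').le
      calc (r (j, V) : ℚ) * (((q * m / r (j, V) : ℕ) : ℚ) * e' (j, V))
          = q * (m * e' (j, V)) := by rw [← mul_assoc, mul_comm (r (j, V) : ℚ), a4, mul_assoc]
        _ ≤ _ := by nlinarith
    have a8 : ((q * m / r (j, V) : ℕ) : ℤ) * e' (j, V) ≤ q * e i + D.pb (aQ - aE) i := by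
      rw [← Int.cast_le (R := ℚ)]
      push_cast at a5 ⊢
      exact a5
    omega

end Pool.Agent.MP_ee8c61_ag.M3E
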