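import Pool.Agent.MP_ee8c61_ag.M3E.Spec

/-! A prime over two etale coordinates that is locally generated by them. -/

namespace Pool.Agent.MP_ee8c61_ag.M3E

open H59 M3

namespace RGd

theorem down {R A : Type} [CommRing R] [CommRing A] [Algebra R A] [Algebra.Etale R A]
    (q : Ideal R) [q.IsPrime] (P : Ideal A) [P.IsPrime] (h : q ≤ P.under R) :
    ∃ Q : Ideal A, Q.IsPrime ∧ Q ≤ P ∧ q = Q.under R ∧
      ∀ g ∈ Q, ∃ s, s ∉ Q ∧ s * g ∈ q.map (algebraMap R A) := by
  obtain ⟨Q, hQ, hp, ho⟩ := Ideal.exists_ideal_le_liesOver_of_le (p := q) (q := P.under R) P h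
  refine ⟨Q, hp, hQ, ho.over, fun g hg => ?_⟩
  letI := Localization.AtPrime.algebraOfLiesOver q Q
  have hu : Algebra.IsUnramifiedAt R Q := inferInstance
  have e := ((Algebra.isUnramifiedAt_iff_map_eq R q Q).1 hu).2
  have hg' : algebraMap A (Localization.AtPrime Q) g ∈
      (q.map (algebraMap R A)).map (algebraMap A (Localization.AtPrime Q)) := by
    rw [Ideal.map_map, ← IsScalarTower.algebraMap_eq, e,
      ← Localization.AtPrime.map_eq_maximalIdeal]
    exact Ideal.mem_map_of_mem _ hg
  obtain ⟨⟨a, s⟩, ha⟩ := (IsLocalization.mem_map_algebraMap_iff Q.primeCompl _).1 hg'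
  rw [← map_mul] at ha
  obtain ⟨c, hc⟩ := (IsLocalization.eq_iff_exists Q.primeCompl _).1 ha
  refine ⟨c * s, (c * s).2, ?_⟩
  have : (c : A) * s * g = c * a := by
    rw [← hc]
    ring
  rw [this]
  exact Ideal.mul_mem_left _ _ a.2

/-- The map that kills two variables. -/
noncomputable def kill {n : ℕ} (l l' : Fin n) : Po n →ₐ[ℂ] Po n :=
  MvPolynomial.aeval fun i => if i = l ∨ i = l' then 0 else MvPolynomial.X i

theorem sub_kill {n : ℕ} (l l' : Fin n) (p : Po n) :
    p - kill l l' p ∈ Ideal.span {(MvPolynomial.X l : Po n), MvPolynomial.X l'} := by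
  induction p using MvPolynomial.induction_on with
  | C a => simp [kill]
  | add p r hp hr =>
    have e : p + r - kill l l' (p + r) = (p - kill l l' p) + (r - kill l l' r) := by
      rw [map_add]
      ring
    rw [e]
    exact add_mem hp hr
  | mul_X p i hp =>
    have e : p * MvPolynomial.X i - kill l l' (p * MvPolynomial.X i) =
        (p - kill l l' p) * MvPolynomial.X i +
          kill l l' p * (MvPolynomial.X i - kill l l' (MvPolynomial.X i)) := by
      rw [map_mul]
      ring
    rw [e]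
    refine add_mem (Ideal.mul_mem_right _ _ hp) (Ideal.mul_mem_left _ _ ?_)
    by_cases h : i = l ∨ i = l'
    · rw [kill, MvPolynomial.aeval_X, if_pos h, sub_zero]
      rcases h with rfl | rfl
      · exact Ideal.subset_span (Or.inl rfl)
      · exact Ideal.subset_span (Or.inr rfl)
    · rw [kill, MvPolynomial.aeval_X, if_neg h, sub_self]
      exact zero_mem _

theorem ker_kill {n : ℕ} (l l' : Fin n) :
    Ideal.span {(MvPolynomial.X l : Po n), MvPolynomial.X l'} = RingHom.ker (kill l l') := by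
  refine le_antisymm (Ideal.span_le.2 ?_) fun p hp => ?_
  · rintro _ (rfl | rfl) <;> simp [kill, RingHom.mem_ker]
  · have := sub_kill l l' p
    rwa [(RingHom.mem_ker).1 hp, sub_zero] at this

end RGd

theorem rowGd : SGd := by
  intro A _ _ n z l l' P het hP hl hl'
  letI : Algebra (Po n) A := (MvPolynomial.aeval (R := ℂ) z).toRingHom.toAlgebra
  haveI : Algebra.Etale (Po n) A := het
  have hz : ∀ i, algebraMap (Po n) A (MvPolynomial.X i) = z i := fun i =>
    MvPolynomial.aeval_X z i
  haveI hq : (Ideal.span {(MvPolynomial.X l : Po n), MvPolynomial.X l'}).IsPrime := by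
    rw [RGd.ker_kill]
    exact RingHom.ker_isPrime _
  obtain ⟨Q, h1, h2, h3, h4⟩ :=
    RGd.down (Ideal.span {(MvPolynomial.X l : Po n), MvPolynomial.X l'}) P (by
      refine Ideal.span_le.2 ?_
      rintro _ (rfl | rfl)
      · exact Ideal.mem_comap.2 (by rw [hz]; exact hl)
      · exact Ideal.mem_comap.2 (by rw [hz]; exact hl'))
  have hm : ∀ i, z i ∈ Q ↔
      MvPolynomial.X i ∈ Ideal.span {(MvPolynomial.X l : Po n), MvPolynomial.X l'} := fun i => by
    rw [h3, ← hz]
    exact Ideal.mem_comap.symm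
  refine ⟨Q, h1, h2, (hm l).2 (Ideal.subset_span (Or.inl rfl)),
    (hm l').2 (Ideal.subset_span (Or.inr rfl)), fun i hi hi' h => ?_, fun g hg => ?_⟩
  · have := (hm i).1 h
    rw [RGd.ker_kill, RingHom.mem_ker, RGd.kill, MvPolynomial.aeval_X,
      if_neg (not_or.2 ⟨hi, hi'⟩)] at this
    exact MvPolynomial.X_ne_zero i this
  · obtain ⟨s, hs, hs'⟩ := h4 g hg
    rw [Ideal.map_span, Set.image_pair, hz, hz] at hs'
    exact ⟨s, hs, hs'⟩

end Pool.Agent.MP_ee8c61_ag.M3E
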