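import Pool.Agent.MP_ee8c61_ag.M3E.Spec

/-! The order of a Jacobian determinant. -/

namespace Pool.Agent.MP_ee8c61_ag.M3E

open H59 M3

namespace RJac

theorem prod_mem {K ι : Type} [Field K] (d : DV K) (s : Finset ι) (f : ι → K) (o : ι → ℤ)
    (h : ∀ i, f i ∈ d.F (o i)) : ∏ i ∈ s, f i ∈ d.F (∑ i ∈ s, o i) := by
  classical
  induction s using Finset.induction_on with
  | empty => exact Or.inr (by simp [d.one])
  | insert i s hi ih =>
    rw [Finset.prod_insert hi, Finset.sum_insert hi]
    exact d.F_mul (h i) ih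

end RJac

theorem rowJac : SJac := by
  intro K _ _ n d D l0 z o hD hz
  rw [Matrix.det_apply]
  refine sum_mem fun σ _ => ?_
  have h := RJac.prod_mem d Finset.univ (fun l => D (σ l) (z l))
    (fun l => o l - if σ l = l0 then 1 else 0) fun l => hD _ _ _ (hz l)
  have e : ∑ l, (if σ l = l0 then 1 else 0 : ℤ) = 1 := by
    rw [Equiv.sum_comp σ fun l => (if l = l0 then 1 else 0 : ℤ)]
    simp
  rw [Finset.sum_sub_distrib, e] at h
  rw [Units.smul_def]
  exact zsmul_mem h _

end Pool.Agent.MP_ee8c61_ag.M3E
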