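import Pool.Agent.MP_ee8c61_ag.M3E.Spec

/-!
Vanishing on an ample cover.
-/

namespace Pool.Agent.MP_ee8c61_ag.M3E

open H59 M3 Finset

noncomputable section

namespace RKV

variable {K : Type} [Field K] [Algebra ℂ K]

/-- The fractions over `A` whose denominators are invertible in `B`. -/
def fr (A B : Subalgebra ℂ K) : Subalgebra ℂ K where
  carrier := {g | ∃ u ∈ A, u ≠ 0 ∧ u⁻¹ ∈ B ∧ u * g ∈ A}
  mul_mem' := by
    rintro g h ⟨u, a, b, c, d⟩ ⟨u', a', b', c', d'⟩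
    exact ⟨u * u', mul_mem a a', mul_ne_zero b b', by rw [mul_inv]; exact mul_mem c c',
      by rw [mul_mul_mul_comm]; exact mul_mem d d'⟩
  add_mem' := by
    rintro g h ⟨u, a, b, c, d⟩ ⟨u', a', b', c', d'⟩
    refine ⟨u * u', mul_mem a a', mul_ne_zero b b', by rw [mul_inv]; exact mul_mem c c', ?_⟩
    rw [show u * u' * (g + h) = u' * (u * g) + u * (u' * h) by ring]
    exact add_mem (mul_mem a' d) (mul_mem a d')
  algebraMap_mem' c := ⟨1, one_mem _, one_ne_zero, by simp, by simp⟩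

theorem le_fr (A B : Subalgebra ℂ K) : A ≤ fr A B := fun g hg =>
  ⟨1, one_mem _, one_ne_zero, by simp, by simpa using hg⟩

theorem aw_le {A B : Subalgebra ℂ K} {t : K} (ht : t ∈ A) (h0 : t ≠ 0) (hB : t⁻¹ ∈ B) :
    A ⊔ Algebra.adjoin ℂ {t⁻¹} ≤ fr A B :=
  sup_le (le_fr A B) (Algebra.adjoin_le (Set.singleton_subset_iff.2
    ⟨t, ht, h0, hB, by rw [mul_inv_cancel₀ h0]; exact one_mem _⟩))

theorem fr_of {A B : Subalgebra ℂ K} {u g : K} (h0 : u ≠ 0) (hu : u ∈ fr A B) (hi : u⁻¹ ∈ B)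
    (hg : u * g ∈ fr A B) : g ∈ fr A B := by
  obtain ⟨s, a, b, c, d⟩ := hu
  obtain ⟨s', a', b', c', d'⟩ := hg
  refine ⟨s' * (s * u), mul_mem a' d, mul_ne_zero b' (mul_ne_zero b h0), ?_, ?_⟩
  · rw [mul_inv, mul_inv]
    exact mul_mem c' (mul_mem c hi)
  · rw [show s' * (s * u) * g = s * (s' * (u * g)) by ring]
    exact mul_mem a d'

theorem aw_val {A : Subalgebra ℂ K} {t : K} {V : ValuationSubring K} :
    (∀ g ∈ A ⊔ Algebra.adjoin ℂ {t⁻¹}, g ∈ V) ↔ (∀ g ∈ A, g ∈ V) ∧ t⁻¹ ∈ V := by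
  refine ⟨fun h => ⟨fun g hg => h g ((le_sup_left : A ≤ _) hg), h _ ((le_sup_right : _ ≤ A ⊔ _)
    (Algebra.subset_adjoin (Set.mem_singleton _)))⟩, fun h g hg => ?_⟩
  exact (sup_le h.1 (Algebra.adjoin_le (Set.singleton_subset_iff.2 h.2)) :
    A ⊔ Algebra.adjoin ℂ {t⁻¹} ≤ VA V fun c => h.1 _ (A.algebraMap_mem c)) hg

end RKV

open RKV in
theorem rowKV : OfKV := by
  intro hKV hBas hNb hRef N f M hM κ _ w b t ρ μ hA hμ g hg hc
  have B := hBas N f M hM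
  have nb := hNb N f M hM
  obtain ⟨S, ρ', hr, hS, hη, hD, het, hP, -⟩ := hRef N f M hM κ w b t ρ hA
  have : Nonempty κ := ⟨(hA.cov ⊤ fun _ => trivial).choose⟩
  have hmon : ∀ i c, S.mon i c = M.S.mon (b i) c := fun i c => by
    rw [Sys.mon, Sys.mon, hη]
  have hle : ∀ i, M.S.A (b i) ≤ S.A i := fun i => by
    rw [hS]
    exact le_sup_left
  have hti : ∀ i, (t i)⁻¹ ∈ S.A i := fun i => by
    rw [hS]
    exact (le_sup_right : _ ≤ M.S.A (b i) ⊔ _) (Algebra.subset_adjoin (Set.mem_singleton _))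
  have hval : ∀ i (V : Vl N), (∀ x ∈ S.A i, x ∈ V) ↔ M.In (b i) V ∧ (t i)⁻¹ ∈ V := fun i V => by
    rw [hS]
    exact aw_val
  refine (hKV (KK N) κ M.J N N S M.S.r M.kk w ρ' μ het (fun c l => ?_) (fun c => ?_)
    hP hμ g (fun i j => ?_) hc).imp fun h H => ⟨fun i V hV hG => ?_, H.2⟩
  · rw [hr, hM.r]
    exact hle c (hM.pol _ _)
  · obtain ⟨U, hU, e⟩ := hM.det (b c)
    refine ⟨U, ⟨hle c hU.1, hle c hU.2⟩, ?_⟩
    rw [hD, hr, hmon, Units.val_mul]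
    exact e
  · have hi : S.A i ≤ fr (M.S.A (b i)) (S.A i ⊔ S.A j) :=
      (hS i).le.trans (aw_le (hA.mem i) (hA.ne i) ((le_sup_left : S.A i ≤ _) (hti i)))
    have hj : S.A j ≤ fr (M.S.A (b i)) (S.A i ⊔ S.A j) := fun x hx => by
      obtain ⟨u, u1, u2, u3⟩ := S.loc i j x hx
      rw [Units.val_inv_eq_inv_val] at u2
      exact fr_of u.ne_zero (hi u1) u2 (hi u3)
    refine nb.loc (b i) _ ((hle i).trans le_sup_left) (fun x hx => sup_le hi hj hx) _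
      fun V hV => ?_
    have Hi := (hval i V).1 fun x hx => hV x ((le_sup_left : S.A i ≤ _) hx)
    have Hj := (hval j V).1 fun x hx => hV x ((le_sup_right : S.A j ≤ _) hx)
    have ho := B.ov _ V Hi.1
    rw [hmon]
    exact hg i j V ho ((hA.gen i V ho).2 Hi) ((hA.gen j V ho).2 Hj) _ Hi.1
  · have H' := (hA.gen i V hV).1 hG
    rw [B.oc_iff (b i) V _ _ H'.1]
    have := (hval i V).2 H' _ (H.1 i)
    rwa [hmon] at this

end

end Pool.Agent.MP_ee8c61_ag.M3E
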