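import Pool.Agent.MP_ee8c61_ag.M3E.Spec

/-! Row L0: lifting of sections from a divisor by the vanishing theorem. -/

namespace Pool.Agent.MP_ee8c61_ag.M3E

open H59 M3

namespace RL0

variable {N : ℕ} {f : Po N} {M : Mod N} {κ : Type} {w : M.J → ℤ} {b : κ → M.ι}
  {t ρ : κ → KK N}

/-- Local lifts. -/
theorem loc_lift (B : Bas f M) (hA : M.AC w b t ρ) (o : M.J) (c : M.J → ℤ) (s : KK N)
    (hs : s ∈ M.R o c)
    (hN : ∀ b o, ∀ t ∈ M.S.A b, M.In b (M.v o).O → Un (M.v o).O t → ∀ s,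
      (∀ V, M.In b V → t⁻¹ ∈ V → V ≤ (M.v o).O → s ∈ V) →
      ∃ (e : ℕ) (g : KK N), g ∈ M.S.A b ∧ s - g / t ^ e ∈ (M.v o).F 1) (i : κ) :
    ∃ g, (∀ V, Ov V → M.Gen V w (ρ i) → M.Oc V c g) ∧
      (M.Gen (M.v o).O w (ρ i) → s - g ∈ (M.v o).F (1 - c o)) := by
  by_cases h : M.Gen (M.v o).O w (ρ i)
  · obtain ⟨h1, h2⟩ := (hA.gen i _ (B.ov_v o)).1 h
    obtain ⟨e, g, hg, hsg⟩ := hN (b i) o (t i) (hA.mem i) h1 ⟨hA.ne i, h1 _ (hA.mem i), h2⟩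
      (s * M.mon (b i) c) fun V a1 _ a3 => hs V (B.ov _ V a1) a3 (b i) a1
    refine ⟨g / t i ^ e * (M.mon (b i) c)⁻¹, fun V hV hG => ?_, fun _ => ?_⟩
    · obtain ⟨a1, a2⟩ := (hA.gen i V hV).1 hG
      rw [B.oc_iff (b i) V c _ a1, inv_mul_cancel_right₀ (M.mon_ne _ _), div_eq_mul_inv,
        ← inv_pow]
      exact mul_mem (a1 g hg) (pow_mem a2 e)
    · have a1 : (M.mon (b i) c)⁻¹ ∈ (M.v o).F (-c o) :=
        Or.inr (by rw [DV.inv, B.v_mon (b i) o c h1])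
      have a2 := (M.v o).F_mul hsg a1
      rwa [sub_mul, mul_inv_cancel_right₀ (M.mon_ne _ _), ← sub_eq_add_neg] at a2
  · exact ⟨0, fun V _ _ a _ => by rw [zero_mul]; exact zero_mem _, fun a => absurd a h⟩

/-- A chart that meets the divisor contains its generic point. -/
theorem gen_of_thru (B : Bas f M) (hA : M.AC w b t ρ) (o : M.J) (i : κ) (V : Vl N) (hV : Ov V)
    (hG : M.Gen V w (ρ i)) (hT : M.Thru V o) : M.Gen (M.v o).O w (ρ i) := by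
  obtain ⟨a1, a2⟩ := (hA.gen i V hV).1 hG
  obtain ⟨h1, -, -, h4⟩ := B.in_v (b i) V o a1 hT
  have h5 := h4 (t i) (hA.mem i) ⟨hA.ne i, a1 _ (hA.mem i), a2⟩
  exact (hA.gen i _ (B.ov_v o)).2 ⟨h1, ((M.v o).un_O.2 ⟨hA.ne i, h5⟩).2.2⟩

/-- A section on an overlap that vanishes on the divisor. -/
theorem drop (hM : M.OK f) (B : Bas f M) (C : Nb M) (hA : M.AC w b t ρ) (o : M.J) (c : M.J → ℤ)
    (i j : κ) (y : KK N)
    (hy : ∀ V, Ov V → M.Gen V w (ρ i) → M.Gen V w (ρ j) → M.Oc V (c + M.e o) y)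
    (h0 : M.Gen (M.v o).O w (ρ i) → M.Gen (M.v o).O w (ρ j) → y ∈ (M.v o).F (-c o))
    (V : Vl N) (hV : Ov V) (hi : M.Gen V w (ρ i)) (hj : M.Gen V w (ρ j)) : M.Oc V c y := by
  by_cases hT : M.Thru V o
  · have h1 := h0 (gen_of_thru B hA o i V hV hi hT) (gen_of_thru B hA o j V hV hj hT)
    obtain ⟨a1, a2⟩ := (hA.gen i V hV).1 hi
    obtain ⟨b1, b2, -, -⟩ := B.in_v (b i) V o a1 hT
    have h2 : Lc (M.S.A (b i)) V (y * M.mon (b i) (c + M.e o)) := by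
      refine C.lc (b i) V _ a1 fun V' c1 c2 => ?_
      have hV' := B.ov _ V' c1
      refine hy V' hV' ((hA.gen i V' hV').2
        ⟨c1, (c2 (t i) (hA.mem i) ⟨hA.ne i, a1 _ (hA.mem i), a2⟩).2.2⟩) ?_ (b i) c1
      exact (B.gen_iff (b i) V' w _ c1).2
        (c2 _ ((C.H w (ρ j)).1 (hA.sec j) (b i)) (hj (b i) a1))
    obtain ⟨u, u1, u2, u3⟩ := h2
    have h3 : M.mon (b i) (c + M.e o) ∈ (M.v o).F (c o + 1) :=
      Or.inr (by rw [B.v_mon (b i) o _ b1, Pi.add_apply, M.e_apply, if_pos rfl])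
    have h4 := (M.v o).F_mul (b1 u u1) ((M.v o).F_mul h1 h3)
    rw [show (0 : ℤ) + (-c o + (c o + 1)) = 1 by ring] at h4
    have h5 := a1 _ ((hM.dv (b i) o b2).2.2 _ u3 h4)
    have h6 : M.mon (b i) (M.e o) = M.η (b i) o := by
      have := B.mon_e (b i) o 1
      rwa [one_smul, zpow_one] at this
    rw [B.mon_add, h6, ← mul_assoc y, mul_assoc u, mul_inv_cancel_right₀ (M.η_ne _ _),
      mul_comm u, u2.mem_iff] at h5
    exact (B.oc_iff (b i) V c y a1).2 h5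
  · refine B.oc_mono V _ _ y (fun l hl => ?_) (hy V hV hi hj)
    have : l ≠ o := fun e => hT (e ▸ hl)
    rw [Pi.add_apply, M.e_apply, if_neg this, add_zero]

theorem main (hM : M.OK f) (B : Bas f M) (C : Nb M) (hA : M.AC w b t ρ) (o : M.J) (c : M.J → ℤ)
    (hN : ∀ b o, ∀ t ∈ M.S.A b, M.In b (M.v o).O → Un (M.v o).O t → ∀ s,
      (∀ V, M.In b V → t⁻¹ ∈ V → V ≤ (M.v o).O → s ∈ V) →
      ∃ (e : ℕ) (g : KK N), g ∈ M.S.A b ∧ s - g / t ^ e ∈ (M.v o).F 1)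
    (hK : ∀ g : κ → κ → KK N,
      (∀ i j V, Ov V → M.Gen V w (ρ i) → M.Gen V w (ρ j) → M.Oc V c (g i j)) →
      (∀ i j l, g i j + g j l = g i l) → ∃ h : κ → KK N,
        (∀ i V, Ov V → M.Gen V w (ρ i) → M.Oc V c (h i)) ∧ ∀ i j, g i j = h i - h j)
    (s : KK N) (hs : s ∈ M.R o (c + M.e o)) : M.Lf o (c + M.e o) s := by
  choose g hg1 hg2 using loc_lift B hA o (c + M.e o) s hs hN
  have e1 : 1 - (c + M.e o) o = -c o := by
    rw [Pi.add_apply, M.e_apply, if_pos rfl]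
    ring
  obtain ⟨h, hh1, hh2⟩ := hK (fun i j => g i - g j)
    (fun i j => drop hM B C hA o c i j _
      (fun V hV hi hj => B.oc_sub V _ _ _ (hg1 i V hV hi) (hg1 j V hV hj))
      fun hi hj => by
        have := sub_mem (hg2 j hj) (hg2 i hi)
        rwa [sub_sub_sub_cancel_left, e1] at this)
    fun i j l => sub_add_sub_cancel _ _ _
  obtain ⟨i0, hi0⟩ := hA.cov _ (B.ov_v o)
  refine ⟨g i0 - h i0, fun V hV => ?_, ?_⟩
  · obtain ⟨i, hi⟩ := hA.cov V hV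
    have e2 : g i0 - h i0 = g i - h i := by
      have : g i0 - g i = h i0 - h i := hh2 i0 i
      linear_combination this
    rw [e2]
    refine B.oc_sub V _ _ _ (hg1 i V hV hi) (B.oc_mono V _ _ _ (fun l _ => ?_) (hh1 i V hV hi))
    rw [Pi.add_apply, M.e_apply]
    split_ifs <;> omega
  · have a1 := (B.oc_v o c (h i0)).1 (hh1 i0 _ (B.ov_v o) hi0)
    rw [← e1] at a1
    have a2 := add_mem (hg2 i0 hi0) a1
    rwa [show s - g i0 + h i0 = s - (g i0 - h i0) by ring] at a2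

end RL0

theorem rowL0 : OfL0 := by
  intro hB hC hN hK N f M hM o A hA
  obtain ⟨μ, w, hμ, ⟨κ, _, b, t, ρ, hA⟩, hw⟩ := hA
  have e1 : Sys.cl w μ = M.up A := by
    funext j
    have h1 : (w j : ℚ) = μ * A j := by
      have := congrFun hw j
      rwa [Mod.q_apply, Pi.smul_apply, nsmul_eq_mul] at this
    have h2 : (μ : ℚ) ≠ 0 := Nat.cast_ne_zero.2 hμ.ne'
    show ⌈(w j : ℚ) / μ⌉ = ⌈A j⌉
    rw [h1, mul_div_cancel_left₀ _ h2]
  have e2 : M.kk + M.e o + M.up A = M.kk + Sys.cl w μ + M.e o := by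
    rw [e1, add_right_comm]
  rw [e2]
  exact RL0.main hM (hB N f M hM) (hC N f M hM) hA o _ (hN N f M hM)
    (hK N f M hM κ w b t ρ μ hA hμ)

end Pool.Agent.MP_ee8c61_ag.M3E
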