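import Pool.Agent.MP_ee8c61_ag.M3E.Asm
import Pool.Agent.MP_ee8c61_ag.M3E.RA1
import Pool.Agent.MP_ee8c61_ag.M3E.RA3
import Pool.Agent.MP_ee8c61_ag.M3E.RA4
import Pool.Agent.MP_ee8c61_ag.M3E.RAdj
import Pool.Agent.MP_ee8c61_ag.M3E.RAq
import Pool.Agent.MP_ee8c61_ag.M3E.RB1
import Pool.Agent.MP_ee8c61_ag.M3E.RBas
import Pool.Agent.MP_ee8c61_ag.M3E.RBas1
import Pool.Agent.MP_ee8c61_ag.M3E.RBd
import Pool.Agent.MP_ee8c61_ag.M3E.RCan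
import Pool.Agent.MP_ee8c61_ag.M3E.RCe
import Pool.Agent.MP_ee8c61_ag.M3E.RClr
import Pool.Agent.MP_ee8c61_ag.M3E.RCv
import Pool.Agent.MP_ee8c61_ag.M3E.RDc
import Pool.Agent.MP_ee8c61_ag.M3E.RDer
import Pool.Agent.MP_ee8c61_ag.M3E.RE
import Pool.Agent.MP_ee8c61_ag.M3E.RE2
import Pool.Agent.MP_ee8c61_ag.M3E.RGd
import Pool.Agent.MP_ee8c61_ag.M3E.RH
import Pool.Agent.MP_ee8c61_ag.M3E.RJac
import Pool.Agent.MP_ee8c61_ag.M3E.RJd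
import Pool.Agent.MP_ee8c61_ag.M3E.RKV
import Pool.Agent.MP_ee8c61_ag.M3E.RL
import Pool.Agent.MP_ee8c61_ag.M3E.RL0
import Pool.Agent.MP_ee8c61_ag.M3E.RMk1
import Pool.Agent.MP_ee8c61_ag.M3E.RMk2
import Pool.Agent.MP_ee8c61_ag.M3E.RMn
import Pool.Agent.MP_ee8c61_ag.M3E.RMono
import Pool.Agent.MP_ee8c61_ag.M3E.RNb
import Pool.Agent.MP_ee8c61_ag.M3E.RNrm
import Pool.Agent.MP_ee8c61_ag.M3E.RNs
import Pool.Agent.MP_ee8c61_ag.M3E.RPlt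
import Pool.Agent.MP_ee8c61_ag.M3E.RT
import Pool.Agent.MP_ee8c61_ag.M3E.RUnr
import Pool.Agent.MP_ee8c61_ag.KV59.Out
import Pool.Agent.MP_ee8c61_ag.M3B1.Cov
import Pool.Agent.MP_ee8c61_ag.M3B1.Dom
import Pool.Agent.MP_ee8c61_ag.M3B1.Dvr
import Pool.Agent.MP_ee8c61_ag.M3B1.Et
import Pool.Agent.MP_ee8c61_ag.M3B1.Fin
import Pool.Agent.MP_ee8c61_ag.M3B1.Jac
import Pool.Agent.MP_ee8c61_ag.M3B1.Loc
import Pool.Agent.MP_ee8c61_ag.M3B1.Sys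

/-!
Lifting of sections from a divisor: all statements hold.
-/

namespace Pool.Agent.MP_ee8c61_ag.M3E

theorem erows : ERows :=
  ⟨rowNrm, rowUnr, rowGd, rowJac, rowBas1, rowBas, rowDer, rowNb, rowNs, rowH, rowMono, rowCv, rowCe,
    rowClr, rowRef, rowA1, rowA3, rowAq, rowKV, rowL0, rowDc, rowMk1, rowMk2, rowB1, rowA4, rowJd,
    rowPlt, rowAdj, rowMn, rowL, rowT, rowE, rowBd, rowE2, rowCan⟩

open M3B1 in
theorem sb1 : M3B1.SB1 :=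
  sb1_of rowDOM (rowCOV (rowLOC rowET)) (rowFIN rowMONO rowJAC rowKIN (rowSYS rowDVR))

theorem sb1raw : SB1raw := fun N f G hf hr => by
  classical
  obtain ⟨M, hM, c, hc⟩ := sb1 N f G hf hr
  exact ⟨M, hM, c, G.image (M3.ip N), Finset.coe_image, hc _ Finset.coe_image⟩

theorem eout : EOut := eout_of erows KV59.skvf sb1raw

end Pool.Agent.MP_ee8c61_ag.M3E
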