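import Pool.Agent.MP_ee8c61_ag.M3E.Spec

/-! Row Bd, first part: orders along a curve, polynomials in three coordinates. -/

namespace Pool.Agent.MP_ee8c61_ag.M3E

open H59 M3 Finset

namespace RBd

theorem third : ∀ a b : Fin 3, a ≠ b → ∃ c, a ≠ c ∧ b ≠ c := by decide

theorem all3 : ∀ a b c : Fin 3, a ≠ b → a ≠ c → b ≠ c → ∀ x, x = a ∨ x = b ∨ x = c := by decide

theorem sum3 {R : Type} [AddCommMonoid R] {a b c : Fin 3} (h1 : a ≠ b) (h2 : a ≠ c) (h3 : b ≠ c)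
    (g : Fin 3 → R) : ∑ x, g x = g a + g b + g c := by
  have e : (univ : Finset (Fin 3)) = {a, b, c} := by
    ext x
    simpa using all3 a b c h1 h2 h3 x
  rw [e, sum_insert (by simp [h1, h2]), sum_pair h3, add_assoc]

variable {K : Type} [Field K] {V : ValuationSubring K} {u g h : K} {e e' : ℤ}

/-- `g` has order `e` with respect to `u`. -/
def Od (V : ValuationSubring K) (u g : K) (e : ℤ) : Prop := Un V (g / u ^ e)

theorem Od.le (h0 : u ≠ 0) (hu : u ∈ V) (hn : ¬Un V u) (h1 : Od V u g e) (h2 : g / u ^ e' ∈ V) :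
    e' ≤ e := by
  have a : g / u ^ e' = u ^ (e - e') * (g / u ^ e) := by
    rw [zpow_sub₀ h0]
    field_simp
  rw [a, Un.mem_iff h1, zpow_mem_iff h0 hu hn] at h2
  omega

theorem Od.uniq (h0 : u ≠ 0) (hu : u ∈ V) (hn : ¬Un V u) (h1 : Od V u g e) (h2 : Od V u g e') :
    e = e' :=
  le_antisymm (h2.le h0 hu hn h1.2.1) (h1.le h0 hu hn h2.2.1)

theorem od_zero : Od V u g 0 ↔ Un V g := by rw [Od, zpow_zero, div_one]

theorem Od.un_iff (h0 : u ≠ 0) (hu : u ∈ V) (hn : ¬Un V u) (h1 : Od V u g e) :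
    Un V g ↔ e = 0 :=
  ⟨fun a => h1.uniq h0 hu hn (od_zero.2 a), fun a => od_zero.1 (a ▸ h1)⟩

theorem Od.nonneg (h0 : u ≠ 0) (hu : u ∈ V) (hn : ¬Un V u) (h1 : Od V u g e) (hg : g ∈ V) :
    0 ≤ e :=
  h1.le h0 hu hn (by rwa [zpow_zero, div_one])

theorem Od.of_div (h1 : Od V u h e) (h2 : Un V (g / h)) : Od V u g e := by
  have a := h2.mul h1
  have h0 : h ≠ 0 := left_ne_zero_of_mul (div_eq_mul_inv h _ ▸ h1.1)
  rwa [div_mul_div_cancel₀ h0] at a

theorem Od.un_of {V' : ValuationSubring K} (h1 : Od V u g e) (hle : V ≤ V') (hu : Un V' u) :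
    Un V' g := by
  have a := (Un.mono h1 hle).mul (hu.zpow e)
  rwa [div_mul_cancel₀ _ (zpow_ne_zero e hu.1)] at a

theorem Od.one (h0 : u ≠ 0) (hu : u ∈ V) (hn : ¬Un V u) {m : ℕ} (h1 : Od V u g m)
    (h2 : Un V (u / g ^ e)) : m = 1 := by
  have hg : g ≠ 0 := left_ne_zero_of_mul (div_eq_mul_inv g _ ▸ h1.1)
  have a := h2.mul (Un.zpow h1 e)
  have b : u / g ^ e * (g / u ^ (m : ℤ)) ^ e = u ^ (1 - m * e) := by
    rw [div_zpow, ← zpow_mul, zpow_sub₀ h0, zpow_one, div_mul_div_cancel₀ (zpow_ne_zero e hg)]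
  rw [b, un_zpow_iff h0 hu hn] at a
  have c : (m : ℤ) = 1 := 
    Int.eq_one_of_mul_eq_one_right (Int.natCast_nonneg m) (sub_eq_zero.1 a).symm
  exact_mod_cast c

theorem small_div (d : DV K) (hu : Un d.O u) (hg : g ∈ d.F 1) (e : ℤ) : g / u ^ e ∈ d.F 1 := by
  have a := d.F_mul hg (d.mem_O.1 (hu.zpow e).2.2)
  rwa [add_zero, ← div_eq_mul_inv] at a

theorem od_of (d : DV K) (hs : ∀ x ∈ d.F 1, x ∈ V ∧ ¬Un V x) (hu : Un d.O u) {s s' : K}
    (h1 : Un V s) (h2 : Un V s') (h3 : s * g - s' * u ^ e ∈ d.F 1) : Od V u g e := by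
  obtain ⟨a, b⟩ := hs _ (small_div d hu h3 e)
  have c := h2.add a b
  have h0 := zpow_ne_zero e hu.1
  have e1 : s' + (s * g - s' * u ^ e) / u ^ e = g / u ^ e * s := by
    field_simp
    ring
  rw [e1] at c
  exact c.cancel h1

variable [Algebra ℂ K]

theorem der_bound (d : DV K) (hs : ∀ x ∈ d.F 1, x ∈ V ∧ ¬Un V x) (hu : Un d.O u) (huV : u ∈ V)
    {s s' : K} (h1 : Un V s) (h2 : Un V s') (h3 : s * g - s' * u ^ e ∈ d.F 1)
    (δ : Derivation ℂ K K) (hδ : ∀ x ∈ d.F 1, δ x ∈ d.F 1) (a1 : δ s ∈ V) (a2 : δ s' ∈ V) :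
    (δ u ∈ V → δ g / u ^ (e - 1) ∈ V) ∧ (δ u = 0 → δ g / u ^ e ∈ V) := by
  have o1 : g / u ^ e ∈ V := (od_of d hs hu h1 h2 h3).2.1
  have o2 := (hs _ (small_div d hu (hδ _ h3) e)).1
  have h0 := zpow_ne_zero e hu.1
  have hu0 := hu.1
  have o3 := sub_mem (add_mem o2 a2) (mul_mem o1 a1)
  have e1 : δ (s * g - s' * u ^ e) =
      s * δ g + g * δ s - (s' * (e * (u ^ e / u * δ u)) + u ^ e * δ s') := by
    rw [map_sub, δ.leibniz, δ.leibniz, δ.leibniz_zpow, zpow_sub_one₀ hu0]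
    simp only [smul_eq_mul, zsmul_eq_mul, div_eq_mul_inv]
  rw [e1] at o3
  constructor
  · intro a3
    have o4 := add_mem (mul_mem huV o3) (mul_mem h2.2.1 (mul_mem (intCast_mem V e) a3))
    refine (Un.mem_iff h1).1 ((congrArg (fun x => x ∈ V) ?_).mp o4)
    rw [zpow_sub_one₀ hu0]
    field_simp
    ring
  · intro a3
    rw [a3] at o3
    refine (Un.mem_iff h1).1 ((congrArg (fun x => x ∈ V) ?_).mp o3)
    field_simp
    ring

theorem un_const (hV : ∀ c : ℂ, algebraMap ℂ K c ∈ V) {c : ℂ} (hc : c ≠ 0) :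
    Un V (algebraMap ℂ K c) :=
  ⟨(map_ne_zero _).2 hc, hV c, map_inv₀ (algebraMap ℂ K) c ▸ hV c⁻¹⟩

theorem ex_root (hV : ∀ c : ℂ, algebraMap ℂ K c ∈ V) {p : Polynomial ℂ} (hp : p ≠ 0) {y : K}
    (hn : ¬Un V (Polynomial.aeval y p)) : ∃ c : ℂ, ¬Un V (y - algebraMap ℂ K c) := by
  by_contra hc
  refine hn ?_
  rw [(IsAlgClosed.splits p).eq_prod_roots, map_mul, Polynomial.aeval_C, map_multiset_prod]
  refine (un_const hV (Polynomial.leadingCoeff_ne_zero.2 hp)).mul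
    (Multiset.prod_induction (Un V) _ (fun _ _ => Un.mul) un_one fun x hx => ?_)
  obtain ⟨q, hq, rfl⟩ := Multiset.mem_map.1 hx
  obtain ⟨c, -, rfl⟩ := Multiset.mem_map.1 hq
  rw [map_sub, Polynomial.aeval_X, Polynomial.aeval_C]
  exact by_contra fun a => hc ⟨c, a⟩

theorem split3 (A : Subalgebra ℂ K) (z : Fin 3 → K) (hz : ∀ l, z l ∈ A) {l0 l1 l2 : Fin 3}
    (hl : ∀ x, x = l0 ∨ x = l1 ∨ x = l2) (p : Po 3) :
    ∃ h0 ∈ A, ∃ h1 ∈ A, ∃ q : Polynomial ℂ,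
      MvPolynomial.aeval z p = h0 * z l0 + h1 * z l1 + Polynomial.aeval (z l2) q := by
  have hm : ∀ p : Po 3, MvPolynomial.aeval z p ∈ A := fun p => by
    induction p using MvPolynomial.induction_on with
    | C c => rw [MvPolynomial.aeval_C]; exact A.algebraMap_mem c
    | add p q hp hq => rw [map_add]; exact add_mem hp hq
    | mul_X p l hp => rw [map_mul, MvPolynomial.aeval_X]; exact mul_mem hp (hz l)
  induction p using MvPolynomial.induction_on with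
  | C c => exact ⟨0, zero_mem _, 0, zero_mem _, Polynomial.C c, by simp⟩
  | add p q hp hq =>
    obtain ⟨a, ha, b, hb, r, e1⟩ := hp
    obtain ⟨a', ha', b', hb', r', e2⟩ := hq
    exact ⟨a + a', add_mem ha ha', b + b', add_mem hb hb', r + r', by
      rw [map_add, map_add, e1, e2]; ring⟩
  | mul_X p l hp =>
    rw [map_mul, MvPolynomial.aeval_X]
    rcases hl l with rfl | rfl | rfl
    · exact ⟨_, hm p, 0, zero_mem _, 0, by simp⟩
    · exact ⟨0, zero_mem _, _, hm p, 0, by simp⟩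
    · obtain ⟨a, ha, b, hb, r, e1⟩ := hp
      exact ⟨a * z l, mul_mem ha (hz l), b * z l, mul_mem hb (hz l), r * Polynomial.X, by
        rw [map_mul, Polynomial.aeval_X, e1]; ring⟩

/-- Either the centre is cut out by two coordinates, or the third is constant on it. -/
theorem dich (hU : SUnr) (A : Subalgebra ℂ K) (z : Fin 3 → K) (hz : ∀ l, z l ∈ A)
    (het : (MvPolynomial.aeval (R := ℂ) fun l => (⟨z l, hz l⟩ : A)).toRingHom.Etale)
    (hA : ∀ x ∈ A, x ∈ V) {l0 l1 l2 : Fin 3} (hl : ∀ x, x = l0 ∨ x = l1 ∨ x = l2)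
    (n0 : ¬Un V (z l0)) (n1 : ¬Un V (z l1)) (hg : g ∈ A) (hn : ¬Un V g) :
    (∃ c : ℂ, ¬Un V (z l2 - algebraMap ℂ K c)) ∨
      ∃ s ∈ A, ∃ a ∈ A, ∃ b ∈ A, Un V s ∧ s * g = a * z l0 + b * z l1 := by
  obtain ⟨s, hs, us, r, k, p, hk, hp, e1⟩ := hU K 3 A (fun l => ⟨z l, hz l⟩) V het hA g hg hn
  choose a ha b hb q hq using fun i => split3 A z hz hl (p i)
  by_cases h0 : ∀ i, q i = 0
  · refine Or.inr ⟨s, hs, ∑ i, k i * a i, sum_mem fun i _ => mul_mem (hk i) (ha i),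
      ∑ i, k i * b i, sum_mem fun i _ => mul_mem (hk i) (hb i), us, ?_⟩
    rw [e1, sum_mul, sum_mul, ← sum_add_distrib]
    refine sum_congr rfl fun i _ => ?_
    refine (congrArg (fun x => k i * x) (hq i)).trans ?_
    rw [h0 i, map_zero]
    ring
  · obtain ⟨i, hi⟩ := not_forall.1 h0
    refine Or.inl (ex_root (fun c => hA _ (A.algebraMap_mem c)) hi fun un => hp i ?_)
    have m0 := hA _ (hz l0)
    have m1 := hA _ (hz l1)
    have c := un.add (add_mem (mul_mem (hA _ (ha i)) m0) (mul_mem (hA _ (hb i)) m1))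
      (not_un_add (mul_mem (hA _ (ha i)) m0) (mul_mem (hA _ (hb i)) m1)
        (not_un_mul (hA _ (ha i)) m0 n0) (not_un_mul (hA _ (hb i)) m1 n1))
    rw [add_comm, ← hq i] at c
    exact c

end RBd

end Pool.Agent.MP_ee8c61_ag.M3E
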