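import Pool.Agent.MP_ee8c61_ag.M3E.RCana

/-!
A dominating model on which the crepant pull-back of a boundary is canonical on a divisor.
-/

namespace Pool.Agent.MP_ee8c61_ag.M3E

open H59 M3 Finset

namespace RCan

theorem fin3 : ∀ a b c l : Fin 3, a ≠ b → a ≠ c → b ≠ c → l = a ∨ l = b ∨ l = c := by decide

theorem fin3' : ∀ a : Fin 3, ∃ b c : Fin 3, a ≠ b ∧ a ≠ c ∧ b ≠ c := by decide

theorem mon3 (W : Mod 3) {b : W.ι} {t i i' : W.J} {i0 i1 i2 : Fin 3}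
    (h0 : W.S.lab b t = some i0) (h1 : W.S.lab b i = some i1) (h2 : W.S.lab b i' = some i2)
    (n1 : i ≠ t) (n2 : i' ≠ t) (n3 : i ≠ i') (c : W.J → ℤ) (hc : c t = 0) :
    W.mon b c = W.η b i ^ c i * W.η b i' ^ c i' := by
  rw [W.mon_eq, ← prod_pair (f := fun j => W.η b j ^ c j) n3]
  refine (prod_subset (subset_univ _) fun j _ hj => ?_).symm
  rw [mem_insert, mem_singleton, not_or] at hj
  by_cases ht : j = t
  · rw [ht, hc, zpow_zero]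
  rcases h : W.S.lab b j with _ | l
  · rw [Mod.η, W.S.η_none b j h, Units.val_one, one_zpow]
  · rcases fin3 i0 i1 i2 l (fun e => n1 (W.S.lab_inj b _ _ _ h1 (e ▸ h0)))
      (fun e => n2 (W.S.lab_inj b _ _ _ h2 (e ▸ h0)))
      (fun e => n3 (W.S.lab_inj b _ _ _ h1 (e ▸ h2))) with e | e | e
    · exact absurd (W.S.lab_inj b _ _ _ h (e ▸ h0)) ht
    · exact absurd (W.S.lab_inj b _ _ _ h (e ▸ h1)) hj.1
    · exact absurd (W.S.lab_inj b _ _ _ h (e ▸ h2)) hj.2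

theorem arith {δ S : ℚ} {n o1 o2 : ℕ} {x : ℤ} (h0 : 0 < δ) (h1 : δ ≤ 1) (hn : 1 ≤ δ * n)
    (hS : S ≤ (1 - δ) * (o1 + o2)) (a : 0 ≤ x) (b : (o1 + o2 : ℤ) ≤ x + 2)
    (c : o1 ≤ n → o2 ≤ n → (o1 + o2 : ℤ) ≤ x + 1) : S - x ≤ 1 - δ := by
  have a' : (0 : ℚ) ≤ x := by exact_mod_cast a
  have b' : (o1 + o2 : ℚ) ≤ x + 2 := by exact_mod_cast b
  by_cases h : o1 ≤ n ∧ o2 ≤ n
  · have c' : (o1 + o2 : ℚ) ≤ x + 1 := by exact_mod_cast c h.1 h.2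
    rcases Nat.eq_zero_or_pos (o1 + o2) with e | e
    · have e' : (o1 + o2 : ℚ) = 0 := by exact_mod_cast e
      rw [e'] at hS
      linarith
    · have e' : (1 : ℚ) ≤ o1 + o2 := by exact_mod_cast e
      nlinarith
  · have e : (n + 1 : ℚ) ≤ o1 + o2 := by exact_mod_cast (by omega : n + 1 ≤ o1 + o2)
    nlinarith

theorem det0 {p1 q1 p2 q2 : ℕ} (h1 : (p2 + q2) * p1 ≤ (p1 + q1) * p2)
    (h2 : (p2 + q2) * q1 ≤ (p1 + q1) * q2) : p1 * q2 = q1 * p2 := by nlinarith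

variable {f : Po 3} {W M : Mod 3}

theorem curve (bW : Bas f W) (cW : Cv W) (hce : SCe) (hW : W.OK f) {t i i' : W.J} {V : Vl 3}
    {b : W.ι} (hV : Ov V) (hb : W.In b V) (ht : W.Thru V t) (hi : W.Thru V i) (n1 : i ≠ t)
    (n2 : i' ≠ t) (n3 : i' ≠ i) : ∃ V', W.In b V' ∧ V' ≤ (W.v t).O ∧
      (∀ g ∈ LA (W.S.A b) V, g ∈ V') ∧ ¬Un V' (W.η b i) ∧ Un V' (W.η b i') := by
  obtain ⟨V', h1, h2⟩ := hce 3 f W hW t i V hV ht hi n1
  obtain ⟨h3, h4⟩ := h2 b hb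
  refine ⟨V', h3, h1.2.2.1, fun g hg => Lc.mem hg h3 h4, (bW.thru_iff b V' i h3).1 h1.2.2.2.1,
    by_contra fun h => ?_⟩
  exact (cW.thru t i V' i' h1 ((bW.thru_iff b V' i' h3).2 h)).elim n2 n3

end RCan

open RCan in
theorem rowCan : OfCan := by
  intro hBas hDer hNb hCv hCe hA1 hDc hB1 hAdj f M hM δ hδ
  obtain ⟨W, D, hW, hP⟩ := exPr hBas hNb hA1 hDc hB1 hM ⌈δ⁻¹⌉₊
  refine ⟨W, D, hW, fun o B B0 B1 Bo i i' V hV hle n3 n1 n2 ti ti' => ?_⟩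
  have bM : Bas f M := hBas 3 f M hM
  have bW : Bas f W := hBas 3 f W hW
  have dM : Der M := hDer 3 f M hM
  have dW : Der W := hDer 3 f W hW
  have dc : Dc D := hDc 3 f W M D hW hM
  obtain ⟨a, ha⟩ := hM.cov V hV
  obtain ⟨b, hb⟩ := hW.cov V hV
  have tt : W.Thru V (D.e o) := bW.thru_le V _ hV (by rw [D.v]; exact hle)
  obtain ⟨-, -, ⟨l0, hl0⟩, -⟩ := bM.in_v a V o ha (bM.thru_le V o hV hle)
  obtain ⟨-, -, ⟨i0, hi0⟩, -⟩ := bW.in_v b V _ hb tt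
  obtain ⟨-, -, ⟨i1, hi1⟩, -⟩ := bW.in_v b V _ hb ti
  obtain ⟨-, -, ⟨i2, hi2⟩, -⟩ := bW.in_v b V _ hb ti'
  obtain ⟨l1, l2, m1, m2, m3⟩ := fin3' l0
  have k1 : i0 ≠ i1 := fun e => n1 (W.S.lab_inj b _ _ _ hi1 (e ▸ hi0))
  have k2 : i0 ≠ i2 := fun e => n2 (W.S.lab_inj b _ _ _ hi2 (e ▸ hi0))
  have k3 : i1 ≠ i2 := fun e => n3 (W.S.lab_inj b _ _ _ hi1 (e ▸ hi2))
  have mon := mon3 W hi0 hi1 hi2 n1 n2 n3
  let G : Vl 3 → Prop := fun V' => W.In b V' ∧ M.In a V' ∧ V' ≤ (M.v o).O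
  have aL : ∀ g ∈ M.S.A a, g ∈ LA (W.S.A b) V := dc.lc a b V ha hb
  have cv : ∀ s s', W.Thru V s → s ≠ D.e o → s' ≠ D.e o → s' ≠ s → ∃ V', G V' ∧
      (∀ g ∈ LA (W.S.A b) V, g ∈ V') ∧ ¬Un V' (W.η b s) ∧ Un V' (W.η b s') := by
    intro s s' x1 x2 x3 x4
    obtain ⟨V', y1, y2, y3, y4⟩ := curve bW (hCv 3 f W hW) hCe hW hV hb tt x1 x2 x3 x4
    exact ⟨V', ⟨y1, fun g hg => y3 g (aL g hg), D.v o ▸ y2⟩, y3, y4⟩
  have H : Loc (LA (W.S.A b) V) V G (W.η b i) (W.η b i') (W.S.D b i1) (W.S.D b i2) :=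
    { le := fun g hg => Lc.mem' hg hb
      gV := ⟨hb, ha, hle⟩
      m1 := le_LA (bW.η_mem b i)
      m2 := le_LA (bW.η_mem b i')
      z1 := W.η_ne b i
      z2 := W.η_ne b i'
      n1 := ti b hb
      n2 := ti' b hb
      c1 := cv i i' ti n1 n2 n3.symm
      c2 := cv i' i ti' n2 n1 n3
      d1 := dW.lc b V i1
      d2 := dW.lc b V i2
      e11 := by rw [Mod.η, W.S.η_some b i i1 hi1, W.S.D_z, if_pos rfl]
      e12 := by rw [Mod.η, W.S.η_some b i' i2 hi2, W.S.D_z, if_neg k3]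
      e21 := by rw [Mod.η, W.S.η_some b i i1 hi1, W.S.D_z, if_neg k3.symm]
      e22 := by rw [Mod.η, W.S.η_some b i' i2 hi2, W.S.D_z, if_pos rfl] }
  have un : ∀ j, j ≠ o → ∀ V', M.In a V' → W.In b V' →
      Un V' (M.η a j / (W.η b i ^ (D.m i j : ℤ) * W.η b i' ^ (D.m i' j : ℤ))) := by
    intro j hj V' x1 x2
    have := D.mon a b V' x1 x2 j
    rwa [mon _ (by rw [← D.pb_e, dc.pb_e, M.e_apply, if_neg hj.symm])] at this
  have fr : ∀ l, l0 ≠ l → ∃ p q : ℕ,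
      Fr (LA (W.S.A b) V) V G (W.η b i) (W.η b i') (W.S.D b i1) (W.S.D b i2) (M.S.z a l) p q ∧
      (∑ j, if M.S.lab a j = some l then D.m i j + D.m i' j else 0) = p + q ∧
      ((p = 0 ∧ q = 0) ∨ ∃ j, p = D.m i j ∧ q = D.m i' j) := by
    intro l hl
    have hz := aL _ (M.S.z_mem a l)
    by_cases h : ∃ j, M.S.lab a j = some l
    · obtain ⟨j, hj⟩ := h
      have jo : j ≠ o := fun e => hl (Option.some_injective _ (hl0.symm.trans (e ▸ hj)))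
      have u := un j jo
      rw [Mod.η, M.S.η_some a j l hj] at u
      have u' : ∀ V', W.In b V' → (∀ s ∈ W.S.A b, Un V s → Un V' s) →
          Un V' (M.S.z a l / (W.η b i ^ D.m i j * W.η b i' ^ D.m i' j)) := fun V' x1 x2 => by
        simpa using u V' (fun g hg => Lc.mem (aL g hg) x1 x2) x1
      refine ⟨D.m i j, D.m i' j, H.fr_mon hz (fun V' hG => u V' hG.2.1 hG.1)
        ((hNb 3 f W hW).lc b V _ hb fun V' x1 x2 => (u' V' x1 x2).2.1)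
        ((hNb 3 f W hW).lc b V _ hb fun V' x1 x2 => (u' V' x1 x2).2.2), ?_, Or.inr ⟨j, rfl, rfl⟩⟩
      rw [sum_eq_single j (fun j' _ hj' => if_neg fun e => hj' (M.S.lab_inj a _ _ _ e hj))
        (fun e => absurd (mem_univ j) e), if_pos hj]
    · exact ⟨0, 0, H.fr_zero hz, sum_eq_zero fun j _ => if_neg fun e => h ⟨j, e⟩,
        Or.inl ⟨rfl, rfl⟩⟩
  obtain ⟨p1, q1, F1, s1, r1⟩ := fr l1 m1
  obtain ⟨p2, q2, F2, s2, r2⟩ := fr l2 m2
  have kk : W.k (D.e o) = M.k o := le_antisymm (k_le hW hM bW bM dW dM (D.v o).symm)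
    (k_le hM hW bM bW dM dW (D.v o))
  obtain ⟨c, hc⟩ : ∃ c, c = W.kk + W.e (D.e o) - D.pb (M.kk + M.e o) := ⟨_, rfl⟩
  obtain ⟨t1, t2, t3⟩ := H.main (x := c i) (y := c i') F1 F2 fun V' hG => by
    have x1 := hAdj f W M D hW hM o a b V' l0 l1 l2 i0 i1 i2 hG.2.1 hG.1 hG.2.2 hl0 hi0 m1 m2 m3
      k1 k2 k3
    have x2 := x1.div (dc.un_mon a b V' (M.kk + M.e o) hG.2.1 hG.1)
    rw [← mon c (by simp [hc, dc.pb_e, Mod.kk, Mod.e_apply, kk]), hc, sub_eq_add_neg (W.kk + _),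
      bW.mon_add b (W.kk + _), bW.mon_neg]
    refine Eq.mp (congrArg (Un V') ?_) x2
    have y1 := M.mon_ne a (M.kk + M.e o)
    have y2 := W.mon_ne b (W.kk + W.e (D.e o))
    have y3 := W.mon_ne b (D.pb (M.kk + M.e o))
    field_simp
  have h1 : δ ≤ 1 := by linarith [B1 o]
  have hS : D.pb B i + D.pb B i' ≤ (1 - δ) * ((p1 + q1 : ℕ) + (p2 + q2 : ℕ)) := by
    rw [← s1, ← s2, Dom.pb, Dom.pb, ← sum_add_distrib, ← Nat.cast_add, ← sum_add_distrib,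
      Nat.cast_sum, mul_sum]
    refine sum_le_sum fun j _ => ?_
    by_cases jo : j = o
    · rw [jo, Bo, mul_zero, mul_zero, add_zero]
      exact mul_nonneg (by linarith) (Nat.cast_nonneg _)
    rw [← add_mul, mul_comm, ← Nat.cast_add]
    refine mul_le_mul (B1 j) (Nat.cast_le.2 ?_) (Nat.cast_nonneg _) (by linarith)
    rcases h : M.S.lab a j with _ | l
    · have u := un j jo
      rw [Mod.η, M.S.η_none a j h, Units.val_one] at u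
      have := H.exp_one fun V' hG => u V' hG.2.1 hG.1
      omega
    · rcases fin3 l0 l1 l2 l m1 m2 m3 with e | e | e
      · exact absurd (M.S.lab_inj a _ _ _ h (e ▸ hl0)) jo
      · rw [e, if_pos rfl]; omega
      · rw [e, if_pos rfl]; omega
  have e : D.bd o B i + D.bd o B i' = D.pb B i + D.pb B i' - (c i + c i' : ℤ) := by
    simp only [Dom.bd, D.pb_add, ← D.q_pb, hc, Pi.sub_apply, Pi.add_apply, Mod.q_apply]
    push_cast
    ring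
  rw [e]
  refine arith (n := ⌈δ⁻¹⌉₊) hδ h1 ?_ hS t1 (by push_cast; exact t2) fun x1 x2 => ?_
  · have := mul_le_mul_of_nonneg_left (Nat.le_ceil δ⁻¹) hδ.le
    rwa [mul_inv_cancel₀ hδ.ne'] at this
  · push_cast
    refine t3 ?_
    rcases r1 with ⟨rfl, rfl⟩ | ⟨j1, rfl, rfl⟩
    · simp
    rcases r2 with ⟨rfl, rfl⟩ | ⟨j2, rfl, rfl⟩
    · simp
    rcases hP j1 j2 _ _ x1 x2 V hV with h | h
    · exact det0 (h i ti) (h i' ti')
    · have := det0 (h i ti) (h i' ti')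
      rw [mul_comm, ← this, mul_comm]

end Pool.Agent.MP_ee8c61_ag.M3E
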